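import Pool.Agent.H66.SyL.Lg

/-! Local coordinates on L (inverse function theorem). -/

set_option autoImplicit false

open scoped ContDiff Topology

namespace Pool.Agent.H11.ST

open Pool.Agent.H66.SyL

/-- Proof: inverse function theorem for F = f o p at x0 = r P; A = F^(-1) (ball (f P) δ) (local inverse),
contained in the ball of the chart and in p^(-1) W; σ = p o F^(-1), O = C.U cap r^(-1) A cap W. -/
theorem imp_p {L : Set (Op 3)} (C : LChart L) {P : Op 3} (hP : P ∈ L ∩ C.U) (f : Op 3 → ℂ × ℝ)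
    (hf : ContDiff ℝ 1 f)
    (hs : Function.Bijective (fderiv ℝ (fun x => f (C.p x)) (C.r P)))
    {W : Set (Op 3)} (hW : W ∈ 𝓝 P) :
    ∃ (δ : ℝ) (σ : ℂ × ℝ → Op 3) (O : Set (Op 3)), 0 < δ ∧ IsOpen O ∧ P ∈ O ∧ O ⊆ W ∧
      ContinuousOn σ (Metric.ball (f P) δ) ∧
      (∀ y ∈ Metric.ball (f P) δ, σ y ∈ L ∩ O ∧ f (σ y) = y) ∧
      (∀ Q ∈ L ∩ O, f Q ∈ Metric.ball (f P) δ ∧ σ (f Q) = Q) := by
  set x0 : R 3 := C.r P with hx0
  have hb : x0 ∈ Metric.ball C.x0 C.δ := C.r_mem P hP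
  have hpx0 : C.p x0 = P := C.p_r P hP
  have hF : ContDiffAt ℝ 1 (fun x => f (C.p x)) x0 := by
    have h1 : ContDiffAt ℝ 1 C.p x0 := C.smooth_p.contDiffAt (Metric.isOpen_ball.mem_nhds hb)
    exact hf.contDiffAt.comp x0 h1
  have hstr : HasStrictFDerivAt (fun x => f (C.p x)) (fderiv ℝ (fun x => f (C.p x)) x0) x0 :=
    hF.hasStrictFDerivAt one_ne_zero
  let e : R 3 ≃L[ℝ] ℂ × ℝ := ContinuousLinearEquiv.ofBijective
    (fderiv ℝ (fun x => f (C.p x)) x0) (LinearMap.ker_eq_bot.2 hs.1) (LinearMap.range_eq_top.2 hs.2)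
  have hstr' : HasStrictFDerivAt (fun x => f (C.p x)) (e : R 3 →L[ℝ] ℂ × ℝ) x0 := by
    have h1 : (e : R 3 →L[ℝ] ℂ × ℝ) = fderiv ℝ (fun x => f (C.p x)) x0 :=
      ContinuousLinearMap.ext fun v => rfl
    rw [h1]
    exact hstr
  let Φ := hstr'.toOpenPartialHomeomorph (fun x => f (C.p x))
  have hΦ0 : x0 ∈ Φ.source := hstr'.mem_toOpenPartialHomeomorph_source
  have hΦF : ∀ x, Φ x = f (C.p x) := fun x => by
    have h1 := hstr'.toOpenPartialHomeomorph_coe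
    exact congrFun h1 x
  have hΦx0 : Φ x0 = f P := by rw [hΦF, hpx0]
  -- the open set A0
  set A0 : Set (R 3) := Φ.source ∩ (Metric.ball C.x0 C.δ ∩ C.p ⁻¹' (interior W)) with hA0
  have hA0o : IsOpen A0 :=
    Φ.open_source.inter
      (C.smooth_p.continuousOn.isOpen_inter_preimage Metric.isOpen_ball isOpen_interior)
  have hx0A0 : x0 ∈ A0 := by
    refine ⟨hΦ0, hb, ?_⟩
    show C.p x0 ∈ interior W
    rw [hpx0]
    exact mem_interior_iff_mem_nhds.2 hW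
  have himg : IsOpen (Φ '' A0) := Φ.isOpen_image_of_subset_source hA0o Set.inter_subset_left
  have h0img : f P ∈ Φ '' A0 := ⟨x0, hx0A0, hΦx0⟩
  obtain ⟨ε, hε, hball⟩ := Metric.isOpen_iff.1 himg _ h0img
  -- the box
  set A : Set (R 3) := A0 ∩ Φ ⁻¹' (Metric.ball (f P) ε) with hA
  have hAo : IsOpen A := by
    have h1 : IsOpen (Φ.source ∩ Φ ⁻¹' (Metric.ball (f P) ε)) :=
      Φ.isOpen_inter_preimage Metric.isOpen_ball
    have h2 : A = A0 ∩ (Φ.source ∩ Φ ⁻¹' (Metric.ball (f P) ε)) := by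
      ext x
      constructor
      · rintro ⟨h3, h4⟩
        exact ⟨h3, h3.1, h4⟩
      · rintro ⟨h3, -, h4⟩
        exact ⟨h3, h4⟩
    rw [h2]
    exact hA0o.inter h1
  have hx0A : x0 ∈ A := by
    refine ⟨hx0A0, ?_⟩
    show Φ x0 ∈ Metric.ball (f P) ε
    rw [hΦx0]
    exact Metric.mem_ball_self hε
  have hsymm : ∀ y ∈ Metric.ball (f P) ε, Φ.symm y ∈ A ∧ Φ (Φ.symm y) = y := by
    intro y hy
    obtain ⟨x, hx, hxt⟩ := hball hy
    have h1 : Φ.symm y = x := by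
      rw [← hxt]
      exact Φ.left_inv hx.1
    rw [h1]
    exact ⟨⟨hx, by show Φ x ∈ Metric.ball (f P) ε; rw [hxt]; exact hy⟩, hxt⟩
  set O : Set (Op 3) := (C.U ∩ C.r ⁻¹' A) ∩ interior W with hO
  have hOo : IsOpen O :=
    (C.smooth_r.continuousOn.isOpen_inter_preimage C.openU hAo).inter isOpen_interior
  refine ⟨ε, fun y => C.p (Φ.symm y), O, hε, hOo,
    ⟨⟨hP.2, hx0A⟩, mem_interior_iff_mem_nhds.2 hW⟩,
    fun Q hQ => interior_subset hQ.2, ?_, ?_, ?_⟩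
  · -- continuity of sigma
    have h1 : ContinuousOn Φ.symm (Metric.ball (f P) ε) := by
      refine Φ.continuousOn_symm.mono fun y hy => ?_
      obtain ⟨x, hx, hxt⟩ := hball hy
      rw [← hxt]
      exact Φ.map_source hx.1
    exact C.smooth_p.continuousOn.comp h1 fun y hy => (hsymm y hy).1.1.2.1
  · intro y hy
    obtain ⟨h1, h2⟩ := hsymm y hy
    have h3 := C.p_mem _ h1.1.2.1
    have h4 : C.r (C.p (Φ.symm y)) = Φ.symm y := C.r_p _ h1.1.2.1
    refine ⟨⟨h3.1, ⟨h3.2, ?_⟩, h1.1.2.2⟩, ?_⟩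
    · show C.r (C.p (Φ.symm y)) ∈ A
      rw [h4]
      exact h1
    · have h5 := hΦF (Φ.symm y)
      rw [h2] at h5
      exact h5.symm
  · intro Q hQ
    have hA' : C.r Q ∈ A := hQ.2.1.2
    have hpr : C.p (C.r Q) = Q := C.p_r Q ⟨hQ.1, hQ.2.1.1⟩
    have h1 : Φ (C.r Q) = f Q := by rw [hΦF, hpr]
    constructor
    · have h3 : Φ (C.r Q) ∈ Metric.ball (f P) ε := hA'.2
      rw [h1] at h3
      exact h3
    · show C.p (Φ.symm (f Q)) = Q
      rw [← h1, Φ.left_inv hA'.1.1, hpr]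

end Pool.Agent.H11.ST
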