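import Pool.Agent.H11.ST.Defs
import Pool.Agent.H66.SyL.Alg

/-! Algebra of ent, prj, tor. -/

set_option autoImplicit false

open scoped ContDiff Topology

namespace Pool.Agent.H11.ST

open Pool.Agent.H66.SyL

variable (b : Bas)

private theorem ext_coord {v w : E 3} (h : ∀ k, inner ℂ (b k) v = inner ℂ (b k) w) : v = w := by
  apply b.repr.injective
  ext k
  rw [b.repr_apply_apply, b.repr_apply_apply]
  exact h k

private theorem rot_basis (θ : Fin (3 + 1) → ℝ) (j : Fin (3 + 1)) :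
    rot b θ (b j) = Complex.exp ((θ j : ℂ) * Complex.I) • b j := by
  refine ext_coord b fun k => ?_
  rw [coord_rot, inner_smul_right]
  by_cases hk : k = j
  · rw [hk]
  · rw [b.orthonormal.2 hk, mul_zero, mul_zero]

private theorem norm_sq_sum (z : E 3) : ∑ i, ‖inner ℂ (b i) z‖ ^ 2 = ‖z‖ ^ 2 :=
  b.sum_sq_norm_inner_right z

theorem ent_pt (z : E 3) (i j : Fin (3 + 1)) :
    ent b (pt z) i j = inner ℂ (b i) z * (starRingEnd ℂ) (inner ℂ (b j) z) := by
  rw [ent, pt_apply, inner_smul_right, inner_conj_symm, mul_comm]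

theorem prj_pt (z : E 3) :
    prj b (pt z) = (inner ℂ (b 0) z * (starRingEnd ℂ) (inner ℂ (b 2) z) *
      (inner ℂ (b 1) z * (starRingEnd ℂ) (inner ℂ (b 3) z)), ‖inner ℂ (b 0) z‖ ^ 2) := by
  rw [prj, ent_pt, ent_pt, ent_pt, Complex.mul_conj, Complex.ofReal_re, Complex.normSq_eq_norm_sq]

/-- the entry as a real linear map -/
private noncomputable def entL (i j : Fin (3 + 1)) : Op 3 →L[ℝ] ℂ :=
  ((innerSL ℂ (b i)).comp (ContinuousLinearMap.apply ℂ (E 3) (b j))).restrictScalars ℝ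

theorem continuous_ent (i j : Fin (3 + 1)) : Continuous fun P : Op 3 => ent b P i j :=
  (entL b i j).continuous

theorem contDiff_ent (i j : Fin (3 + 1)) : ContDiff ℝ 1 fun P : Op 3 => ent b P i j :=
  (entL b i j).contDiff

theorem continuous_prj : Continuous (prj b) :=
  ((continuous_ent b 0 2).mul (continuous_ent b 1 3)).prodMk
    (Complex.continuous_re.comp (continuous_ent b 0 0))

theorem contDiff_slI (P : Op 3) : ContDiff ℝ 1 (slI b P) :=
  (Complex.imCLM.contDiff.comp ((contDiff_ent b 0 1).mul contDiff_const)).prodMk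
    (Complex.imCLM.contDiff.comp ((contDiff_ent b 2 3).mul contDiff_const))

theorem contDiff_slP (P : Op 3) : ContDiff ℝ 1 (slP b P) :=
  (contDiff_ent b 0 2).prodMk
    (Complex.imCLM.contDiff.comp ((contDiff_ent b 2 3).mul contDiff_const))

theorem ent_tor (α β : ℝ) (P : Op 3) (i j : Fin (3 + 1)) :
    ent b (tor b α β P) i j =
      Complex.exp (((wt α β i - wt α β j : ℝ) : ℂ) * Complex.I) * ent b P i j := by
  show inner ℂ (b i) (rot b (wt α β) (P (rot b (-wt α β) (b j)))) = _ * inner ℂ (b i) (P (b j))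
  rw [coord_rot, rot_basis, map_smul, inner_smul_right, ← mul_assoc, ← Complex.exp_add]
  congr 2
  rw [Pi.neg_apply, Complex.ofReal_neg, Complex.ofReal_sub]
  ring

theorem prj_tor (α β : ℝ) (P : Op 3) : prj b (tor b α β P) = prj b P := by
  rw [prj, prj, ent_tor, ent_tor, ent_tor, sub_self, Complex.ofReal_zero, zero_mul,
    Complex.exp_zero, one_mul]
  refine Prod.ext ?_ rfl
  show Complex.exp _ * ent b P 0 2 * (Complex.exp _ * ent b P 1 3) = ent b P 0 2 * ent b P 1 3
  have h : Complex.exp (((wt α β 0 - wt α β 2 : ℝ) : ℂ) * Complex.I) *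
      Complex.exp (((wt α β 1 - wt α β 3 : ℝ) : ℂ) * Complex.I) = 1 := by
    rw [← Complex.exp_add, ← add_mul, ← Complex.ofReal_add]
    have : wt α β 0 - wt α β 2 + (wt α β 1 - wt α β 3) = 0 := by
      show α - β + (-α - -β) = 0
      ring
    rw [this, Complex.ofReal_zero, zero_mul, Complex.exp_zero]
  calc Complex.exp (((wt α β 0 - wt α β 2 : ℝ) : ℂ) * Complex.I) * ent b P 0 2 *
        (Complex.exp (((wt α β 1 - wt α β 3 : ℝ) : ℂ) * Complex.I) * ent b P 1 3)
      = (Complex.exp (((wt α β 0 - wt α β 2 : ℝ) : ℂ) * Complex.I) *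
        Complex.exp (((wt α β 1 - wt α β 3 : ℝ) : ℂ) * Complex.I)) *
        (ent b P 0 2 * ent b P 1 3) := by ring
    _ = ent b P 0 2 * ent b P 1 3 := by rw [h, one_mul]

private theorem wt_zero : wt 0 0 = 0 := by
  funext i
  fin_cases i <;> simp [wt]

private theorem wt_add (α β α' β' : ℝ) : wt (α + α') (β + β') = wt α β + wt α' β' := by
  funext i
  fin_cases i <;> simp [wt] <;> ring

theorem tor_zero (P : Op 3) : tor b 0 0 P = P := by
  rw [tor, wt_zero, act_zero]

theorem tor_add (α β α' β' : ℝ) (P : Op 3) :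
    tor b (α + α') (β + β') P = tor b α β (tor b α' β' P) := by
  rw [tor, tor, tor, wt_add, act_add]

private theorem cont2 (w1 w2 : Fin (3 + 1) → ℝ) : Continuous fun q : ℝ × ℝ × Op 3 =>
    act b (q.1 • w1) (act b (q.2.1 • w2) q.2.2) := by
  have h1 : Continuous fun q : ℝ × ℝ × Op 3 => act b (q.2.1 • w2) q.2.2 := by
    have h0 := continuous_act b w2
    exact h0.comp continuous_snd
  have h2 : Continuous fun q : ℝ × ℝ × Op 3 => ((q.1, act b (q.2.1 • w2) q.2.2) : ℝ × Op 3) :=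
    continuous_fst.prodMk h1
  have h3 := (continuous_act b w1).comp h2
  exact h3

private theorem wt_eq (α β : ℝ) : wt α β =
    α • (![1, -1, 0, 0] : Fin (3 + 1) → ℝ) + β • (![0, 0, 1, -1] : Fin (3 + 1) → ℝ) := by
  funext i
  fin_cases i <;> simp [wt]

theorem continuous_tor : Continuous fun q : ℝ × ℝ × Op 3 => tor b q.1 q.2.1 q.2.2 := by
  have h : (fun q : ℝ × ℝ × Op 3 => tor b q.1 q.2.1 q.2.2) = fun q : ℝ × ℝ × Op 3 =>
      act b (q.1 • (![1, -1, 0, 0] : Fin (3 + 1) → ℝ))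
        (act b (q.2.1 • (![0, 0, 1, -1] : Fin (3 + 1) → ℝ)) q.2.2) := by
    funext q
    rw [← act_add, tor, wt_eq]
  rw [h]
  exact cont2 b _ _

theorem tor_pt (α β : ℝ) (z : E 3) : tor b α β (pt z) = pt (rot b (wt α β) z) :=
  act_pt b (wt α β) z

theorem sum_sq {z : E 3} (hz : ‖z‖ = 1) :
    ‖inner ℂ (b 0) z‖ ^ 2 + ‖inner ℂ (b 1) z‖ ^ 2 + ‖inner ℂ (b 2) z‖ ^ 2 +
      ‖inner ℂ (b 3) z‖ ^ 2 = 1 := by
  have h := norm_sq_sum b z
  rw [Fin.sum_univ_four, hz, one_pow] at h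
  exact h

theorem pt_eq_of_coord {z z' : E 3} {c : ℂ} (hc : ‖c‖ = 1)
    (h : ∀ i, inner ℂ (b i) z' = c * inner ℂ (b i) z) : pt z' = pt z := by
  have h1 : z' = c • z := ext_coord b fun k => by rw [h k, inner_smul_right]
  rw [h1, pt_smul hc]

theorem eq_of_ent {P Q : Op 3} (h : ∀ i j, ent b P i j = ent b Q i j) : P = Q := by
  apply ContinuousLinearMap.coe_injective
  refine b.toBasis.ext fun j => ?_
  rw [b.coe_toBasis]
  exact ext_coord b fun i => h i j

theorem exists_vec (f : Fin (3 + 1) → ℂ) :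
    ∃ z : E 3, (∀ i, inner ℂ (b i) z = f i) ∧ ‖z‖ ^ 2 = ∑ i, ‖f i‖ ^ 2 := by
  have h : ∀ i, inner ℂ (b i) (b.repr.symm (WithLp.toLp 2 f)) = f i := by
    intro i
    rw [← b.repr_apply_apply, LinearIsometryEquiv.apply_symm_apply]
  refine ⟨b.repr.symm (WithLp.toLp 2 f), h, ?_⟩
  rw [← norm_sq_sum b]
  exact Finset.sum_congr rfl fun i _ => by rw [h i]

end Pool.Agent.H11.ST
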