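import Pool.Agent.H11.ST.Ent
import Pool.Agent.H66.SyL.Alg

/-! Permuting the basis. -/

set_option autoImplicit false

open scoped ContDiff Topology

namespace Pool.Agent.H11.ST

open Pool.Agent.H66.SyL

theorem rot_reindex (b : Bas) (σ : Fin (3 + 1) ≃ Fin (3 + 1)) (θ : Fin (3 + 1) → ℝ) :
    rot (b.reindex σ) θ = rot b (fun k => θ (σ k)) := by
  unfold rot
  rw [← Equiv.sum_comp σ]
  refine Finset.sum_congr rfl fun k _ => ?_
  rw [OrthonormalBasis.reindex_apply, Equiv.symm_apply_apply]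

theorem act_reindex (b : Bas) (σ : Fin (3 + 1) ≃ Fin (3 + 1)) (θ : Fin (3 + 1) → ℝ) (P : Op 3) :
    act (b.reindex σ) θ P = act b (fun k => θ (σ k)) P := by
  unfold act
  rw [rot_reindex, rot_reindex]
  rfl

theorem sym_reindex (b : Bas) (σ : Fin (3 + 1) ≃ Fin (3 + 1)) {L : Set (Op 3)}
    {w : Fin (3 + 1) → ℝ} : Sym (b.reindex σ) L w ↔ Sym b L (fun k => w (σ k)) := by
  unfold Pool.Agent.H66.SyL.Sym
  refine forall_congr' fun t => forall_congr' fun P => ?_
  rw [act_reindex]
  rfl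

/-- a permutation taking four given distinct indices to 0, 1, 2, 3 -/
theorem exists_perm {i j k l : Fin (3 + 1)} (h : [i, j, k, l].Nodup) :
    ∃ σ : Fin (3 + 1) ≃ Fin (3 + 1), σ i = 0 ∧ σ j = 1 ∧ σ k = 2 ∧ σ l = 3 := by
  have hij : i ≠ j := by rintro rfl; simp at h
  have hik : i ≠ k := by rintro rfl; simp at h
  have hil : i ≠ l := by rintro rfl; simp at h
  have hjk : j ≠ k := by rintro rfl; simp at h
  have hjl : j ≠ l := by rintro rfl; simp at h
  have hkl : k ≠ l := by rintro rfl; simp at h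
  let f : Fin (3 + 1) → Fin (3 + 1) := fun x => if x = i then 0 else if x = j then 1 else
    if x = k then 2 else 3
  have f0 : f i = 0 := by simp [f]
  have f1 : f j = 1 := by simp [f, hij.symm]
  have f2 : f k = 2 := by simp [f, hik.symm, hjk.symm]
  have f3 : f l = 3 := by simp [f, hil.symm, hjl.symm, hkl.symm]
  have hs : Function.Surjective f := by
    intro y
    fin_cases y
    · exact ⟨i, f0⟩
    · exact ⟨j, f1⟩
    · exact ⟨k, f2⟩
    · exact ⟨l, f3⟩
  exact ⟨Equiv.ofBijective f ⟨Finite.injective_iff_surjective.2 hs, hs⟩, f0, f1, f2, f3⟩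

end Pool.Agent.H11.ST
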