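import Pool.Agent.H66.SyL.Lg

/-! Level sets of a submersion on L near a point. -/

set_option autoImplicit false

open scoped ContDiff Topology

namespace Pool.Agent.H11.ST

open Pool.Agent.H66.SyL

/-- a local homeomorphism whose first component is F -/
private theorem exists_straight {F : R 3 → ℝ × ℝ} {x0 : R 3} (hF : ContDiffAt ℝ 1 F x0)
    (hs : Function.Surjective (fderiv ℝ F x0)) (hF0 : F x0 = 0) :
    ∃ Φ : OpenPartialHomeomorph (R 3) ((ℝ × ℝ) × ℝ),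
      x0 ∈ Φ.source ∧ Φ x0 = 0 ∧ ∀ x, (Φ x).1 = F x := by
  have hstr : HasStrictFDerivAt F (fderiv ℝ F x0) x0 := hF.hasStrictFDerivAt one_ne_zero
  have hr : (fderiv ℝ F x0).range = ⊤ := LinearMap.range_eq_top.2 hs
  have hfr : Module.finrank ℝ (fderiv ℝ F x0).ker = Module.finrank ℝ ℝ := by
    have h1 := LinearMap.finrank_range_add_finrank_ker (fderiv ℝ F x0 : R 3 →ₗ[ℝ] ℝ × ℝ)
    have h2 : Module.finrank ℝ (LinearMap.range (fderiv ℝ F x0 : R 3 →ₗ[ℝ] ℝ × ℝ)) = 2 := by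
      have h3 : LinearMap.range (fderiv ℝ F x0 : R 3 →ₗ[ℝ] ℝ × ℝ) = ⊤ := hr
      rw [h3, finrank_top]
      simp
    have h4 : Module.finrank ℝ (R 3) = 3 := by simp
    rw [h2, h4] at h1
    have h5 : Module.finrank ℝ ℝ = 1 := by simp
    rw [h5]
    have h6 : Module.finrank ℝ (LinearMap.ker (fderiv ℝ F x0 : R 3 →ₗ[ℝ] ℝ × ℝ)) = 1 := by
      omega
    exact h6
  let e : (fderiv ℝ F x0).ker ≃L[ℝ] ℝ := ContinuousLinearEquiv.ofFinrankEq hfr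
  let Φ0 := hstr.implicitToOpenPartialHomeomorph F (fderiv ℝ F x0) hr
  let h : ((ℝ × ℝ) × (fderiv ℝ F x0).ker) ≃ₜ ((ℝ × ℝ) × ℝ) :=
    (Homeomorph.refl (ℝ × ℝ)).prodCongr e.toHomeomorph
  refine ⟨Φ0.transHomeomorph h, ?_, ?_, ?_⟩
  · exact hstr.mem_implicitToOpenPartialHomeomorph_source hr
  · have h1 : Φ0 x0 = (F x0, 0) := hstr.implicitToOpenPartialHomeomorph_self hr
    have h2 : (Φ0.transHomeomorph h) x0 = h (Φ0 x0) := rfl
    rw [h2, h1, hF0]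
    have h3 : h ((0 : ℝ × ℝ), (0 : (fderiv ℝ F x0).ker)) = ((0 : ℝ × ℝ), e 0) := rfl
    rw [h3, map_zero]
    rfl
  · intro x
    have h2 : (Φ0.transHomeomorph h) x = h (Φ0 x) := rfl
    have h4 : (Φ0 x).1 = F x := hstr.implicitToOpenPartialHomeomorph_fst hr x
    rw [h2]
    exact h4

/-- Proof: implicit function theorem for F = f o p at x0 = r P (strict derivative, surjective; the kernel
is one dimensional): a local homeomorphism Phi = (F, m) from R^3 to (R x R) x R. Take a box B around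
Phi x0 = (0, m x0), m x0 = 0; A = Phi^(-1) B contained in the ball and in p^(-1) W;
O = C.U cap r^(-1) A cap W, σ t = p (Phi^(-1) (0, t)), κ = m o r. -/
theorem imp_i {L : Set (Op 3)} (C : LChart L) {P : Op 3} (hP : P ∈ L ∩ C.U) (f : Op 3 → ℝ × ℝ)
    (hf : ContDiff ℝ 1 f) (hf0 : f P = 0)
    (hs : Function.Surjective (fderiv ℝ (fun x => f (C.p x)) (C.r P)))
    {W : Set (Op 3)} (hW : W ∈ 𝓝 P) :
    ∃ (ε : ℝ) (σ : ℝ → Op 3) (κ : Op 3 → ℝ) (O : Set (Op 3)), 0 < ε ∧ IsOpen O ∧ P ∈ O ∧ O ⊆ W ∧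
      ContinuousOn σ (Set.Ioo (-ε) ε) ∧ ContinuousOn κ (L ∩ O) ∧ σ 0 = P ∧
      (∀ t ∈ Set.Ioo (-ε) ε, σ t ∈ L ∩ O ∧ f (σ t) = 0 ∧ κ (σ t) = t) ∧
      (∀ Q ∈ L ∩ O, f Q = 0 → κ Q ∈ Set.Ioo (-ε) ε ∧ σ (κ Q) = Q) := by
  set x0 : R 3 := C.r P with hx0
  have hb : x0 ∈ Metric.ball C.x0 C.δ := C.r_mem P hP
  have hpx0 : C.p x0 = P := C.p_r P hP
  have hF : ContDiffAt ℝ 1 (fun x => f (C.p x)) x0 := by
    have h1 : ContDiffAt ℝ 1 C.p x0 := C.smooth_p.contDiffAt (Metric.isOpen_ball.mem_nhds hb)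
    exact hf.contDiffAt.comp x0 h1
  obtain ⟨Φ, hΦ0, hΦx0, hΦF⟩ := exists_straight hF hs (by
    show f (C.p x0) = 0
    rw [hpx0, hf0])
  -- the open set A0
  set A0 : Set (R 3) := Φ.source ∩ (Metric.ball C.x0 C.δ ∩ C.p ⁻¹' (interior W)) with hA0
  have hA0o : IsOpen A0 :=
    Φ.open_source.inter
      (C.smooth_p.continuousOn.isOpen_inter_preimage Metric.isOpen_ball isOpen_interior)
  have hx0A0 : x0 ∈ A0 := by
    refine ⟨hΦ0, hb, ?_⟩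
    show C.p x0 ∈ interior W
    rw [hpx0]
    exact mem_interior_iff_mem_nhds.2 hW
  have himg : IsOpen (Φ '' A0) := Φ.isOpen_image_of_subset_source hA0o Set.inter_subset_left
  have h0img : (0 : (ℝ × ℝ) × ℝ) ∈ Φ '' A0 := ⟨x0, hx0A0, hΦx0⟩
  obtain ⟨ε, hε, hball⟩ := Metric.isOpen_iff.1 himg 0 h0img
  -- the box
  set A : Set (R 3) := A0 ∩ Φ ⁻¹' (Metric.ball 0 ε) with hA
  have hAo : IsOpen A := by
    have h1 : IsOpen (Φ.source ∩ Φ ⁻¹' (Metric.ball 0 ε)) :=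
      Φ.isOpen_inter_preimage Metric.isOpen_ball
    have h2 : A = A0 ∩ (Φ.source ∩ Φ ⁻¹' (Metric.ball 0 ε)) := by
      ext x
      constructor
      · rintro ⟨h3, h4⟩
        exact ⟨h3, h3.1, h4⟩
      · rintro ⟨h3, -, h4⟩
        exact ⟨h3, h4⟩
    rw [h2]
    exact hA0o.inter h1
  have hx0A : x0 ∈ A := by
    refine ⟨hx0A0, ?_⟩
    show Φ x0 ∈ Metric.ball 0 ε
    rw [hΦx0]
    exact Metric.mem_ball_self hε
  have hmemball : ∀ t : ℝ, t ∈ Set.Ioo (-ε) ε → ((0 : ℝ × ℝ), t) ∈ Metric.ball (0 : (ℝ × ℝ) × ℝ) ε := by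
    intro t ht
    rw [Metric.mem_ball, dist_zero_right, Prod.norm_def]
    simp only [norm_zero]
    rw [max_lt_iff]
    exact ⟨hε, by rw [Real.norm_eq_abs, abs_lt]; exact ht⟩
  have hsymm : ∀ t : ℝ, t ∈ Set.Ioo (-ε) ε →
      Φ.symm ((0 : ℝ × ℝ), t) ∈ A ∧ Φ (Φ.symm ((0 : ℝ × ℝ), t)) = ((0 : ℝ × ℝ), t) := by
    intro t ht
    obtain ⟨x, hx, hxt⟩ := hball (hmemball t ht)
    have h1 : Φ.symm ((0 : ℝ × ℝ), t) = x := by
      rw [← hxt]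
      exact Φ.left_inv hx.1
    rw [h1]
    exact ⟨⟨hx, by show Φ x ∈ Metric.ball 0 ε; rw [hxt]; exact hmemball t ht⟩, hxt⟩
  set O : Set (Op 3) := (C.U ∩ C.r ⁻¹' A) ∩ interior W with hO
  have hOo : IsOpen O :=
    (C.smooth_r.continuousOn.isOpen_inter_preimage C.openU hAo).inter isOpen_interior
  refine ⟨ε, fun t => C.p (Φ.symm ((0 : ℝ × ℝ), t)), fun Q => (Φ (C.r Q)).2, O, hε, hOo,
    ⟨⟨hP.2, hx0A⟩, mem_interior_iff_mem_nhds.2 hW⟩,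
    fun Q hQ => interior_subset hQ.2, ?_, ?_, ?_, ?_, ?_⟩
  · -- continuity of sigma
    have h1 : ContinuousOn (fun t : ℝ => Φ.symm ((0 : ℝ × ℝ), t)) (Set.Ioo (-ε) ε) := by
      refine Φ.continuousOn_symm.comp (f := fun t : ℝ => ((0 : ℝ × ℝ), t)) (by fun_prop) ?_
      intro t ht
      obtain ⟨x, hx, hxt⟩ := hball (hmemball t ht)
      show ((0 : ℝ × ℝ), t) ∈ Φ.target
      rw [← hxt]
      exact Φ.map_source hx.1
    exact C.smooth_p.continuousOn.comp h1 fun t ht => (hsymm t ht).1.1.2.1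
  · -- continuity of kappa
    have h1 : ContinuousOn C.r (L ∩ O) := C.smooth_r.continuousOn.mono fun Q hQ => hQ.2.1.1
    have h2 : ContinuousOn (fun Q => Φ (C.r Q)) (L ∩ O) :=
      Φ.continuousOn.comp h1 fun Q hQ => hQ.2.1.2.1.1
    exact continuous_snd.comp_continuousOn h2
  · show C.p (Φ.symm ((0 : ℝ × ℝ), (0 : ℝ))) = P
    have h1 : Φ.symm ((0 : ℝ × ℝ), (0 : ℝ)) = x0 := by
      have h2 : ((0 : ℝ × ℝ), (0 : ℝ)) = Φ x0 := by rw [hΦx0]; rfl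
      rw [h2]
      exact Φ.left_inv hΦ0
    rw [h1, hpx0]
  · intro t ht
    obtain ⟨h1, h2⟩ := hsymm t ht
    have h3 := C.p_mem _ h1.1.2.1
    have h4 : C.r (C.p (Φ.symm ((0 : ℝ × ℝ), t))) = Φ.symm ((0 : ℝ × ℝ), t) :=
      C.r_p _ h1.1.2.1
    refine ⟨⟨h3.1, ⟨h3.2, ?_⟩, h1.1.2.2⟩, ?_, ?_⟩
    · show C.r (C.p (Φ.symm ((0 : ℝ × ℝ), t))) ∈ A
      rw [h4]
      exact h1
    · have h5 := hΦF (Φ.symm ((0 : ℝ × ℝ), t))
      rw [h2] at h5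
      exact h5.symm
    · show (Φ (C.r (C.p (Φ.symm ((0 : ℝ × ℝ), t))))).2 = t
      rw [h4, h2]
  · intro Q hQ hfQ
    have hA' : C.r Q ∈ A := hQ.2.1.2
    have hpr : C.p (C.r Q) = Q := C.p_r Q ⟨hQ.1, hQ.2.1.1⟩
    have h1 : (Φ (C.r Q)).1 = 0 := by
      rw [hΦF]
      show f (C.p (C.r Q)) = 0
      rw [hpr, hfQ]
    have h2 : Φ (C.r Q) = ((0 : ℝ × ℝ), (Φ (C.r Q)).2) := Prod.ext h1 rfl
    constructor
    · show (Φ (C.r Q)).2 ∈ Set.Ioo (-ε) ε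
      have h3 : Φ (C.r Q) ∈ Metric.ball (0 : (ℝ × ℝ) × ℝ) ε := hA'.2
      rw [Metric.mem_ball, dist_zero_right, Prod.norm_def, max_lt_iff] at h3
      have h4 := h3.2
      rw [Real.norm_eq_abs, abs_lt] at h4
      exact h4
    · show C.p (Φ.symm ((0 : ℝ × ℝ), (Φ (C.r Q)).2)) = Q
      rw [← h2, Φ.left_inv hA'.1.1, hpr]

end Pool.Agent.H11.ST
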