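import Pool.Agent.H11.ST.Defs

/-! A finite atomless measure with full support. -/

set_option autoImplicit false

open scoped Topology NNReal
open Topology MeasureTheory

namespace Pool.Agent.H11.ST

private theorem meas_real : ∃ ν : Measure ℝ, IsFiniteMeasure ν ∧ (∀ x, ν {x} = 0) ∧
    ∀ W : Set ℝ, IsOpen W → W.Nonempty → ν W ≠ 0 := by
  refine ⟨(volume : Measure ℝ).toFinite, inferInstance, fun x => ?_, fun W hW hn h => ?_⟩
  · exact toFinite_absolutelyContinuous _ Real.volume_singleton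
  · have h1 : (volume : Measure ℝ) W = 0 := absolutelyContinuous_toFinite _ h
    exact (hW.measure_ne_zero volume hn) h1

private theorem meas_nn : ∃ ν : Measure ℝ≥0, IsFiniteMeasure ν ∧ (∀ x, ν {x} = 0) ∧
    ∀ W : Set ℝ≥0, IsOpen W → W.Nonempty → ν W ≠ 0 := by
  obtain ⟨ν, h1, h2, h3⟩ := meas_real
  have hc : Continuous (fun x : ℝ => Real.nnabs x) :=
    continuous_induced_rng.2 (continuous_abs.congr fun x => by simp)
  refine ⟨ν.map (fun x : ℝ => Real.nnabs x), inferInstance, fun x => ?_, fun W hW hn => ?_⟩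
  · rw [Measure.map_apply hc.measurable (measurableSet_singleton x)]
    have h4 : (fun x : ℝ => Real.nnabs x) ⁻¹' {x} ⊆ {(x : ℝ)} ∪ {-(x : ℝ)} := by
      intro y hy
      have h5 : Real.nnabs y = x := hy
      have h6 : |y| = (x : ℝ) := by rw [← h5]; simp
      rcases abs_choice y with h7 | h7
      · left
        rw [Set.mem_singleton_iff, ← h6, h7]
      · right
        rw [Set.mem_singleton_iff, ← h6, h7, neg_neg]
    exact measure_mono_null h4 (measure_union_null (h2 _) (h2 _))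
  · rw [Measure.map_apply hc.measurable hW.measurableSet]
    refine h3 _ (hW.preimage hc) ?_
    obtain ⟨w, hw⟩ := hn
    exact ⟨(w : ℝ), by simpa using hw⟩

private theorem push {X Y : Type*} [TopologicalSpace X] [T2Space X]
    [MeasurableSpace X] [BorelSpace X] [TopologicalSpace Y] [MeasurableSpace Y] [BorelSpace Y]
    (ν : Measure Y) (h1 : IsFiniteMeasure ν) (h2 : ∀ x, ν {x} = 0)
    (h3 : ∀ W : Set Y, IsOpen W → W.Nonempty → ν W ≠ 0) (c : Y → X) (hc : IsOpenEmbedding c) :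
    IsFiniteMeasure (ν.map c) ∧ (∀ x, (ν.map c) {x} = 0) ∧
      ∀ W : Set X, IsOpen W → (W ∩ Set.range c).Nonempty → (ν.map c) W ≠ 0 := by
  have hm : Measurable c := hc.continuous.measurable
  refine ⟨inferInstance, fun x => ?_, fun W hW hn => ?_⟩
  · rw [Measure.map_apply hm (measurableSet_singleton x)]
    by_cases hx : ∃ y, c y = x
    · obtain ⟨y, hy⟩ := hx
      refine measure_mono_null (fun z hz => ?_) (h2 y)
      have hz' : c z = x := hz
      exact hc.injective (hz'.trans hy.symm)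
    · have h4 : c ⁻¹' {x} = ∅ := by
        ext z
        simp only [Set.mem_preimage, Set.mem_singleton_iff, Set.mem_empty_iff_false, iff_false]
        exact fun hz => hx ⟨z, hz⟩
      rw [h4, measure_empty]
  · rw [Measure.map_apply hm hW.measurableSet]
    refine h3 _ (hW.preimage hc.continuous) ?_
    obtain ⟨w, hw, y, hy⟩ := hn
    exact ⟨y, by rw [Set.mem_preimage, hy]; exact hw⟩

/-- Proof: finitely many sets c '' (-1, 1) and e '' [0, 1) cover X; the sum of the images of the Lebesgue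
measures on (-1, 1) under c and on (0, 1) under e o Real.toNNReal. -/
theorem exists_meas {X : Type*} [TopologicalSpace X] [T2Space X] [CompactSpace X]
    [MeasurableSpace X] [BorelSpace X] (h : ∀ x : X, ArcAt x ∨ EndAt x) :
    ∃ μ : Measure X, IsFiniteMeasure μ ∧ NullSingletonClass μ ∧ μ.IsOpenPosMeasure := by
  classical
  obtain ⟨ν₁, a1, a2, a3⟩ := meas_real
  obtain ⟨ν₂, b1, b2, b3⟩ := meas_nn
  have hloc : ∀ x : X, ∃ (V : Set X) (μ : Measure X), IsOpen V ∧ x ∈ V ∧ IsFiniteMeasure μ ∧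
      (∀ y, μ {y} = 0) ∧ ∀ W : Set X, IsOpen W → (W ∩ V).Nonempty → μ W ≠ 0 := by
    intro x
    rcases h x with hx | hx
    · obtain ⟨c, hc, h0, -⟩ := hx Set.univ Filter.univ_mem
      obtain ⟨p1, p2, p3⟩ := push ν₁ a1 a2 a3 c hc
      exact ⟨Set.range c, ν₁.map c, hc.isOpen_range, ⟨0, h0⟩, p1, p2, p3⟩
    · obtain ⟨c, hc, h0, -⟩ := hx Set.univ Filter.univ_mem
      obtain ⟨p1, p2, p3⟩ := push ν₂ b1 b2 b3 c hc
      exact ⟨Set.range c, ν₂.map c, hc.isOpen_range, ⟨0, h0⟩, p1, p2, p3⟩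
  choose V μ hV hx hfin hat hpos using hloc
  obtain ⟨t, ht⟩ := isCompact_univ.elim_finite_subcover V hV
    (fun x _ => Set.mem_iUnion.2 ⟨x, hx x⟩)
  refine ⟨∑ x ∈ t, μ x, ?_, ?_, ?_⟩
  · refine ⟨?_⟩
    rw [Measure.finsetSum_apply]
    exact ENNReal.sum_lt_top.2 fun x _ => (hfin x).measure_univ_lt_top
  · refine ⟨fun y => ?_⟩
    rw [Measure.finsetSum_apply]
    exact Finset.sum_eq_zero fun x _ => hat x y
  · refine ⟨fun W hW hn h0 => ?_⟩
    rw [Measure.finsetSum_apply] at h0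
    obtain ⟨y, hy⟩ := hn
    obtain ⟨x, hxt, hxy⟩ := Set.mem_iUnion₂.1 (ht (Set.mem_univ y))
    exact hpos x W hW ⟨y, hy, hxy⟩ (Finset.sum_eq_zero_iff.1 h0 x hxt)

end Pool.Agent.H11.ST
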