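import Pool.Agent.H11.ST.GmA
import Pool.Agent.H11.ST.MeasA

/-! The measure of the side of p. -/

set_option autoImplicit false

open scoped Topology NNReal
open Topology MeasureTheory

namespace Pool.Agent.H11.ST

private theorem open_of_strictMono {f : ℝ → ℝ} (hf : Continuous f) (hm : StrictMono f) (t : ℝ) (V : Set ℝ)
    (hV : V ∈ 𝓝 t) : f '' V ∈ 𝓝 (f t) := by
  obtain ⟨ε, hε, hV'⟩ := Metric.mem_nhds_iff.1 hV
  have h1 : Set.Ioo (f (t - ε / 2)) (f (t + ε / 2)) ⊆ f '' V := by
    refine (intermediate_value_Ioo (by linarith) hf.continuousOn).trans (Set.image_mono ?_)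
    intro u hu
    apply hV'
    rw [Metric.mem_ball, Real.dist_eq, abs_lt]
    constructor <;> linarith [hu.1, hu.2]
  exact Filter.mem_of_superset (Ioo_mem_nhds (hm (by linarith)) (hm (by linarith))) h1

/-- Proof: μ from exists_meas (borel). g p = 0, g q = μ univ, g x = μ (side of p at x) (exists_side). Near an
interior point x take an arc around x avoiding p and q: side_meas and arc_meas (c' t is interior, too).
Near p: g (e s) = μ (e [0, s)) (side_start, side_unique, end_meas). Near q (arc e avoiding p):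
g (e s) = μ univ - μ (e [0, s]) (side_end); points have measure 0. Sides are unique: side_unique (each point
other than p, q is an interior point of an arc, ArcAt). -/
theorem exists_gm {X : Type*} [TopologicalSpace X] [T2Space X] [CompactSpace X] [ConnectedSpace X]
    {p q : X} (hpq : p ≠ q) (hI : ∀ x, x ≠ p → x ≠ q → ArcAt x) (hp : EndAt p) (hq : EndAt q)
    (hcut : ∀ x, x ≠ p → x ≠ q → ¬ IsPreconnected ({x}ᶜ : Set X)) :
    ∃ g : X → ℝ, Continuous g ∧ g p = 0 ∧ (∀ x, x ≠ p → 0 < g x) ∧ (∀ x, x ≠ q → g x < g q) ∧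
      (∀ x, ∃ U ∈ 𝓝 x, Set.InjOn g U) ∧
      (∀ x, x ≠ p → x ≠ q → ∀ U ∈ 𝓝 x, g '' U ∈ 𝓝 (g x)) := by
  classical
  let _ : MeasurableSpace X := borel X
  have _ : BorelSpace X := ⟨rfl⟩
  obtain ⟨μ, hfin, hnull, hpos⟩ := exists_meas (X := X) (fun x => by
    by_cases h1 : x = p
    · right
      rw [h1]
      exact hp
    · by_cases h2 : x = q
      · right
        rw [h2]
        exact hq
      · exact Or.inl (hI x h1 h2))
  have hside : ∀ x : X, ∃ A : Set X, x ≠ p → x ≠ q → IsSide p x A := by
    intro x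
    by_cases h1 : x = p
    · exact ⟨∅, fun h => absurd h1 h⟩
    · by_cases h2 : x = q
      · exact ⟨∅, fun _ h => absurd h2 h⟩
      · obtain ⟨A, hA⟩ := exists_side h1 (hcut x h1 h2)
        exact ⟨A, fun _ _ => hA⟩
  choose A hA using hside
  obtain ⟨g, hg⟩ : ∃ g : X → ℝ, g = fun x => if x = p then 0 else if x = q then μ.real Set.univ else μ.real (A x) :=
    ⟨_, rfl⟩
  have hgp : g p = 0 := by
    rw [hg]
    simp
  have hgq : g q = μ.real Set.univ := by
    rw [hg]
    dsimp only
    rw [if_neg (Ne.symm hpq), if_pos rfl]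
  have hgx : ∀ x, x ≠ p → x ≠ q → g x = μ.real (A x) := by
    intro x h1 h2
    rw [hg]
    dsimp only
    rw [if_neg h1, if_neg h2]
  have hgs : ∀ x, x ≠ p → x ≠ q → ∀ B : Set X, IsSide p x B → g x = μ.real B := by
    intro x h1 h2 B hB
    obtain ⟨c, hc, hc0, -⟩ := hI x h1 h2 Set.univ Filter.univ_mem
    rw [hgx x h1 h2, side_unique (hA x h1 h2) hB hc hc0]
  have hposr : ∀ U : Set X, IsOpen U → U.Nonempty → 0 < μ.real U := by
    intro U hU hn
    exact ENNReal.toReal_pos (hU.measure_pos μ hn).ne' (measure_ne_top μ U)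
  -- interior points
  have hint : ∀ x, x ≠ p → x ≠ q → ∃ c : ℝ → X, IsOpenEmbedding c ∧ c 0 = x ∧ Continuous (fun t => g (c t)) ∧
      StrictMono (fun t => g (c t)) := by
    intro x h1 h2
    obtain ⟨c, hc, hc0, hcr⟩ := hI x h1 h2 ({p}ᶜ ∩ {q}ᶜ)
      (Filter.inter_mem (isOpen_compl_singleton.mem_nhds h1) (isOpen_compl_singleton.mem_nhds h2))
    have hcp : p ∉ Set.range c := fun h => (hcr h).1 rfl
    obtain ⟨c', hc', hc0', hcr', hm⟩ := side_meas μ hc hcp (by rw [hc0]; exact hA x h1 h2)
    obtain ⟨m1, m2⟩ := arc_meas μ hc'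
    have hne : ∀ t, c' t ≠ p ∧ c' t ≠ q := by
      intro t
      have h3 : c' t ∈ Set.range c := by
        rw [← hcr']
        exact ⟨t, rfl⟩
      exact ⟨fun h => (hcr h3).1 h, fun h => (hcr h3).2 h⟩
    have hgc : (fun t => g (c' t)) = fun t => μ.real (A x) + μ.real (c' '' Set.Iio t) - μ.real (c' '' Set.Iio 0) := by
      funext t
      rw [hgx _ (hne t).1 (hne t).2]
      exact hm t _ (hA _ (hne t).1 (hne t).2)
    refine ⟨c', hc', by rw [hc0', hc0], ?_, ?_⟩
    · rw [hgc]
      exact (continuous_const.add m1).sub continuous_const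
    · rw [hgc]
      intro s t hst
      have := m2 hst
      dsimp only at this ⊢
      linarith
  -- the point p
  have hstp : ∃ e : ℝ≥0 → X, IsOpenEmbedding e ∧ e 0 = p ∧ Continuous (fun t => g (e t)) ∧
      StrictMono (fun t => g (e t)) := by
    obtain ⟨e, he, he0, her⟩ := hp {q}ᶜ (isOpen_compl_singleton.mem_nhds hpq)
    obtain ⟨m1, m2⟩ := end_meas μ he
    have hge : (fun t => g (e t)) = fun t => μ.real (e '' Set.Iio t) := by
      funext t
      rcases eq_or_lt_of_le (zero_le : (0 : ℝ≥0) ≤ t) with h | h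
      · rw [← h, he0, hgp]
        have h1 : (Set.Iio (0 : ℝ≥0)) = ∅ := by
          ext y
          simp
        rw [h1, Set.image_empty, measureReal_empty]
      · refine hgs _ ?_ (fun h1 => her ⟨t, rfl⟩ h1) _ (side_start he he0 h)
        intro h1
        rw [← he0] at h1
        exact h.ne' (he.injective h1)
    refine ⟨e, he, he0, ?_, ?_⟩
    · rw [hge]
      exact m1
    · rw [hge]
      exact m2
  -- the point q
  have hstq : ∃ e : ℝ≥0 → X, IsOpenEmbedding e ∧ e 0 = q ∧ Continuous (fun t => g (e t)) ∧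
      StrictAnti (fun t => g (e t)) := by
    obtain ⟨e, he, he0, her⟩ := hq {p}ᶜ (isOpen_compl_singleton.mem_nhds (Ne.symm hpq))
    obtain ⟨m1, m2⟩ := end_meas μ he
    have hpe : p ∉ Set.range e := fun h => her h rfl
    have hge : (fun t => g (e t)) = fun t => μ.real Set.univ - μ.real (e '' Set.Iio t) := by
      funext t
      rcases eq_or_lt_of_le (zero_le : (0 : ℝ≥0) ≤ t) with h | h
      · rw [← h, he0, hgq]
        have h1 : (Set.Iio (0 : ℝ≥0)) = ∅ := by
          ext y
          simp
        rw [h1, Set.image_empty, measureReal_empty, sub_zero]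
      · have h2 : e t ≠ q := by
          intro h1
          rw [← he0] at h1
          exact h.ne' (he.injective h1)
        rw [hgs _ (fun h1 => her ⟨t, rfl⟩ h1) h2 _ (side_end he hpe h)]
        have hmI : MeasurableSet (e '' Set.Iio t) := (he.isOpenMap _ isOpen_Iio).measurableSet
        have h3 : e '' Set.Iic t = e '' Set.Iio t ∪ {e t} := by
          rw [← Set.Iio_union_right, Set.image_union, Set.image_singleton]
        have h4 : MeasurableSet (e '' Set.Iic t) := by
          rw [h3]
          exact hmI.union (measurableSet_singleton _)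
        rw [measureReal_compl h4]
        congr 1
        rw [h3]
        have h5 : Disjoint (e '' Set.Iio t) {e t} := by
          rw [Set.disjoint_singleton_right]
          rintro ⟨u, hu, hut⟩
          exact (ne_of_lt hu) (he.injective hut)
        rw [measureReal_union h5 (measurableSet_singleton _), measureReal_def μ {e t}, measure_singleton,
          ENNReal.toReal_zero, add_zero]
    refine ⟨e, he, he0, ?_, ?_⟩
    · rw [hge]
      exact continuous_const.sub m1
    · rw [hge]
      intro s t hst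
      have := m2 hst
      dsimp only at this ⊢
      linarith
  have hgq0 : 0 < g q := by
    rw [hgq]
    exact hposr _ isOpen_univ ⟨p, trivial⟩
  refine ⟨g, ?_, hgp, ?_, ?_, ?_, ?_⟩
  · rw [continuous_iff_continuousAt]
    intro x
    by_cases h1 : x = p
    · obtain ⟨e, he, he0, h3, -⟩ := hstp
      rw [h1, ← he0]
      exact he.continuousAt_iff.1 h3.continuousAt
    · by_cases h2 : x = q
      · obtain ⟨e, he, he0, h3, -⟩ := hstq
        rw [h2, ← he0]
        exact he.continuousAt_iff.1 h3.continuousAt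
      · obtain ⟨c, hc, hc0, h3, -⟩ := hint x h1 h2
        rw [← hc0]
        exact hc.continuousAt_iff.1 h3.continuousAt
  · intro x h1
    by_cases h2 : x = q
    · rw [h2]
      exact hgq0
    · rw [hgx x h1 h2]
      have h3 := hA x h1 h2
      exact hposr _ h3.1 ⟨p, h3.2.2.1⟩
  · intro x h2
    by_cases h1 : x = p
    · rw [h1, hgp]
      exact hgq0
    · rw [hgx x h1 h2, hgq]
      have h3 := hA x h1 h2
      have h4 := hposr _ h3.2.1 h3.2.2.2.2
      have h5 : Disjoint (A x) ((A x ∪ {x})ᶜ) := by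
        rw [Set.disjoint_left]
        intro y hy hy2
        exact hy2 (Or.inl hy)
      have h6 := measureReal_union (μ := μ) h5 h3.2.1.measurableSet
      have h7 : μ.real (A x ∪ (A x ∪ {x})ᶜ) ≤ μ.real Set.univ := measureReal_mono (Set.subset_univ _)
      linarith
  · intro x
    by_cases h1 : x = p
    · obtain ⟨e, he, he0, -, h4⟩ := hstp
      refine ⟨Set.range e, he.isOpen_range.mem_nhds ⟨0, by rw [h1, he0]⟩, ?_⟩
      rintro _ ⟨s, rfl⟩ _ ⟨t, rfl⟩ h5
      rw [h4.injective h5]
    · by_cases h2 : x = q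
      · obtain ⟨e, he, he0, -, h4⟩ := hstq
        refine ⟨Set.range e, he.isOpen_range.mem_nhds ⟨0, by rw [h2, he0]⟩, ?_⟩
        rintro _ ⟨s, rfl⟩ _ ⟨t, rfl⟩ h5
        rw [h4.injective h5]
      · obtain ⟨c, hc, hc0, -, h4⟩ := hint x h1 h2
        refine ⟨Set.range c, hc.isOpen_range.mem_nhds ⟨0, hc0⟩, ?_⟩
        rintro _ ⟨s, rfl⟩ _ ⟨t, rfl⟩ h5
        rw [h4.injective h5]
  · intro x h1 h2 U hU
    obtain ⟨c, hc, hc0, h3, h4⟩ := hint x h1 h2
    have h5 : c ⁻¹' U ∈ 𝓝 (0 : ℝ) := by
      refine hc.continuous.continuousAt.preimage_mem_nhds ?_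
      rw [hc0]
      exact hU
    have h6 := open_of_strictMono h3 h4 0 _ h5
    rw [hc0] at h6
    refine Filter.mem_of_superset h6 ?_
    rintro _ ⟨t, ht, rfl⟩
    exact ⟨c t, ht, rfl⟩

end Pool.Agent.H11.ST
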