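import Pool.Agent.H11.ST.Defs

/-! A locally injective function with extrema at p and q only is a parametrisation. -/

set_option autoImplicit false

open scoped Topology NNReal
open Topology

namespace Pool.Agent.H11.ST

private theorem inj_of_gm {X : Type*} [TopologicalSpace X] [T2Space X] [CompactSpace X] [ConnectedSpace X]
    {p q : X} (g : X → ℝ) (hg : Continuous g) (hgp : g p = 0)
    (hpos : ∀ x, x ≠ p → 0 < g x) (hlt : ∀ x, x ≠ q → g x < g q)
    (hinj : ∀ x, ∃ U ∈ 𝓝 x, Set.InjOn g U)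
    (hop : ∀ x, x ≠ p → x ≠ q → ∀ U ∈ 𝓝 x, g '' U ∈ 𝓝 (g x)) : Function.Injective g := by
  obtain ⟨B, hB⟩ : ∃ B : Set X, B = {x | ∃ y, y ≠ x ∧ g y = g x} := ⟨_, rfl⟩
  have hpB : p ∉ B := by
    rw [hB]
    rintro ⟨y, hy, hgy⟩
    have := hpos y hy
    rw [hgy, hgp] at this
    exact lt_irrefl _ this
  have hqB : q ∉ B := by
    rw [hB]
    rintro ⟨y, hy, hgy⟩
    have := hlt y hy
    rw [hgy] at this
    exact lt_irrefl _ this
  have hopen : IsOpen B := by
    rw [isOpen_iff_mem_nhds]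
    intro x hx
    have hx' := hx
    rw [hB] at hx
    obtain ⟨y, hy, hgy⟩ := hx
    have hyB : y ∈ B := by
      rw [hB]
      exact ⟨x, hy.symm, hgy.symm⟩
    have hyp : y ≠ p := fun h => hpB (h ▸ hyB)
    have hyq : y ≠ q := fun h => hqB (h ▸ hyB)
    obtain ⟨U, V, hU, hV, hxU, hyV, hUV⟩ := t2_separation hy.symm
    have h1 := hop y hyp hyq V (hV.mem_nhds hyV)
    rw [hgy] at h1
    have h2 : g ⁻¹' (g '' V) ∈ 𝓝 x := hg.continuousAt h1
    filter_upwards [h2, hU.mem_nhds hxU] with x' hx1 hx2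
    obtain ⟨y', hy1, hy2⟩ := hx1
    rw [hB]
    refine ⟨y', ?_, hy2⟩
    rintro rfl
    exact Set.disjoint_left.1 hUV hx2 hy1
  have hclosed : IsClosed B := by
    choose U hU1 hU2 using hinj
    obtain ⟨W, hW⟩ : ∃ W : Set (X × X), W = ⋃ x, interior (U x) ×ˢ interior (U x) := ⟨_, rfl⟩
    have hWo : IsOpen W := by
      rw [hW]
      exact isOpen_iUnion fun x => isOpen_interior.prod isOpen_interior
    have hD : IsClosed {z : X × X | g z.1 = g z.2} :=
      isClosed_eq (hg.comp continuous_fst) (hg.comp continuous_snd)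
    have hK : IsCompact ({z : X × X | g z.1 = g z.2} ∩ Wᶜ) := (hD.inter hWo.isClosed_compl).isCompact
    have hBK : B = Prod.fst '' ({z : X × X | g z.1 = g z.2} ∩ Wᶜ) := by
      ext x
      rw [hB]
      constructor
      · rintro ⟨y, hy, hgy⟩
        refine ⟨(x, y), ⟨hgy.symm, fun h => ?_⟩, rfl⟩
        rw [hW, Set.mem_iUnion] at h
        obtain ⟨x', h1, h2⟩ := h
        exact hy (hU2 x' (interior_subset h2) (interior_subset h1) hgy)
      · rintro ⟨⟨x1, y⟩, ⟨h1, h2⟩, rfl⟩
        refine ⟨y, ?_, h1.symm⟩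
        rintro rfl
        apply h2
        rw [hW, Set.mem_iUnion]
        exact ⟨y, mem_interior_iff_mem_nhds.2 (hU1 y), mem_interior_iff_mem_nhds.2 (hU1 y)⟩
    rw [hBK]
    exact (hK.image continuous_fst).isClosed
  have hBe : B = ∅ := by
    rcases isClopen_iff.1 ⟨hclosed, hopen⟩ with h | h
    · exact h
    · exact absurd (h ▸ Set.mem_univ p) hpB
  intro x y hxy
  by_contra hne
  have : x ∈ B := by
    rw [hB]
    exact ⟨y, fun h => hne h.symm, hxy.symm⟩
  rw [hBe] at this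
  exact this

/-- Proof: B = {x : exists y ≠ x, g y = g x} does not contain p, q; it is open (the partner y of x is also not
p, q; images of neighbourhoods) and closed (compactness, limits of pairs x_n ≠ y_n are different by local
injectivity), so empty. The image of g is connected, contains 0 and g q, is in [0, g q]. Compact: a
homeomorphism, rescaled. -/
theorem homeo_of_gm {X : Type*} [TopologicalSpace X] [T2Space X] [CompactSpace X] [ConnectedSpace X]
    {p q : X} (hpq : p ≠ q) (g : X → ℝ) (hg : Continuous g) (hgp : g p = 0)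
    (hpos : ∀ x, x ≠ p → 0 < g x) (hlt : ∀ x, x ≠ q → g x < g q)
    (hinj : ∀ x, ∃ U ∈ 𝓝 x, Set.InjOn g U)
    (hop : ∀ x, x ≠ p → x ≠ q → ∀ U ∈ 𝓝 x, g '' U ∈ 𝓝 (g x)) :
    ∃ h : Set.Icc (0 : ℝ) 1 ≃ₜ X, h 0 = p ∧ h 1 = q := by
  have hinjg := inj_of_gm g hg hgp hpos hlt hinj hop
  have hM : 0 < g q := hpos q hpq.symm
  have hge : ∀ x, 0 ≤ g x := by
    intro x
    by_cases hx : x = p
    · rw [hx, hgp]
    · exact (hpos x hx).le
  have hle : ∀ x, g x ≤ g q := by
    intro x
    by_cases hx : x = q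
    · rw [hx]
    · exact (hlt x hx).le
  have hrange : Set.Icc 0 (g q) ⊆ Set.range g := by
    have h1 : IsPreconnected (Set.range g) := isPreconnected_range hg
    have h2 := h1.Icc_subset ⟨p, rfl⟩ ⟨q, rfl⟩
    rwa [hgp] at h2
  obtain ⟨f, hf⟩ : ∃ f : X → Set.Icc (0 : ℝ) 1, ∀ x, (f x : ℝ) = g x / g q :=
    ⟨fun x => ⟨g x / g q, div_nonneg (hge x) hM.le, by rw [div_le_one hM]; exact hle x⟩, fun x => rfl⟩
  have hfc : Continuous f := by
    rw [continuous_induced_rng]
    have h1 : (Subtype.val ∘ f) = fun x => g x / g q := funext hf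
    rw [h1]
    exact hg.div_const _
  have hfi : Function.Injective f := by
    intro x y hxy
    have h1 : (f x : ℝ) = f y := by rw [hxy]
    rw [hf, hf, div_eq_div_iff hM.ne' hM.ne'] at h1
    exact hinjg (mul_right_cancel₀ hM.ne' h1)
  have hfs : Function.Surjective f := by
    intro t
    obtain ⟨x, hx⟩ := hrange (show (t : ℝ) * g q ∈ Set.Icc 0 (g q) from
      ⟨mul_nonneg t.2.1 hM.le, mul_le_of_le_one_left hM.le t.2.2⟩)
    refine ⟨x, Subtype.ext ?_⟩
    rw [hf, hx, mul_div_assoc, div_self hM.ne', mul_one]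
  have hfcE : Continuous (Equiv.ofBijective f ⟨hfi, hfs⟩) := hfc
  refine ⟨(hfcE.homeoOfEquivCompactToT2).symm, ?_, ?_⟩
  · rw [Homeomorph.symm_apply_eq]
    refine Subtype.ext ?_
    show (0 : ℝ) = (f p : ℝ)
    rw [hf, hgp, zero_div]
  · rw [Homeomorph.symm_apply_eq]
    refine Subtype.ext ?_
    show (1 : ℝ) = (f q : ℝ)
    rw [hf, div_self hM.ne']

end Pool.Agent.H11.ST
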