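import Pool.Agent.H11.ST.Defs
import Pool.Agent.H66.SyL.Alg

/-! The map from the 3-sphere to RP3; homeomorphic quotients. -/

set_option autoImplicit false

open scoped Topology
open Topology

namespace Pool.Agent.H11.ST

open Pool.Agent.H66.SyL

private noncomputable def emb (x : EuclideanSpace ℝ (Fin 4)) : E 3 :=
  WithLp.toLp 2 (fun i => ((x i : ℝ) : ℂ))

private theorem emb_apply (x : EuclideanSpace ℝ (Fin 4)) (i : Fin (3 + 1)) :
    emb x i = ((x i : ℝ) : ℂ) := rfl

private theorem norm_emb (x : EuclideanSpace ℝ (Fin 4)) : ‖emb x‖ = ‖x‖ := by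
  rw [EuclideanSpace.norm_eq, EuclideanSpace.norm_eq]
  congr 1
  refine Finset.sum_congr rfl fun i _ => ?_
  rw [emb_apply, Complex.norm_real]

private theorem continuous_emb : Continuous emb := by
  unfold emb
  refine (PiLp.continuous_toLp 2 _).comp ?_
  refine continuous_pi fun i => ?_
  exact Complex.continuous_ofReal.comp ((continuous_apply i).comp (PiLp.continuous_ofLp 2 _))

private theorem emb_neg (x : EuclideanSpace ℝ (Fin 4)) : emb (-x) = (-1 : ℂ) • emb x := by
  ext i
  rw [PiLp.smul_apply, emb_apply, emb_apply]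
  simp

private theorem emb_inj {x y : EuclideanSpace ℝ (Fin 4)} (h : emb x = emb y) : x = y := by
  ext i
  have h1 : emb x i = emb y i := by rw [h]
  rw [emb_apply, emb_apply] at h1
  exact Complex.ofReal_injective h1

private theorem continuous_pt : Continuous (pt : E 3 → Op 3) := by
  have h : Continuous fun z : E 3 =>
      ContinuousLinearMap.smulRightL ℂ (E 3) (E 3) (innerSL ℂ z) z :=
    ((ContinuousLinearMap.smulRightL ℂ (E 3) (E 3)).continuous.comp
      (innerSL ℂ).continuous).clm_apply continuous_id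
  refine h.congr fun z => ?_
  rfl

private theorem inner_emb_im (x y : EuclideanSpace ℝ (Fin 4)) :
    (inner ℂ (emb x) (emb y)).im = 0 := by
  rw [PiLp.inner_apply, Complex.im_sum]
  refine Finset.sum_eq_zero fun i _ => ?_
  rw [emb_apply, emb_apply]
  simp

theorem exists_rho :
    ∃ r : Metric.sphere (0 : EuclideanSpace ℝ (Fin 4)) 1 → RP3, Continuous r ∧
      Function.Surjective r ∧ ∀ x y, r x = r y ↔
        ((x : EuclideanSpace ℝ (Fin 4)) = y ∨ (x : EuclideanSpace ℝ (Fin 4)) = -y) := by
  have hn : ∀ x : Metric.sphere (0 : EuclideanSpace ℝ (Fin 4)) 1,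
      ‖emb (x : EuclideanSpace ℝ (Fin 4))‖ = 1 := by
    intro x
    rw [norm_emb]
    exact mem_sphere_zero_iff_norm.1 x.2
  refine ⟨fun x => ⟨pt (emb x), emb x, hn x, fun i => by rw [emb_apply]; simp, rfl⟩, ?_, ?_, ?_⟩
  · exact (continuous_pt.comp (continuous_emb.comp continuous_subtype_val)).subtype_mk _
  · rintro ⟨P, z, hz, hr, rfl⟩
    have hz2 : emb (WithLp.toLp 2 (fun i => (z i).re)) = z := by
      ext i
      rw [emb_apply]
      exact Complex.ext (by simp) (by simp [hr i])
    refine ⟨⟨WithLp.toLp 2 (fun i => (z i).re), ?_⟩, ?_⟩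
    · rw [mem_sphere_zero_iff_norm, ← norm_emb, hz2, hz]
    · exact Subtype.ext (congrArg pt hz2)
  · intro x y
    constructor
    · intro h
      have h1 : pt (emb (x : EuclideanSpace ℝ (Fin 4))) = pt (emb y) := congrArg Subtype.val h
      obtain ⟨h2, h3⟩ := exists_phase (hn y) (hn x) h1
      have h4 := inner_emb_im (y : EuclideanSpace ℝ (Fin 4)) x
      set c := inner ℂ (emb (y : EuclideanSpace ℝ (Fin 4))) (emb x) with hc
      have h5 : c = ((c.re : ℝ) : ℂ) := Complex.ext (by simp) (by simp [h4])
      have h6 : |c.re| = 1 := by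
        rw [h5, Complex.norm_real] at h2
        exact h2
      rcases (abs_eq (zero_le_one' ℝ)).1 h6 with h7 | h7
      · left
        apply emb_inj
        rw [h3, h5, h7]
        simp
      · right
        apply emb_inj
        rw [emb_neg, h3, h5, h7]
        simp
    · rintro (h | h)
      · have h2 : x = y := Subtype.ext h
        rw [h2]
      · refine Subtype.ext ?_
        show pt (emb (x : EuclideanSpace ℝ (Fin 4))) = pt (emb y)
        rw [h, emb_neg]
        exact pt_smul (by simp)

theorem homeo_of_maps {S A B : Type*} [TopologicalSpace S] [CompactSpace S] [TopologicalSpace A]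
    [T2Space A] [TopologicalSpace B] [T2Space B] (f : S → A) (g : S → B) (hf : Continuous f)
    (hg : Continuous g) (hfs : Function.Surjective f) (hgs : Function.Surjective g)
    (h : ∀ x y, f x = f y ↔ g x = g y) : Nonempty (A ≃ₜ B) := by
  have qf : IsQuotientMap f := hf.isClosedMap.isQuotientMap hf hfs
  have qg : IsQuotientMap g := hg.isClosedMap.isQuotientMap hg hgs
  have hk : Setoid.ker f = Setoid.ker g := Setoid.ext fun x y => h x y
  have e1 : Quotient (Setoid.ker f) ≃ₜ A :=
    Topology.IsQuotientMap.homeomorph (f := (⟨f, hf⟩ : C(S, A))) qf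
  have e2 : Quotient (Setoid.ker g) ≃ₜ B :=
    Topology.IsQuotientMap.homeomorph (f := (⟨g, hg⟩ : C(S, B))) qg
  rw [hk] at e1
  exact ⟨e1.symm.trans e2⟩

end Pool.Agent.H11.ST
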