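import Pool.Agent.H11.ST.Defs

/-! Arcs from continuous, injective, open maps of intervals. -/

set_option autoImplicit false

open scoped ContDiff Topology NNReal
open Topology

namespace Pool.Agent.H11.ST

private noncomputable def gg (δ x : ℝ) : ℝ := δ * x / (1 + |x|)

private noncomputable def hh (δ y : ℝ) : ℝ := y / (δ - |y|)

private theorem gg_cont (δ : ℝ) : Continuous (gg δ) := by
  unfold gg
  apply Continuous.div (by fun_prop) (by fun_prop)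
  intro x
  positivity

private theorem abs_gg (δ x : ℝ) (hδ : 0 < δ) : |gg δ x| = δ * |x| / (1 + |x|) := by
  unfold gg
  rw [abs_div, abs_mul, abs_of_pos hδ, abs_of_pos (by positivity : (0 : ℝ) < 1 + |x|)]

private theorem gg_lt (δ x : ℝ) (hδ : 0 < δ) : |gg δ x| < δ := by
  rw [abs_gg δ x hδ, div_lt_iff₀ (by positivity)]
  nlinarith [abs_nonneg x]

private theorem hh_gg (δ x : ℝ) (hδ : 0 < δ) : hh δ (gg δ x) = x := by
  unfold hh
  rw [abs_gg δ x hδ]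
  unfold gg
  have h1 : (0 : ℝ) < 1 + |x| := by positivity
  have h2 : δ - δ * |x| / (1 + |x|) = δ / (1 + |x|) := by
    field_simp
    ring
  rw [h2]
  field_simp

private theorem gg_hh (δ y : ℝ) (hδ : 0 < δ) (hy : |y| < δ) : gg δ (hh δ y) = y := by
  unfold gg hh
  have h1 : 0 < δ - |y| := by linarith
  rw [abs_div, abs_of_pos h1]
  have h2 : 1 + |y| / (δ - |y|) = δ / (δ - |y|) := by
    field_simp
    ring
  rw [h2]
  field_simp

private theorem gg_inj (δ : ℝ) (hδ : 0 < δ) : Function.Injective (gg δ) := by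
  intro x y h
  rw [← hh_gg δ x hδ, ← hh_gg δ y hδ, h]

private theorem gg_nonneg (δ x : ℝ) (hδ : 0 < δ) (hx : 0 ≤ x) : 0 ≤ gg δ x := by
  unfold gg
  positivity

private theorem hh_nonneg (δ y : ℝ) (hy : |y| < δ) (h0 : 0 ≤ y) : 0 ≤ hh δ y := by
  unfold hh
  exact div_nonneg h0 (by linarith)

private theorem nhd (δ x : ℝ) (hδ : 0 < δ) (W : Set ℝ) (hW : W ∈ 𝓝 x) :
    {y : ℝ | |y| < δ ∧ hh δ y ∈ W} ∈ 𝓝 (gg δ x) := by
  have h1 : {y : ℝ | |y| < δ} ∈ 𝓝 (gg δ x) :=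
    (isOpen_lt continuous_abs continuous_const).mem_nhds (gg_lt δ x hδ)
  have h2 : ContinuousAt (hh δ) (gg δ x) := by
    unfold hh
    apply ContinuousAt.div continuousAt_id (by fun_prop)
    have := gg_lt δ x hδ
    linarith
  have h3 : (hh δ) ⁻¹' W ∈ 𝓝 (gg δ x) := by
    apply h2
    rw [hh_gg δ x hδ]
    exact hW
  exact Filter.inter_mem h1 h3

private theorem core {Y Z : Type*} [TopologicalSpace Y] [TopologicalSpace Z] (K : Set Y) {c : ℝ → Y}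
    (S : Set ℝ) (hc : ContinuousOn c S) (hi : Set.InjOn c S) (hK : ∀ t ∈ S, c t ∈ K)
    (ho : ∀ t ∈ S, ∀ J ∈ 𝓝 t, ∀ᶠ w in 𝓝[K] (c t), ∃ s ∈ J ∩ S, c s = w)
    (g : Z → ℝ) (hg : Continuous g) (hgi : Function.Injective g) (hgS : ∀ z, g z ∈ S)
    (hgo : ∀ z, ∀ W ∈ 𝓝 z, ∃ J ∈ 𝓝 (g z), ∀ s ∈ J ∩ S, ∃ w ∈ W, g w = s) :
    IsOpenEmbedding (fun z => (⟨c (g z), hK _ (hgS z)⟩ : K)) := by
  apply IsOpenEmbedding.of_continuous_injective_isOpenMap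
  · exact Continuous.subtype_mk (hc.comp_continuous hg hgS) _
  · intro z z' h
    rw [Subtype.mk.injEq] at h
    exact hgi (hi (hgS z) (hgS z') h)
  · rw [isOpenMap_iff_nhds_le]
    intro z W' hW'
    rw [Filter.mem_map] at hW'
    obtain ⟨J, hJ, hJs⟩ := hgo z _ hW'
    have h1 := ho (g z) (hgS z) J hJ
    rw [nhdsWithin_eq_map_subtype_coe (hK _ (hgS z)), Filter.eventually_map] at h1
    filter_upwards [h1] with w hw
    obtain ⟨s, hs, hsw⟩ := hw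
    obtain ⟨x, hx, hxs⟩ := hJs s hs
    have h2 : (⟨c (g x), hK _ (hgS x)⟩ : K) ∈ W' := hx
    have h3 : (⟨c (g x), hK _ (hgS x)⟩ : K) = w := by
      apply Subtype.ext
      show c (g x) = w
      rw [hxs, hsw]
    rw [← h3]
    exact h2

private theorem small {Y : Type*} [TopologicalSpace Y] (K : Set Y) {c : ℝ → Y} (S : Set ℝ)
    (hc : ContinuousOn c S) (hK : ∀ t ∈ S, c t ∈ K) (hS : (0 : ℝ) ∈ S) (h0 : c 0 ∈ K)
    (U : Set K) (hU : U ∈ 𝓝 (⟨c 0, h0⟩ : K)) :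
    ∃ δ : ℝ, 0 < δ ∧ ∀ t, ∀ ht : t ∈ S, |t| < δ → (⟨c t, hK t ht⟩ : K) ∈ U := by
  have h1 : Continuous (fun t : S => (⟨c t, hK t t.2⟩ : K)) :=
    Continuous.subtype_mk (continuousOn_iff_continuous_domRestrict.1 hc) _
  have h2 : (fun t : S => (⟨c t, hK t t.2⟩ : K)) ⁻¹' U ∈ 𝓝 (⟨0, hS⟩ : S) :=
    h1.continuousAt.preimage_mem_nhds hU
  obtain ⟨δ, hδ, hball⟩ := Metric.mem_nhds_iff.1 h2
  refine ⟨δ, hδ, fun t ht htδ => ?_⟩
  have h3 : (⟨t, ht⟩ : S) ∈ Metric.ball (⟨0, hS⟩ : S) δ := by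
    rw [Metric.mem_ball, Subtype.dist_eq, Real.dist_eq]
    simpa using htδ
  exact hball h3

/-- Compose with an open embedding of the line onto a small interval (-δ, δ). -/
theorem arc_of {Y : Type*} [TopologicalSpace Y] (K : Set Y) {c : ℝ → Y} {ε : ℝ} (hε : 0 < ε)
    (hc : ContinuousOn c (Set.Ioo (-ε) ε)) (hi : Set.InjOn c (Set.Ioo (-ε) ε))
    (hK : ∀ t ∈ Set.Ioo (-ε) ε, c t ∈ K)
    (ho : ∀ t ∈ Set.Ioo (-ε) ε, ∀ J ∈ 𝓝 t, ∀ᶠ w in 𝓝[K] (c t), ∃ s ∈ J ∩ Set.Ioo (-ε) ε, c s = w)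
    (h0 : c 0 ∈ K) : ArcAt (⟨c 0, h0⟩ : K) := by
  intro U hU
  obtain ⟨δ, hδ, hsm⟩ := small K _ hc hK ⟨by linarith, hε⟩ h0 U hU
  set d := min δ ε with hd
  have hd0 : 0 < d := lt_min hδ hε
  have hgS : ∀ z, gg d z ∈ Set.Ioo (-ε) ε := fun z => by
    have h1 := gg_lt d z hd0
    have h2 : d ≤ ε := min_le_right _ _
    exact ⟨by linarith [neg_abs_le (gg d z)], by linarith [le_abs_self (gg d z)]⟩
  refine ⟨fun z => ⟨c (gg d z), hK _ (hgS z)⟩, core K _ hc hi hK ho (gg d) (gg_cont d)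
    (gg_inj d hd0) hgS ?_, ?_, ?_⟩
  · intro z W hW
    refine ⟨_, nhd d z hd0 W hW, ?_⟩
    rintro s ⟨⟨h1, h2⟩, _⟩
    exact ⟨hh d s, h2, gg_hh d s hd0 h1⟩
  · apply Subtype.ext
    show c (gg d 0) = c 0
    simp [gg]
  · rintro _ ⟨z, rfl⟩
    exact hsm _ (hgS z) (lt_of_lt_of_le (gg_lt d z hd0) (min_le_left _ _))

/-- Compose with an open embedding of the half line onto a small interval [0, δ). -/
theorem end_of {Y : Type*} [TopologicalSpace Y] (K : Set Y) {c : ℝ → Y} {ε : ℝ} (hε : 0 < ε)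
    (hc : ContinuousOn c (Set.Ico 0 ε)) (hi : Set.InjOn c (Set.Ico 0 ε))
    (hK : ∀ t ∈ Set.Ico 0 ε, c t ∈ K)
    (ho : ∀ t ∈ Set.Ico 0 ε, ∀ J ∈ 𝓝 t, ∀ᶠ w in 𝓝[K] (c t), ∃ s ∈ J ∩ Set.Ico 0 ε, c s = w)
    (h0 : c 0 ∈ K) : EndAt (⟨c 0, h0⟩ : K) := by
  intro U hU
  obtain ⟨δ, hδ, hsm⟩ := small K _ hc hK ⟨le_refl _, hε⟩ h0 U hU
  set d := min δ ε with hd
  have hd0 : 0 < d := lt_min hδ hε
  have hgS : ∀ z : ℝ≥0, gg d z ∈ Set.Ico 0 ε := fun z => by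
    have h1 := gg_lt d z hd0
    have h2 : d ≤ ε := min_le_right _ _
    exact ⟨gg_nonneg d z hd0 z.2, by linarith [le_abs_self (gg d z)]⟩
  refine ⟨fun z => ⟨c (gg d z), hK _ (hgS z)⟩, core K _ hc hi hK ho (fun z : ℝ≥0 => gg d z)
    ((gg_cont d).comp NNReal.continuous_coe) ((gg_inj d hd0).comp NNReal.coe_injective) hgS ?_, ?_, ?_⟩
  · intro z W hW
    obtain ⟨W', hW', hsub⟩ := mem_nhds_induced (fun x : ℝ≥0 => (x : ℝ)) z W |>.1 hW
    refine ⟨_, nhd d z hd0 W' hW', ?_⟩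
    rintro s ⟨⟨h1, h2⟩, h3⟩
    refine ⟨⟨hh d s, hh_nonneg d s h1 h3.1⟩, hsub h2, gg_hh d s hd0 h1⟩
  · apply Subtype.ext
    show c (gg d ((0 : ℝ≥0) : ℝ)) = c 0
    simp [gg]
  · rintro _ ⟨z, rfl⟩
    exact hsm _ (hgS z) (lt_of_lt_of_le (gg_lt d z hd0) (min_le_left _ _))

end Pool.Agent.H11.ST
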