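import Pool.Agent.H11.ST.OpP

/-! A global function on the reduced curve from H^1(L; R) = 0. -/

set_option autoImplicit false

open scoped ContDiff Topology
open Topology

namespace Pool.Agent.H11.ST

open Pool.Agent.H66.SyL

variable {b : Bas} {L : Set (Op 3)}

/-- A function on L which near each point P changes by psi P, where psi P is constant on the fibres
of prj, is constant on the fibres of prj. -/
private theorem const_fibre (hT : Toric b L) {ψ : Op 3 → Op 3 → ℝ} {G : Op 3 → ℝ}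
    (hψ : ∀ P Q S : Op 3, prj b Q = prj b S → ψ P Q = ψ P S)
    (hG : ∀ P ∈ L, ∀ᶠ Q in 𝓝[L] P, G Q - G P = ψ P Q - ψ P P) {P Q : Op 3} (hP : P ∈ L)
    (hQ : Q ∈ L) (h : prj b P = prj b Q) : G P = G Q := by
  obtain ⟨α, β, hαβ⟩ := hT.fib hP hQ h
  obtain ⟨c, hc⟩ : ∃ c : ℝ → Op 3, ∀ s, c s = tor b (s * α) (s * β) P := ⟨_, fun _ => rfl⟩
  have hcc : Continuous c := by
    have hf : Continuous fun s : ℝ => ((s * α, s * β, P) : ℝ × ℝ × Op 3) :=
      (continuous_id.mul continuous_const).prodMk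
        ((continuous_id.mul continuous_const).prodMk continuous_const)
    have hg := Continuous.comp (continuous_tor b) hf
    have hceq : c = (fun q : ℝ × ℝ × Op 3 => tor b q.1 q.2.1 q.2.2) ∘
        fun s : ℝ => ((s * α, s * β, P) : ℝ × ℝ × Op 3) := by
      funext s
      rw [hc s, Function.comp_apply]
    rw [hceq]
    exact hg
  have hcL : ∀ s, c s ∈ L := fun s => by
    rw [hc s]
    exact hT.inv _ _ P hP
  have hcp : ∀ s, prj b (c s) = prj b P := fun s => by
    rw [hc s]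
    exact prj_tor b _ _ P
  have hloc : IsLocallyConstant fun s => G (c s) := by
    rw [IsLocallyConstant.iff_eventually_eq]
    intro s
    have h1 : Filter.Tendsto c (𝓝 s) (𝓝[L] (c s)) :=
      tendsto_nhdsWithin_iff.2 ⟨hcc.continuousAt, Filter.Eventually.of_forall hcL⟩
    filter_upwards [h1.eventually (hG (c s) (hcL s))] with t ht
    have h2 : ψ (c s) (c t) = ψ (c s) (c s) := hψ _ _ _ ((hcp t).trans (hcp s).symm)
    rw [h2, sub_self] at ht
    linarith
  have h3 := hloc.apply_eq_of_isPreconnected isPreconnected_univ (Set.mem_univ (0 : ℝ))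
    (Set.mem_univ (1 : ℝ))
  have h0 : c 0 = P := by
    rw [hc, zero_mul, zero_mul]
    exact tor_zero b P
  have h1 : c 1 = Q := by
    rw [hc, one_mul, one_mul]
    exact hαβ
  simp only [h0, h1] at h3
  exact h3

/-- k is continuous function on an open set V of K = prj(L), locally constant off a closed set K0 in V (closed
in K). Then there is a function g on K which is locally constant off V and with g - k locally constant
on V. Proof: psi P Q = k (prj Q) if prj P in V, else 0 (k extended by 0); the condition of H1Zero: if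
prj P in V all is clear; if prj P not in V, then for Q near P prj Q is not in K0, and if prj Q is in V, k is
locally constant near prj Q. H1Zero gives G. G is constant along the curves s -> tor (s α) (s β) P (locally
constant because psi P (tor ..) = psi P P), so by fib G P depends only on prj P: g. open_prj. -/
theorem exists_g (hc : IsCompact L) (hT : Toric b L) (h1 : H1Zero L)
    (V K0 : Set (prj b '' L)) (hV : IsOpen V) (hK0 : IsClosed K0) (hKV : K0 ⊆ V)
    (k : (prj b '' L) → ℝ) (hk : ∀ x ∈ V, x ∉ K0 → ∀ᶠ y in 𝓝 x, k y = k x) :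
    ∃ g : (prj b '' L) → ℝ, (∀ x ∈ V, ∀ᶠ y in 𝓝 x, g y - g x = k y - k x) ∧
      (∀ x, x ∉ V → ∀ᶠ y in 𝓝 x, g y = g x) := by
  classical
  -- the map to K
  have hmem : ∀ {P : Op 3}, P ∈ L → prj b P ∈ prj b '' L := fun {P} hP => ⟨P, hP, rfl⟩
  -- eventually near a point of K pulls back to L
  have hpull : ∀ {P : Op 3} (hP : P ∈ L) (p : (prj b '' L) → Prop),
      (∀ᶠ y in 𝓝 (⟨prj b P, hmem hP⟩ : prj b '' L), p y) →
      ∀ᶠ Q in 𝓝[L] P, ∀ hQ : prj b Q ∈ prj b '' L, p ⟨prj b Q, hQ⟩ := by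
    intro P hP p h
    rw [nhds_subtype_eq_comap_nhdsWithin, Filter.eventually_comap] at h
    have h2 : Filter.Tendsto (prj b) (𝓝[L] P) (𝓝[prj b '' L] (prj b P)) := by
      refine tendsto_nhdsWithin_iff.2 ⟨?_, ?_⟩
      · exact ((continuous_prj b).continuousAt).mono_left nhdsWithin_le_nhds
      · exact eventually_nhdsWithin_of_forall fun Q hQ => hmem hQ
    filter_upwards [h2.eventually h] with Q hQ hQ'
    exact hQ _ rfl
  set k' : ℂ × ℝ → ℝ := fun w => if h : w ∈ prj b '' L then k ⟨w, h⟩ else 0 with hk'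
  have hk'e : ∀ {w : ℂ × ℝ} (h : w ∈ prj b '' L), k' w = k ⟨w, h⟩ := by
    intro w h
    rw [hk']
    exact dif_pos h
  set inV : Op 3 → Prop := fun P => ∃ h : prj b P ∈ prj b '' L, (⟨prj b P, h⟩ : prj b '' L) ∈ V
    with hinV
  set ψ : Op 3 → Op 3 → ℝ := fun P Q => if inV P then k' (prj b Q) else 0 with hψd
  have hψ1 : ∀ {P : Op 3}, inV P → ∀ Q, ψ P Q = k' (prj b Q) := by
    intro P hP Q
    rw [hψd]
    exact if_pos hP
  have hψ0 : ∀ {P : Op 3}, ¬ inV P → ∀ Q, ψ P Q = 0 := by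
    intro P hP Q
    rw [hψd]
    exact if_neg hP
  have hcond : ∀ P ∈ L, ∀ᶠ Q in 𝓝[L] P, ∀ᶠ S in 𝓝[L] Q, ψ Q S - ψ Q Q = ψ P S - ψ P Q := by
    intro P hP
    by_cases hPV : inV P
    · obtain ⟨h, hv⟩ := hPV
      have hev := hpull hP (fun y => y ∈ V) (hV.mem_nhds hv)
      filter_upwards [hev, self_mem_nhdsWithin] with Q hQ hQL
      have hQV : inV Q := ⟨hmem hQL, hQ _⟩
      refine Filter.Eventually.of_forall fun S => ?_
      rw [hψ1 hQV, hψ1 hQV, hψ1 ⟨h, hv⟩, hψ1 ⟨h, hv⟩]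
    · have hPK : (⟨prj b P, hmem hP⟩ : prj b '' L) ∈ K0ᶜ := fun hc0 =>
        hPV ⟨hmem hP, hKV hc0⟩
      have hev := hpull hP (fun y => y ∈ K0ᶜ) (hK0.isOpen_compl.mem_nhds hPK)
      filter_upwards [hev, self_mem_nhdsWithin] with Q hQ hQL
      by_cases hQV : inV Q
      · obtain ⟨h, hv⟩ := hQV
        have hloc := hk ⟨prj b Q, h⟩ hv (hQ h)
        have hev2 := hpull hQL _ hloc
        filter_upwards [hev2, self_mem_nhdsWithin] with S hS hSL
        rw [hψ1 ⟨h, hv⟩, hψ1 ⟨h, hv⟩, hψ0 hPV, hψ0 hPV, hk'e h, hk'e (hmem hSL), hS (hmem hSL)]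
        ring
      · refine Filter.Eventually.of_forall fun S => ?_
        rw [hψ0 hQV, hψ0 hQV, hψ0 hPV, hψ0 hPV]
  obtain ⟨G, hG⟩ := h1 ψ hcond
  have hψc : ∀ P Q S : Op 3, prj b Q = prj b S → ψ P Q = ψ P S := by
    intro P Q S h
    rw [hψd]
    simp only [h]
  have hfib : ∀ {P Q : Op 3}, P ∈ L → Q ∈ L → prj b P = prj b Q → G P = G Q :=
    fun {P Q} hP hQ h => const_fibre hT hψc hG hP hQ h
  -- a section
  set σ : (prj b '' L) → Op 3 := fun x => x.2.choose with hσ
  have hσL : ∀ x, σ x ∈ L := fun x => x.2.choose_spec.1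
  have hσp : ∀ x : (prj b '' L), prj b (σ x) = x.1 := fun x => x.2.choose_spec.2
  have hmain : ∀ x : (prj b '' L), ∀ᶠ y in 𝓝 x,
      G (σ y) - G (σ x) = ψ (σ x) (σ y) - ψ (σ x) (σ x) := by
    intro x
    have h2 := hT.open_prj hc (hσL x) (hG (σ x) (hσL x))
    rw [hσp x] at h2
    have h3 : ∀ᶠ y : (prj b '' L) in 𝓝 x, ∃ Q ∈ L ∩ {Q | G Q - G (σ x) = ψ (σ x) Q - ψ (σ x) (σ x)},
        prj b Q = y.1 := by
      have h4 : Filter.Tendsto (Subtype.val : (prj b '' L) → ℂ × ℝ) (𝓝 x) (𝓝[prj b '' L] x.1) :=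
        tendsto_nhdsWithin_iff.2 ⟨continuous_subtype_val.continuousAt,
          Filter.Eventually.of_forall fun y => y.2⟩
      exact h4.eventually h2
    filter_upwards [h3] with y hy
    obtain ⟨Q, ⟨hQL, hQ⟩, hQy⟩ := hy
    have h5 : prj b Q = prj b (σ y) := hQy.trans (hσp y).symm
    rw [← hfib hQL (hσL y) h5, ← hψc (σ x) Q (σ y) h5]
    exact hQ
  refine ⟨fun x => G (σ x), ?_, ?_⟩
  · intro x hx
    have hin : inV (σ x) := by
      refine ⟨hmem (hσL x), ?_⟩
      have : (⟨prj b (σ x), hmem (hσL x)⟩ : prj b '' L) = x := Subtype.ext (hσp x)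
      rw [this]
      exact hx
    filter_upwards [hmain x] with y hy
    rw [hψ1 hin, hψ1 hin, hσp x, hσp y, hk'e x.2, hk'e y.2] at hy
    exact hy
  · intro x hx
    have hin : ¬ inV (σ x) := by
      rintro ⟨h, hv⟩
      have : (⟨prj b (σ x), h⟩ : prj b '' L) = x := Subtype.ext (hσp x)
      rw [this] at hv
      exact hx hv
    filter_upwards [hmain x] with y hy
    rw [hψ0 hin, hψ0 hin] at hy
    linarith

end Pool.Agent.H11.ST
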