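import Pool.Agent.H66.SyL.Defs

/-!
MP_b8283b_gt, Lagrangian rational homology spheres in CP^3 with a two-dimensional torus of symmetries.
Definitions.
-/

set_option autoImplicit false

open scoped ContDiff Topology NNReal
open Topology

namespace Pool.Agent.H11.ST

open Pool.Agent.H66.SyL

/-- an orthonormal basis of C^4 -/
abbrev Bas := OrthonormalBasis (Fin (3 + 1)) ℂ (E 3)

/-- matrix entry of P in the basis b; for P = pt z it is z_i * conj z_j, z_i = (b i, z) -/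
noncomputable def ent (b : Bas) (P : Op 3) (i j : Fin (3 + 1)) : ℂ := inner ℂ (b i) (P (b j))

/-- the weights of the torus -/
def wt (α β : ℝ) : Fin (3 + 1) → ℝ := ![α, -α, β, -β]

/-- the torus action -/
noncomputable def tor (b : Bas) (α β : ℝ) (P : Op 3) : Op 3 := act b (wt α β) P

/-- the reduced coordinates: for P = pt z they are (z_0 z_1 conj (z_2 z_3), |z_0|^2) -/
noncomputable def prj (b : Bas) (P : Op 3) : ℂ × ℝ :=
  (ent b P 0 2 * ent b P 1 3, (ent b P 0 0).re)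

/-- L is invariant under the torus, contained in |z_0| = |z_1|, |z_2| = |z_3|, and contains points with
z_0 = 0 and points with z_2 = 0. -/
structure Toric (b : Bas) (L : Set (Op 3)) : Prop where
  inv : ∀ (α β : ℝ), ∀ P ∈ L, tor b α β P ∈ L
  unit : ∀ P ∈ L, ∃ z : E 3, ‖z‖ = 1 ∧ pt z = P
  eq01 : ∀ z : E 3, ‖z‖ = 1 → pt z ∈ L → ‖inner ℂ (b 0) z‖ = ‖inner ℂ (b 1) z‖
  eq23 : ∀ z : E 3, ‖z‖ = 1 → pt z ∈ L → ‖inner ℂ (b 2) z‖ = ‖inner ℂ (b 3) z‖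
  pole0 : ∃ z : E 3, ‖z‖ = 1 ∧ pt z ∈ L ∧ inner ℂ (b 0) z = 0
  pole1 : ∃ z : E 3, ‖z‖ = 1 ∧ pt z ∈ L ∧ inner ℂ (b 2) z = 0

/-- functions cutting out a slice at an interior point P -/
noncomputable def slI (b : Bas) (P : Op 3) (Q : Op 3) : ℝ × ℝ :=
  ((ent b Q 0 1 * (starRingEnd ℂ) (ent b P 0 1)).im,
    (ent b Q 2 3 * (starRingEnd ℂ) (ent b P 2 3)).im)

/-- coordinates of L at a pole P -/
noncomputable def slP (b : Bas) (P : Op 3) (Q : Op 3) : ℂ × ℝ :=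
  (ent b Q 0 2, (ent b Q 2 3 * (starRingEnd ℂ) (ent b P 2 3)).im)

/-- real projective space in CP^3: the points [z] with z real -/
def RP3 : Set (Op 3) := {P | ∃ z : E 3, ‖z‖ = 1 ∧ (∀ i, (z i).im = 0) ∧ pt z = P}

/-- x has arbitrarily small open arc neighbourhoods -/
def ArcAt {X : Type*} [TopologicalSpace X] (x : X) : Prop :=
  ∀ U ∈ 𝓝 x, ∃ c : ℝ → X, IsOpenEmbedding c ∧ c 0 = x ∧ Set.range c ⊆ U

/-- x has arbitrarily small half open arc neighbourhoods, x is the end point -/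
def EndAt {X : Type*} [TopologicalSpace X] (x : X) : Prop :=
  ∀ U ∈ 𝓝 x, ∃ e : ℝ≥0 → X, IsOpenEmbedding e ∧ e 0 = x ∧ Set.range e ⊆ U

/-- A is the side of x which contains p: A and its complement in X minus x are open and not empty -/
def IsSide {X : Type*} [TopologicalSpace X] (p x : X) (A : Set X) : Prop :=
  IsOpen A ∧ IsOpen ((A ∪ {x})ᶜ) ∧ p ∈ A ∧ x ∉ A ∧ ((A ∪ {x})ᶜ).Nonempty

/-- the coordinates of the map S^3 to L -/
noncomputable def vec4 (A B : ℝ → ℂ) (ρ : ℝ → ℝ) (x : EuclideanSpace ℝ (Fin 4)) : Fin (3 + 1) → ℂ :=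
  let u : ℂ := ⟨x 0, x 1⟩
  let v : ℂ := ⟨x 2, x 3⟩
  let t : ℝ := ‖u‖ ^ 2
  ![(√(ρ t) : ℝ) * A t * (u / ‖u‖), (√(ρ t) : ℝ) * ((starRingEnd ℂ) u / ‖u‖),
    (√(1 / 2 - ρ t) : ℝ) * B t * (v / ‖v‖), (√(1 / 2 - ρ t) : ℝ) * ((starRingEnd ℂ) v / ‖v‖)]

end Pool.Agent.H11.ST
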