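import Pool.Agent.H11.ST.FibA

/-! Consequences for toric L. -/

set_option autoImplicit false

open scoped ContDiff Topology

namespace Pool.Agent.H11.ST

open Pool.Agent.H66.SyL

variable {b : Bas} {L : Set (Op 3)}

private theorem sq_half (hT : Toric b L) {z : E 3} (hz : ‖z‖ = 1) (hL : pt z ∈ L) :
    ‖inner ℂ (b 2) z‖ ^ 2 = 1 / 2 - ‖inner ℂ (b 0) z‖ ^ 2 := by
  have h := sum_sq b hz
  rw [← hT.eq01 z hz hL, ← hT.eq23 z hz hL] at h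
  linarith

theorem Toric.fib (hT : Toric b L) {P Q : Op 3} (hP : P ∈ L) (hQ : Q ∈ L)
    (h : prj b P = prj b Q) : ∃ α β : ℝ, tor b α β P = Q := by
  obtain ⟨z, hz, rfl⟩ := hT.unit P hP
  obtain ⟨z', hz', rfl⟩ := hT.unit Q hQ
  exact fibre b hz hz' (hT.eq01 z hz hP) (hT.eq23 z hz hP) (hT.eq01 z' hz' hQ) (hT.eq23 z' hz' hQ) h

theorem Toric.sat (hT : Toric b L) {z : E 3} (hz : ‖z‖ = 1)
    (h01 : ‖inner ℂ (b 0) z‖ = ‖inner ℂ (b 1) z‖) (h23 : ‖inner ℂ (b 2) z‖ = ‖inner ℂ (b 3) z‖)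
    (h : prj b (pt z) ∈ prj b '' L) : pt z ∈ L := by
  obtain ⟨Q, hQ, hq⟩ := h
  obtain ⟨z', hz', rfl⟩ := hT.unit Q hQ
  obtain ⟨α, β, h1⟩ := fibre b hz' hz (hT.eq01 z' hz' hQ) (hT.eq23 z' hz' hQ) h01 h23 hq
  rw [← h1]
  exact hT.inv α β _ hQ

theorem Toric.mem_zero (hT : Toric b L) : ((0 : ℂ), (0 : ℝ)) ∈ prj b '' L := by
  obtain ⟨z, hz, hL, h0⟩ := hT.pole0
  refine ⟨pt z, hL, ?_⟩
  rw [prj_pt, h0]
  simp

theorem Toric.mem_half (hT : Toric b L) : ((0 : ℂ), (1 / 2 : ℝ)) ∈ prj b '' L := by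
  obtain ⟨z, hz, hL, h0⟩ := hT.pole1
  refine ⟨pt z, hL, ?_⟩
  have h1 := sq_half hT hz hL
  rw [h0, norm_zero] at h1
  rw [prj_pt, h0]
  have h2 : ‖inner ℂ (b 0) z‖ ^ 2 = 1 / 2 := by
    have h3 : (0 : ℝ) ^ 2 = 0 := by norm_num
    rw [h3] at h1
    linarith
  rw [h2]
  simp

theorem Toric.norm_fst (hT : Toric b L) {w : ℂ × ℝ} (hw : w ∈ prj b '' L) :
    ‖w.1‖ = w.2 * (1 / 2 - w.2) ∧ 0 ≤ w.2 ∧ w.2 ≤ 1 / 2 := by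
  obtain ⟨P, hP, rfl⟩ := hw
  obtain ⟨z, hz, rfl⟩ := hT.unit P hP
  have h1 := sq_half hT hz hP
  have h01 := hT.eq01 z hz hP
  have h23 := hT.eq23 z hz hP
  rw [prj_pt]
  refine ⟨?_, by positivity, ?_⟩
  · show ‖inner ℂ (b 0) z * (starRingEnd ℂ) (inner ℂ (b 2) z) *
      (inner ℂ (b 1) z * (starRingEnd ℂ) (inner ℂ (b 3) z))‖ =
      ‖inner ℂ (b 0) z‖ ^ 2 * (1 / 2 - ‖inner ℂ (b 0) z‖ ^ 2)
    rw [← h1, norm_mul, norm_mul, norm_mul, RCLike.norm_conj, RCLike.norm_conj, ← h01, ← h23]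
    ring
  · show ‖inner ℂ (b 0) z‖ ^ 2 ≤ 1 / 2
    have : 0 ≤ ‖inner ℂ (b 2) z‖ ^ 2 := by positivity
    linarith

/-- moduli of the entries -/
theorem Toric.norms (hT : Toric b L) {P : Op 3} (hP : P ∈ L) :
    ‖ent b P 0 0‖ = (prj b P).2 ∧ ‖ent b P 2 2‖ = 1 / 2 - (prj b P).2 ∧
    ‖ent b P 0 1‖ = (prj b P).2 ∧ ‖ent b P 2 3‖ = 1 / 2 - (prj b P).2 ∧
    ‖ent b P 0 2‖ ^ 2 = (prj b P).2 * (1 / 2 - (prj b P).2) ∧
    ‖ent b P 1 3‖ ^ 2 = (prj b P).2 * (1 / 2 - (prj b P).2) := by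
  obtain ⟨z, hz, rfl⟩ := hT.unit P hP
  have h1 := sq_half hT hz hP
  have h01 := hT.eq01 z hz hP
  have h23 := hT.eq23 z hz hP
  have hp : (prj b (pt z)).2 = ‖inner ℂ (b 0) z‖ ^ 2 := by rw [prj_pt]
  rw [hp, ← h1]
  simp only [ent_pt, norm_mul, RCLike.norm_conj, ← h01, ← h23]
  refine ⟨by ring, by ring, by ring, by ring, by ring, by ring⟩

end Pool.Agent.H11.ST
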