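import Pool.Agent.H11.ST.Ent

/-! The fibres of the reduced map are torus orbits. -/

set_option autoImplicit false

open scoped ContDiff Topology

namespace Pool.Agent.H11.ST

open Pool.Agent.H66.SyL

variable (b : Bas)

private theorem exists_arg {x y : ℂ} (h : ‖x‖ = ‖y‖) :
    ∃ f : ℝ, y = Complex.exp ((f : ℂ) * Complex.I) * x := by
  by_cases hx : x = 0
  · refine ⟨0, ?_⟩
    rw [hx, norm_zero] at h
    rw [hx, mul_zero]
    exact norm_eq_zero.1 h.symm
  · refine ⟨(y / x).arg, ?_⟩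
    have hn : ‖y / x‖ = 1 := by
      rw [norm_div, ← h]
      exact div_self (norm_ne_zero_iff.2 hx)
    have h1 := Complex.norm_mul_exp_arg_mul_I (y / x)
    rw [hn, Complex.ofReal_one, one_mul] at h1
    rw [h1, div_mul_cancel₀ _ hx]

private theorem norm_exp_I (f : ℝ) : ‖Complex.exp ((f : ℂ) * Complex.I)‖ = 1 :=
  Complex.norm_exp_ofReal_mul_I f

private theorem finish {z z' : E 3} {g α β : ℝ}
    (h0 : inner ℂ (b 0) z' =
      Complex.exp ((g : ℂ) * Complex.I) * (Complex.exp ((α : ℂ) * Complex.I) * inner ℂ (b 0) z))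
    (h1 : inner ℂ (b 1) z' =
      Complex.exp ((g : ℂ) * Complex.I) *
        (Complex.exp (((-α : ℝ) : ℂ) * Complex.I) * inner ℂ (b 1) z))
    (h2 : inner ℂ (b 2) z' =
      Complex.exp ((g : ℂ) * Complex.I) * (Complex.exp ((β : ℂ) * Complex.I) * inner ℂ (b 2) z))
    (h3 : inner ℂ (b 3) z' =
      Complex.exp ((g : ℂ) * Complex.I) *
        (Complex.exp (((-β : ℝ) : ℂ) * Complex.I) * inner ℂ (b 3) z)) :
    tor b α β (pt z) = pt z' := by
  rw [tor_pt]
  refine (pt_eq_of_coord b (norm_exp_I g) ?_).symm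
  intro i
  rw [coord_rot]
  match i with
  | 0 => exact h0
  | 1 => exact h1
  | 2 => exact h2
  | 3 => exact h3

private theorem conj_exp (f : ℝ) : (starRingEnd ℂ) (Complex.exp ((f : ℂ) * Complex.I)) =
    Complex.exp (-((f : ℂ) * Complex.I)) := by
  rw [← Complex.exp_conj, map_mul, Complex.conj_ofReal, Complex.conj_I, mul_neg]

/-- Proof: |z_i| = |z'_i| for all i, so z'_i = exp (i f_i) z_i. If all are nonzero the first coordinate
of prj gives f_0 + f_1 - f_2 - f_3 = 2 pi k; with g = (f_0 + f_1) / 2, α = (f_0 - f_1) / 2,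
β = (f_2 - f_3) / 2 (+ pi if k is odd) one has z' = exp (i g) rot (wt α β) z. If z_0 = z_1 = 0 only
f_2, f_3 matter, if z_2 = z_3 = 0 only f_0, f_1. -/
theorem fibre {z z' : E 3} (hz : ‖z‖ = 1) (hz' : ‖z'‖ = 1)
    (h01 : ‖inner ℂ (b 0) z‖ = ‖inner ℂ (b 1) z‖) (h23 : ‖inner ℂ (b 2) z‖ = ‖inner ℂ (b 3) z‖)
    (h01' : ‖inner ℂ (b 0) z'‖ = ‖inner ℂ (b 1) z'‖)
    (h23' : ‖inner ℂ (b 2) z'‖ = ‖inner ℂ (b 3) z'‖)
    (h : prj b (pt z) = prj b (pt z')) : ∃ α β : ℝ, tor b α β (pt z) = pt z' := by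
  rw [prj_pt, prj_pt] at h
  have hA := congrArg Prod.fst h
  have hB := congrArg Prod.snd h
  simp only at hA hB
  have n0 : ‖inner ℂ (b 0) z‖ = ‖inner ℂ (b 0) z'‖ :=
    (sq_eq_sq₀ (norm_nonneg _) (norm_nonneg _)).1 hB
  have n1 : ‖inner ℂ (b 1) z‖ = ‖inner ℂ (b 1) z'‖ := by rw [← h01, ← h01', n0]
  have s1 := sum_sq b hz
  have s2 := sum_sq b hz'
  have n2 : ‖inner ℂ (b 2) z‖ = ‖inner ℂ (b 2) z'‖ := by
    refine (sq_eq_sq₀ (norm_nonneg _) (norm_nonneg _)).1 ?_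
    rw [← h01, ← h23] at s1
    rw [← h01', ← h23'] at s2
    rw [n0] at s1
    linarith
  have n3 : ‖inner ℂ (b 3) z‖ = ‖inner ℂ (b 3) z'‖ := by rw [← h23, ← h23', n2]
  obtain ⟨f0, e0⟩ := exists_arg n0
  obtain ⟨f1, e1⟩ := exists_arg n1
  obtain ⟨f2, e2⟩ := exists_arg n2
  obtain ⟨f3, e3⟩ := exists_arg n3
  by_cases c0 : inner ℂ (b 0) z = 0
  · have c1 : inner ℂ (b 1) z = 0 := by
      rw [c0, norm_zero] at h01
      exact norm_eq_zero.1 h01.symm
    refine ⟨0, (f2 - f3) / 2, finish b (g := (f2 + f3) / 2) ?_ ?_ ?_ ?_⟩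
    · rw [e0, c0]; simp
    · rw [e1, c1]; simp
    · rw [e2, ← mul_assoc, ← Complex.exp_add]
      congr 2
      push_cast
      ring
    · rw [e3, ← mul_assoc, ← Complex.exp_add]
      congr 2
      push_cast
      ring
  by_cases c2 : inner ℂ (b 2) z = 0
  · have c3 : inner ℂ (b 3) z = 0 := by
      rw [c2, norm_zero] at h23
      exact norm_eq_zero.1 h23.symm
    refine ⟨(f0 - f1) / 2, 0, finish b (g := (f0 + f1) / 2) ?_ ?_ ?_ ?_⟩
    · rw [e0, ← mul_assoc, ← Complex.exp_add]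
      congr 2
      push_cast
      ring
    · rw [e1, ← mul_assoc, ← Complex.exp_add]
      congr 2
      push_cast
      ring
    · rw [e2, c2]; simp
    · rw [e3, c3]; simp
  have c1 : inner ℂ (b 1) z ≠ 0 := by
    intro hc
    rw [hc, norm_zero] at h01
    exact c0 (norm_eq_zero.1 h01)
  have c3 : inner ℂ (b 3) z ≠ 0 := by
    intro hc
    rw [hc, norm_zero] at h23
    exact c2 (norm_eq_zero.1 h23)
  have hP : inner ℂ (b 0) z * (starRingEnd ℂ) (inner ℂ (b 2) z) *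
      (inner ℂ (b 1) z * (starRingEnd ℂ) (inner ℂ (b 3) z)) ≠ 0 := by
    refine mul_ne_zero (mul_ne_zero c0 ?_) (mul_ne_zero c1 ?_)
    · rwa [Ne, map_eq_zero]
    · rwa [Ne, map_eq_zero]
  have hE : Complex.exp ((f0 : ℂ) * Complex.I + -((f2 : ℂ) * Complex.I) +
      ((f1 : ℂ) * Complex.I + -((f3 : ℂ) * Complex.I))) = 1 := by
    have h5 : inner ℂ (b 0) z * (starRingEnd ℂ) (inner ℂ (b 2) z) *
        (inner ℂ (b 1) z * (starRingEnd ℂ) (inner ℂ (b 3) z)) =
        Complex.exp ((f0 : ℂ) * Complex.I + -((f2 : ℂ) * Complex.I) +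
          ((f1 : ℂ) * Complex.I + -((f3 : ℂ) * Complex.I))) *
        (inner ℂ (b 0) z * (starRingEnd ℂ) (inner ℂ (b 2) z) *
          (inner ℂ (b 1) z * (starRingEnd ℂ) (inner ℂ (b 3) z))) := by
      conv_lhs => rw [hA, e0, e1, e2, e3, map_mul, map_mul, conj_exp, conj_exp]
      rw [Complex.exp_add, Complex.exp_add, Complex.exp_add]
      ring
    exact mul_right_cancel₀ hP (by rw [one_mul]; exact h5.symm)
  obtain ⟨k, hk⟩ := Complex.exp_eq_one_iff.1 hE
  have hk' : (f0 : ℂ) + f1 - f2 - f3 = k * (2 * Real.pi) := by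
    have h6 : ((f0 : ℂ) + f1 - f2 - f3) * Complex.I = (k * (2 * Real.pi)) * Complex.I := by
      linear_combination hk
    exact mul_right_cancel₀ Complex.I_ne_zero h6
  refine ⟨(f0 - f1) / 2, (f2 - f3) / 2 - Real.pi * k, finish b (g := (f0 + f1) / 2) ?_ ?_ ?_ ?_⟩
  · rw [e0, ← mul_assoc, ← Complex.exp_add]
    congr 2
    push_cast
    ring
  · rw [e1, ← mul_assoc, ← Complex.exp_add]
    congr 2
    push_cast
    ring
  · rw [e2, ← mul_assoc, ← Complex.exp_add]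
    congr 2
    push_cast
    linear_combination (-Complex.I / 2) * hk'
  · rw [e3, ← mul_assoc, ← Complex.exp_add]
    congr 1
    rw [Complex.exp_eq_exp_iff_exists_int]
    refine ⟨-k, ?_⟩
    push_cast
    linear_combination (-Complex.I / 2) * hk'

end Pool.Agent.H11.ST
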