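import Pool.Agent.H11.ST.Defs

/-! Measures of arcs. -/

set_option autoImplicit false

open scoped Topology NNReal
open Topology MeasureTheory

namespace Pool.Agent.H11.ST

private lemma gen_mono {Y X : Type*} [LinearOrder Y] [TopologicalSpace Y] [OrderTopology Y]
    [DenselyOrdered Y] [TopologicalSpace X]
    [MeasurableSpace X] [BorelSpace X] (μ : Measure X) [IsFiniteMeasure μ]
    [μ.IsOpenPosMeasure] {c : Y → X} (hc : IsOpenEmbedding c) :
    StrictMono fun t : Y => μ.real (c '' Set.Iio t) := by
  intro s t hst
  have ho : IsOpen (c '' Set.Ioo s t) := hc.isOpenMap _ isOpen_Ioo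
  have hne : (c '' Set.Ioo s t).Nonempty := (Set.nonempty_Ioo.2 hst).image c
  have hpos : 0 < μ.real (c '' Set.Ioo s t) :=
    ENNReal.toReal_pos (ho.measure_pos μ hne).ne' (measure_ne_top μ _)
  have hdis : Disjoint (c '' Set.Iio s) (c '' Set.Ioo s t) := by
    rw [Set.disjoint_image_iff hc.injective]
    rw [Set.disjoint_left]
    intro x hx hx'
    exact absurd hx'.1 (not_lt.2 (le_of_lt hx))
  have hun : μ.real (c '' Set.Iio s ∪ c '' Set.Ioo s t)
      = μ.real (c '' Set.Iio s) + μ.real (c '' Set.Ioo s t) :=
    measureReal_union hdis ho.measurableSet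
  have hsub : c '' Set.Iio s ∪ c '' Set.Ioo s t ⊆ c '' Set.Iio t := by
    rw [← Set.image_union]
    apply Set.image_mono
    rintro x (hx | hx)
    · exact lt_trans hx hst
    · exact hx.2
  have hle : μ.real (c '' Set.Iio s ∪ c '' Set.Ioo s t) ≤ μ.real (c '' Set.Iio t) :=
    measureReal_mono hsub (measure_ne_top μ _)
  show μ.real (c '' Set.Iio s) < μ.real (c '' Set.Iio t)
  linarith

private lemma gen_cont {Y X : Type*} [LinearOrder Y] [TopologicalSpace Y] [OrderTopology Y]
    [FirstCountableTopology Y] [TopologicalSpace X]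
    [MeasurableSpace X] [BorelSpace X] (μ : Measure X) [IsFiniteMeasure μ] [NullSingletonClass μ]
    {c : Y → X} (hc : IsOpenEmbedding c) :
    Continuous (fun t : Y => μ.real (c '' Set.Iio t)) := by
  rw [continuous_iff_continuousAt]
  intro t₀
  have hmeas : ∀ t : Y, MeasurableSet (c '' Set.Iio t) := fun t =>
    (hc.isOpenMap _ isOpen_Iio).measurableSet
  have hint : ∀ t : Y, μ.real (c '' Set.Iio t)
      = ∫ x, (c '' Set.Iio t).indicator (fun _ => (1 : ℝ)) x ∂μ := by
    intro t
    rw [integral_indicator (hmeas t)]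
    simp
  simp_rw [hint]
  refine continuousAt_of_dominated (bound := fun _ => (1 : ℝ)) ?_ ?_ (integrable_const _) ?_
  · refine Filter.Eventually.of_forall fun t => ?_
    exact (aestronglyMeasurable_const).indicator (hmeas t)
  · refine Filter.Eventually.of_forall fun t => Filter.Eventually.of_forall fun x => ?_
    by_cases hx : x ∈ c '' Set.Iio t
    · simp [Set.indicator_of_mem hx]
    · simp [Set.indicator_of_notMem hx]
  · have h0 : ∀ᵐ x ∂μ, x ≠ c t₀ := by
      rw [ae_iff]
      simp
    filter_upwards [h0] with x hx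
    by_cases hr : x ∈ Set.range c
    · obtain ⟨s, rfl⟩ := hr
      have hs : s ≠ t₀ := fun h => hx (by rw [h])
      have key : ∀ t : Y, (c '' Set.Iio t).indicator (fun _ => (1 : ℝ)) (c s)
          = if s < t then 1 else 0 := by
        intro t
        by_cases h : s < t
        · have hm : c s ∈ c '' Set.Iio t := ⟨s, h, rfl⟩
          rw [Set.indicator_of_mem hm, if_pos h]
        · have hn : c s ∉ c '' Set.Iio t := by
            rw [hc.injective.mem_set_image]
            exact h
          rw [Set.indicator_of_notMem hn, if_neg h]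
      simp_rw [key]
      rcases lt_or_gt_of_ne hs with h | h
      · have he : (fun t : Y => if s < t then (1 : ℝ) else 0) =ᶠ[𝓝 t₀] fun _ => 1 := by
          filter_upwards [lt_mem_nhds h] with t ht
          rw [if_pos ht]
        exact (continuousAt_const).congr he.symm
      · have he : (fun t : Y => if s < t then (1 : ℝ) else 0) =ᶠ[𝓝 t₀] fun _ => 0 := by
          filter_upwards [gt_mem_nhds h] with t ht
          rw [if_neg (not_lt.2 ht.le)]
        exact (continuousAt_const).congr he.symm
    · have hz : ∀ t : Y, (c '' Set.Iio t).indicator (fun _ => (1 : ℝ)) x = 0 := by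
        intro t
        apply Set.indicator_of_notMem
        rintro ⟨s, -, hs⟩
        exact hr ⟨s, hs⟩
      simp_rw [hz]
      exact continuousAt_const

/-- the measure of the part of an arc to the left of t is continuous and strictly increasing -/
theorem arc_meas {X : Type*} [TopologicalSpace X] [T2Space X]
    [MeasurableSpace X] [BorelSpace X] (μ : Measure X) [IsFiniteMeasure μ] [NullSingletonClass μ]
    [μ.IsOpenPosMeasure] {c : ℝ → X} (hc : IsOpenEmbedding c) :
    Continuous (fun t : ℝ => μ.real (c '' Set.Iio t)) ∧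
      StrictMono fun t : ℝ => μ.real (c '' Set.Iio t) := by
  exact ⟨gen_cont μ hc, gen_mono μ hc⟩

theorem end_meas {X : Type*} [TopologicalSpace X] [T2Space X]
    [MeasurableSpace X] [BorelSpace X] (μ : Measure X) [IsFiniteMeasure μ] [NullSingletonClass μ]
    [μ.IsOpenPosMeasure] {e : ℝ≥0 → X} (he : IsOpenEmbedding e) :
    Continuous (fun t : ℝ≥0 => μ.real (e '' Set.Iio t)) ∧
      StrictMono fun t : ℝ≥0 => μ.real (e '' Set.Iio t) := by
  exact ⟨gen_cont μ he, gen_mono μ he⟩

end Pool.Agent.H11.ST
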