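import Pool.Agent.H11.ST.SideA

/-! Moving along an arc. -/

set_option autoImplicit false

open scoped Topology NNReal
open Topology

namespace Pool.Agent.H11.ST

variable {X : Type*} [TopologicalSpace X] [T2Space X] [ConnectedSpace X]

/-- moving along an arc whose left part is on the side of p. Proof: B = (A ∪ {c s})ᶜ contains c(s, oo) by
side_local. t ≥ s: the set is A ∪ c(-oo, t), the complement of it and c t is B minus c[s, t] (compact).
t < s: the set is A minus c[t, s] (c s is not in A), the complement of it and c t is B ∪ c(t, oo). -/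
theorem side_move {p : X} {A : Set X} {c : ℝ → X} (hc : IsOpenEmbedding c) (hp : p ∉ Set.range c)
    {s : ℝ} (hA : IsSide p (c s) A) (hl : c '' Set.Iio s ⊆ A) (t : ℝ) :
    IsSide p (c t) ((A ∪ c '' Set.Iio t) \ c '' Set.Ici t) := by
  have hinj : Function.Injective c := hc.injective
  have hr : c '' Set.Ioi s ⊆ (A ∪ {c s})ᶜ := by
    rcases side_local hA hc (s := s) rfl with h | h
    · exact h.2
    · exfalso
      have h1 : c (s - 1) ∈ c '' Set.Iio s := ⟨s - 1, by simp, rfl⟩
      exact h.2 h1 (Or.inl (hl h1))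
  have hrA : ∀ r, s ≤ r → c r ∉ A := by
    intro r hr1 hr2
    rcases hr1.eq_or_lt with h | h
    · subst h; exact hA.2.2.2.1 hr2
    · exact hr ⟨r, h, rfl⟩ (Or.inl hr2)
  have hlA : ∀ r, r < s → c r ∈ A := fun r hr1 => hl ⟨r, hr1, rfl⟩
  have hcl : ∀ a b : ℝ, IsClosed (c '' Set.Icc a b) := fun a b =>
    (isCompact_Icc.image hc.continuous).isClosed
  refine ⟨?_, ?_, ⟨Or.inl hA.2.2.1, ?_⟩, ?_, ?_⟩
  · rcases le_or_gt s t with hst | hst
    · have : ((A ∪ c '' Set.Iio t) \ c '' Set.Ici t) = A ∪ c '' Set.Iio t := by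
        ext x
        constructor
        · exact fun h => h.1
        · intro h
          refine ⟨h, ?_⟩
          rintro ⟨r, hr1, rfl⟩
          rcases h with h | ⟨q, hq, hqr⟩
          · exact hrA r (hst.trans hr1) h
          · have := hinj hqr
            subst this
            exact absurd (show q < t from hq) (not_lt.2 hr1)
      rw [this]
      exact hA.1.union (hc.isOpenMap _ isOpen_Iio)
    · have : ((A ∪ c '' Set.Iio t) \ c '' Set.Ici t) = A \ c '' Set.Icc t s := by
        ext x
        constructor
        · rintro ⟨h1, h2⟩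
          refine ⟨?_, fun h => h2 ?_⟩
          · rcases h1 with h1 | ⟨r, hr1, rfl⟩
            · exact h1
            · exact hlA r (lt_trans hr1 hst)
          · rcases h with ⟨r, hr1, rfl⟩
            exact ⟨r, hr1.1, rfl⟩
        · rintro ⟨h1, h2⟩
          refine ⟨Or.inl h1, fun h => h2 ?_⟩
          rcases h with ⟨r, hr1, rfl⟩
          refine ⟨r, ⟨hr1, ?_⟩, rfl⟩
          by_contra h3
          exact hrA r (le_of_lt (not_le.1 h3)) h1
      rw [this]
      exact hA.1.sdiff (hcl t s)
  · rcases le_or_gt s t with hst | hst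
    · have : (((A ∪ c '' Set.Iio t) \ c '' Set.Ici t) ∪ {c t})ᶜ = (A ∪ {c s})ᶜ \ c '' Set.Icc s t := by
        ext x
        constructor
        · intro h
          have hxA : x ∉ A := by
            intro h1
            apply h
            left
            refine ⟨Or.inl h1, ?_⟩
            rintro ⟨r, hr1, rfl⟩
            exact hrA r (hst.trans hr1) h1
          have hx2 : ∀ r, r ≤ t → c r ≠ x := by
            intro r hr1 hr2
            apply h
            rcases hr1.eq_or_lt with h3 | h3
            · right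
              rw [← hr2, h3]
              rfl
            · left
              refine ⟨Or.inr ⟨r, h3, hr2⟩, ?_⟩
              rintro ⟨q, hq, hqr⟩
              have := hinj (hqr.trans hr2.symm)
              subst this
              exact absurd h3 (not_lt.2 hq)
          refine ⟨?_, ?_⟩
          · rintro (h1 | h1)
            · exact hxA h1
            · exact hx2 s hst h1.symm
          · rintro ⟨r, hr1, hr2⟩
            exact hx2 r hr1.2 hr2
        · rintro ⟨h1, h2⟩ h3
          rcases h3 with ⟨h3 | ⟨r, hr1, rfl⟩, h4⟩ | h3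
          · exact h1 (Or.inl h3)
          · rcases lt_or_ge r s with h5 | h5
            · exact h1 (Or.inl (hlA r h5))
            · exact h2 ⟨r, ⟨h5, le_of_lt hr1⟩, rfl⟩
          · exact h2 ⟨t, ⟨hst, le_refl t⟩, h3.symm⟩
      rw [this]
      exact hA.2.1.sdiff (hcl s t)
    · have : (((A ∪ c '' Set.Iio t) \ c '' Set.Ici t) ∪ {c t})ᶜ = (A ∪ {c s})ᶜ ∪ c '' Set.Ioi t := by
        ext x
        constructor
        · intro h
          by_cases h1 : x ∈ c '' Set.Ioi t
          · exact Or.inr h1
          · left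
            have hxt : c t ≠ x := fun h2 => h (Or.inr h2.symm)
            have hx3 : x ∉ c '' Set.Ici t := by
              rintro ⟨r, hr1, hr2⟩
              rcases (show t ≤ r from hr1).eq_or_lt with h3 | h3
              · subst h3; exact hxt hr2
              · exact h1 ⟨r, h3, hr2⟩
            rintro (h2 | h2)
            · exact h (Or.inl ⟨Or.inl h2, hx3⟩)
            · exact hx3 ⟨s, le_of_lt hst, h2.symm⟩
        · rintro (h1 | ⟨r, hr1, rfl⟩) h3
          · rcases h3 with ⟨h3 | ⟨r, hr1, rfl⟩, h4⟩ | h3
            · exact h1 (Or.inl h3)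
            · exact h1 (Or.inl (hlA r (lt_trans hr1 hst)))
            · rw [h3] at h1
              exact h1 (Or.inl (hlA t hst))
          · rcases h3 with ⟨h3, h4⟩ | h3
            · exact h4 ⟨r, le_of_lt (show t < r from hr1), rfl⟩
            · have := hinj h3
              subst this
              exact lt_irrefl _ (show r < r from hr1)
      rw [this]
      exact hA.2.1.union (hc.isOpenMap _ isOpen_Ioi)
  · rintro ⟨r, -, hr2⟩
    exact hp ⟨r, hr2⟩
  · rintro ⟨-, h⟩
    exact h ⟨t, le_refl t, rfl⟩
  · refine ⟨c (t + 1), ?_⟩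
    rintro (⟨-, h⟩ | h)
    · exact h ⟨t + 1, by simp, rfl⟩
    · have := hinj h
      linarith

omit [ConnectedSpace X] in
private theorem closed_Iic {e : ℝ≥0 → X} (he : IsOpenEmbedding e) (s : ℝ≥0) :
    IsClosed (e '' Set.Iic s) := by
  have h : (Set.Iic s : Set ℝ≥0) = Set.Icc 0 s := by
    ext x; simp
  rw [h]
  exact (isCompact_Icc.image he.continuous).isClosed

omit [TopologicalSpace X] [T2Space X] [ConnectedSpace X] in
private theorem Iio_union {e : ℝ≥0 → X} (s : ℝ≥0) :
    e '' Set.Iio s ∪ {e s} = e '' Set.Iic s := by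
  ext x
  constructor
  · rintro (⟨r, hr, rfl⟩ | h)
    · exact ⟨r, le_of_lt (show r < s from hr), rfl⟩
    · exact ⟨s, le_refl s, h.symm⟩
  · rintro ⟨r, hr, rfl⟩
    rcases (show r ≤ s from hr).eq_or_lt with h | h
    · right; rw [h]; rfl
    · left; exact ⟨r, h, rfl⟩

/-- the side of p in an arc starting at p (e [0, s] is compact) -/
theorem side_start {p : X} {e : ℝ≥0 → X} (he : IsOpenEmbedding e) (h0 : e 0 = p) {s : ℝ≥0}
    (hs : 0 < s) : IsSide p (e s) (e '' Set.Iio s) := by
  refine ⟨he.isOpenMap _ isOpen_Iio, ?_, ⟨0, hs, h0⟩, ?_, ?_⟩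
  · rw [Iio_union]
    exact (closed_Iic he s).isOpen_compl
  · rintro ⟨r, hr, hrs⟩
    have := he.injective hrs
    subst this
    exact lt_irrefl _ (show r < r from hr)
  · refine ⟨e (s + 1), ?_⟩
    rw [Iio_union]
    rintro ⟨r, hr, hrs⟩
    have := he.injective hrs
    subst this
    have h2 : s + 1 ≤ s := hr
    exact absurd h2 (not_le.2 (lt_add_one s))

/-- the side of p in an arc starting at another point -/
theorem side_end {p : X} {e : ℝ≥0 → X} (he : IsOpenEmbedding e) (hp : p ∉ Set.range e) {s : ℝ≥0}
    (hs : 0 < s) : IsSide p (e s) ((e '' Set.Iic s)ᶜ) := by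
  have hc : (((e '' Set.Iic s)ᶜ ∪ {e s})ᶜ : Set X) = e '' Set.Iio s := by
    ext x
    constructor
    · intro h
      by_contra h2
      apply h
      by_cases h3 : x ∈ e '' Set.Iic s
      · rw [← Iio_union] at h3
        rcases h3 with h3 | h3
        · exact absurd h3 h2
        · exact Or.inr h3
      · exact Or.inl h3
    · rintro ⟨r, hr, rfl⟩ (h | h)
      · exact h ⟨r, le_of_lt (show r < s from hr), rfl⟩
      · have := he.injective h
        subst this
        exact lt_irrefl _ (show r < r from hr)
  refine ⟨(closed_Iic he s).isOpen_compl, ?_, ?_, ?_, ?_⟩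
  · rw [hc]
    exact he.isOpenMap _ isOpen_Iio
  · rintro ⟨r, -, hr⟩
    exact hp ⟨r, hr⟩
  · intro h
    exact h ⟨s, le_refl s, rfl⟩
  · rw [hc]
    exact ⟨e 0, 0, hs, rfl⟩

end Pool.Agent.H11.ST
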