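import Pool.Agent.H11.ST.SideB
import Pool.Agent.H11.ST.SideC
import Pool.Agent.H11.ST.MeasB

/-! The measure of the side of p along an arc. -/

set_option autoImplicit false

open scoped Topology NNReal
open Topology MeasureTheory

namespace Pool.Agent.H11.ST

private theorem side_meas_left {X : Type*} [TopologicalSpace X] [T2Space X] [ConnectedSpace X]
    [MeasurableSpace X] [BorelSpace X] (μ : Measure X) [IsFiniteMeasure μ]
    {p : X} {c : ℝ → X} (hc : IsOpenEmbedding c) (hp : p ∉ Set.range c) {A0 : Set X}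
    (h0 : IsSide p (c 0) A0) (hl : c '' Set.Iio 0 ⊆ A0) (hr : c '' Set.Ioi 0 ⊆ (A0 ∪ {c 0})ᶜ)
    (t : ℝ) (A : Set X) (hA : IsSide p (c t) A) :
    μ.real A = μ.real A0 + μ.real (c '' Set.Iio t) - μ.real (c '' Set.Iio 0) := by
  have hAeq : A = (A0 ∪ c '' Set.Iio t) \ c '' Set.Ici t :=
    side_unique hA (side_move hc hp h0 hl t) hc rfl
  have hin0 : A0 ∩ Set.range c = c '' Set.Iio 0 := by
    ext x
    constructor
    · rintro ⟨hx, u, rfl⟩
      rcases lt_trichotomy u 0 with hu | hu | hu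
      · exact ⟨u, hu, rfl⟩
      · rw [hu] at hx
        exact absurd hx h0.2.2.2.1
      · exact absurd (Or.inl hx) (hr ⟨u, hu, rfl⟩)
    · rintro ⟨u, hu, rfl⟩
      exact ⟨hl ⟨u, hu, rfl⟩, u, rfl⟩
  have hin : A ∩ Set.range c = c '' Set.Iio t := by
    rw [hAeq]
    ext x
    constructor
    · rintro ⟨⟨_, hx⟩, u, rfl⟩
      rcases lt_or_ge u t with hu | hu
      · exact ⟨u, hu, rfl⟩
      · exact absurd ⟨u, hu, rfl⟩ hx
    · rintro ⟨u, hu, rfl⟩
      refine ⟨⟨Or.inr ⟨u, hu, rfl⟩, ?_⟩, u, rfl⟩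
      rintro ⟨u', hu', h⟩
      have h1 := hc.injective h
      rw [h1] at hu'
      have h2 : t ≤ u := hu'
      have h3 : u < t := hu
      linarith
  have hout : A \ Set.range c = A0 \ Set.range c := by
    rw [hAeq]
    ext x
    constructor
    · rintro ⟨⟨hx, _⟩, hn⟩
      rcases hx with hx | ⟨u, _, rfl⟩
      · exact ⟨hx, hn⟩
      · exact absurd ⟨u, rfl⟩ hn
    · rintro ⟨hx, hn⟩
      refine ⟨⟨Or.inl hx, ?_⟩, hn⟩
      rintro ⟨u, _, rfl⟩
      exact hn ⟨u, rfl⟩
  have hm : MeasurableSet (Set.range c) := hc.isOpen_range.measurableSet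
  have e1 := measureReal_inter_add_sdiff (μ := μ) (s := A) hm
  have e2 := measureReal_inter_add_sdiff (μ := μ) (s := A0) hm
  rw [hin, hout] at e1
  rw [hin0] at e2
  linarith

/-- Proof: side_local at c 0; c' = c or c' t = c (-t) so that the left half is on the side of p. By
side_move and side_unique the side at c' t is (A0 ∪ c' (-oo, t)) minus c' [t, oo), where A0 contains
c' (-oo, 0) and does not meet c' [0, oo). -/
theorem side_meas {X : Type*} [TopologicalSpace X] [T2Space X] [ConnectedSpace X]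
    [MeasurableSpace X] [BorelSpace X] (μ : Measure X) [IsFiniteMeasure μ]
    {p : X} {c : ℝ → X} (hc : IsOpenEmbedding c) (hp : p ∉ Set.range c) {A0 : Set X}
    (h0 : IsSide p (c 0) A0) :
    ∃ c' : ℝ → X, IsOpenEmbedding c' ∧ c' 0 = c 0 ∧ Set.range c' = Set.range c ∧
      ∀ (t : ℝ) (A : Set X), IsSide p (c' t) A →
        μ.real A = μ.real A0 + μ.real (c' '' Set.Iio t) - μ.real (c' '' Set.Iio 0) := by
  rcases side_local h0 hc (s := 0) rfl with ⟨hl, hr⟩ | ⟨hl, hr⟩
  · exact ⟨c, hc, rfl, rfl, side_meas_left μ hc hp h0 hl hr⟩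
  · obtain ⟨c', hc'⟩ : ∃ c' : ℝ → X, c' = fun t => c (-t) := ⟨_, rfl⟩
    have hemb : IsOpenEmbedding c' := by
      rw [hc']
      exact hc.comp (Homeomorph.neg ℝ).isOpenEmbedding
    have h00 : c' 0 = c 0 := by
      rw [hc']
      simp
    have hrange : Set.range c' = Set.range c := by
      rw [hc']
      exact (Homeomorph.neg ℝ).surjective.range_comp c
    have hIio : c' '' Set.Iio 0 ⊆ A0 := by
      rw [hc']
      rintro x ⟨u, hu, rfl⟩
      refine hl ⟨-u, ?_, rfl⟩
      have hu' : u < 0 := hu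
      show (0 : ℝ) < -u
      linarith
    have hIoi : c' '' Set.Ioi 0 ⊆ (A0 ∪ {c' 0})ᶜ := by
      rw [h00]
      rw [hc']
      rintro x ⟨u, hu, rfl⟩
      refine hr ⟨-u, ?_, rfl⟩
      have hu' : 0 < u := hu
      show -u < (0 : ℝ)
      linarith
    refine ⟨c', hemb, h00, hrange, ?_⟩
    rw [← h00] at h0
    rw [← hrange] at hp
    exact side_meas_left μ hemb hp h0 hIio hIoi

end Pool.Agent.H11.ST
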