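import Pool.Agent.H11.ST.Fib

/-! The slice at an interior point. -/

set_option autoImplicit false

open scoped ContDiff Topology

namespace Pool.Agent.H11.ST

open Pool.Agent.H66.SyL

variable {b : Bas} {L : Set (Op 3)}

private theorem real_pos {x p : ℂ} (hi : (x * (starRingEnd ℂ) p).im = 0)
    (hr : 0 < (x * (starRingEnd ℂ) p).re) :
    x * (starRingEnd ℂ) p = ((‖x‖ * ‖p‖ : ℝ) : ℂ) := by
  have h1 : x * (starRingEnd ℂ) p = (((x * (starRingEnd ℂ) p).re : ℝ) : ℂ) := by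
    apply Complex.ext
    · simp
    · rw [hi]; simp
  have h2 : ‖x * (starRingEnd ℂ) p‖ = (x * (starRingEnd ℂ) p).re := by
    conv_lhs => rw [h1]
    rw [Complex.norm_real, Real.norm_eq_abs, abs_of_pos hr]
  rw [norm_mul, RCLike.norm_conj] at h2
  rw [h1, ← h2]

private theorem key1 {x x' p : ℂ} (hp : p ≠ 0) (hn : ‖x‖ = ‖x'‖)
    (hi : (x * (starRingEnd ℂ) p).im = 0) (hr : 0 < (x * (starRingEnd ℂ) p).re)
    (hi' : (x' * (starRingEnd ℂ) p).im = 0) (hr' : 0 < (x' * (starRingEnd ℂ) p).re) :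
    x = x' := by
  have h := real_pos hi hr
  have h' := real_pos hi' hr'
  have hp' : (starRingEnd ℂ) p ≠ 0 := by
    intro h0
    apply hp
    have h1 := congrArg (starRingEnd ℂ) h0
    rw [Complex.conj_conj, map_zero (starRingEnd ℂ)] at h1
    exact h1
  apply mul_right_cancel₀ hp'
  rw [h, h', hn]

private theorem key2 {a a' p : ℂ} (h : a ^ 2 = a' ^ 2) (hr : 0 < (a * (starRingEnd ℂ) p).re)
    (hr' : 0 < (a' * (starRingEnd ℂ) p).re) : a = a' := by
  rcases sq_eq_sq_iff_eq_or_eq_neg.mp h with h1 | h1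
  · exact h1
  · exfalso
    rw [h1, neg_mul, Complex.neg_re] at hr
    linarith

private theorem key3 {x y x' y' c : ℂ} (hc : ‖c‖ = 1) (hx : x ≠ 0) (hx' : x' = c * x)
    (h : x * (starRingEnd ℂ) y = x' * (starRingEnd ℂ) y') : y' = c * y := by
  have hcc : c * (starRingEnd ℂ) c = 1 := by
    rw [Complex.mul_conj, Complex.normSq_eq_norm_sq, hc]
    simp
  have h1 : (starRingEnd ℂ) y = c * (starRingEnd ℂ) y' := by
    apply mul_left_cancel₀ hx
    rw [h, hx']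
    ring
  have h2 := congrArg (starRingEnd ℂ) h1
  rw [map_mul, Complex.conj_conj, Complex.conj_conj] at h2
  rw [h2, ← mul_assoc, hcc, one_mul]

/-- Proof: near P, Re (ent Q 0 1 * conj (ent P 0 1)) > 0, so with slI = 0 and norms ent Q 0 1 = ent Q' 0 1,
same for 2 3. ent 0 2 ^ 2 * |ent 1 3|^2 = (prj).1 * ent 0 1 * conj (ent 2 3) (L consists of pt z), so
ent 0 2 agrees up to sign, and the sign is + near P. Then all entries agree. -/
theorem sl_inj (hT : Toric b L) {P : Op 3} (hP : P ∈ L) (h0 : ent b P 0 0 ≠ 0)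
    (h2 : ent b P 2 2 ≠ 0) : ∃ W ∈ 𝓝 P, ∀ Q ∈ L ∩ W, ∀ Q' ∈ L ∩ W, slI b P Q = 0 → slI b P Q' = 0 →
      prj b Q = prj b Q' → Q = Q' := by
  obtain ⟨n00, n22, n01, n23, n02, n13⟩ := hT.norms hP
  have hp : (prj b P).2 ≠ 0 := by
    intro h
    apply h0
    rw [← norm_eq_zero, n00, h]
  have hq : 1 / 2 - (prj b P).2 ≠ 0 := by
    intro h
    apply h2
    rw [← norm_eq_zero, n22, h]
  have e01 : ent b P 0 1 ≠ 0 := by
    intro h
    rw [h, norm_zero] at n01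
    exact hp n01.symm
  have e23 : ent b P 2 3 ≠ 0 := by
    intro h
    rw [h, norm_zero] at n23
    exact hq n23.symm
  have e02 : ent b P 0 2 ≠ 0 := by
    intro h
    rw [h, norm_zero] at n02
    have h3 : (prj b P).2 * (1 / 2 - (prj b P).2) = 0 := by
      rw [← n02]; norm_num
    rcases mul_eq_zero.mp h3 with h4 | h4
    · exact hp h4
    · exact hq h4
  have pos : ∀ i j, ent b P i j ≠ 0 →
      {Q : Op 3 | 0 < (ent b Q i j * (starRingEnd ℂ) (ent b P i j)).re} ∈ 𝓝 P := by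
    intro i j h
    apply IsOpen.mem_nhds
    · exact isOpen_lt continuous_const
        (Complex.continuous_re.comp ((continuous_ent b i j).mul continuous_const))
    · show 0 < (ent b P i j * (starRingEnd ℂ) (ent b P i j)).re
      rw [Complex.mul_conj, Complex.ofReal_re]
      exact Complex.normSq_pos.mpr h
  refine ⟨_, Filter.inter_mem (Filter.inter_mem (pos 0 1 e01) (pos 2 3 e23)) (pos 0 2 e02), ?_⟩
  rintro Q ⟨hQ, ⟨hQ1, hQ2⟩, hQ3⟩ Q' ⟨hQ', ⟨hQ1', hQ2'⟩, hQ3'⟩ hs hs' hpr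
  obtain ⟨m00, m22, m01, m23, m02, m13⟩ := hT.norms hQ
  obtain ⟨m00', m22', m01', m23', m02', m13'⟩ := hT.norms hQ'
  have a01 : ent b Q 0 1 = ent b Q' 0 1 := by
    refine key1 e01 ?_ ?_ hQ1 ?_ hQ1'
    · rw [m01, m01', hpr]
    · exact congrArg Prod.fst hs
    · exact congrArg Prod.fst hs'
  have a23 : ent b Q 2 3 = ent b Q' 2 3 := by
    refine key1 e23 ?_ ?_ hQ2 ?_ hQ2'
    · rw [m23, m23', hpr]
    · exact congrArg Prod.snd hs
    · exact congrArg Prod.snd hs'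
  obtain ⟨z, hz, rfl⟩ := hT.unit Q hQ
  obtain ⟨z', hz', rfl⟩ := hT.unit Q' hQ'
  have hQ3a : ent b (pt z) 0 2 ≠ 0 := by
    intro h
    have h1 : 0 < (ent b (pt z) 0 2 * (starRingEnd ℂ) (ent b P 0 2)).re := hQ3
    rw [h, zero_mul, Complex.zero_re] at h1
    exact lt_irrefl _ h1
  have nz0 : (prj b (pt z)).2 * (1 / 2 - (prj b (pt z)).2) ≠ 0 := by
    rw [← m02]
    exact pow_ne_zero 2 (norm_ne_zero_iff.mpr hQ3a)
  have rel : ∀ w : E 3, ent b (pt w) 0 2 ^ 2 * ((‖ent b (pt w) 1 3‖ ^ 2 : ℝ) : ℂ) =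
      (prj b (pt w)).1 * ent b (pt w) 0 1 * (starRingEnd ℂ) (ent b (pt w) 2 3) := by
    intro w
    rw [← Complex.normSq_eq_norm_sq, ← Complex.mul_conj, prj_pt]
    simp only [ent_pt, map_mul, Complex.conj_conj]
    ring
  have asq : ent b (pt z) 0 2 ^ 2 = ent b (pt z') 0 2 ^ 2 := by
    have r1 := rel z
    have r2 := rel z'
    rw [m13] at r1
    rw [m13'] at r2
    rw [← a01, ← a23, ← hpr, ← r1] at r2
    have hne : (((prj b (pt z)).2 * (1 / 2 - (prj b (pt z)).2) : ℝ) : ℂ) ≠ 0 := by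
      exact_mod_cast nz0
    exact (mul_right_cancel₀ hne r2).symm
  have a02 : ent b (pt z) 0 2 = ent b (pt z') 0 2 := key2 asq hQ3 hQ3'
  have b01 : inner ℂ (b 0) z * (starRingEnd ℂ) (inner ℂ (b 1) z) =
      inner ℂ (b 0) z' * (starRingEnd ℂ) (inner ℂ (b 1) z') := by
    rw [← ent_pt, ← ent_pt]; exact a01
  have b02 : inner ℂ (b 0) z * (starRingEnd ℂ) (inner ℂ (b 2) z) =
      inner ℂ (b 0) z' * (starRingEnd ℂ) (inner ℂ (b 2) z') := by
    rw [← ent_pt, ← ent_pt]; exact a02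
  have b23 : inner ℂ (b 2) z * (starRingEnd ℂ) (inner ℂ (b 3) z) =
      inner ℂ (b 2) z' * (starRingEnd ℂ) (inner ℂ (b 3) z') := by
    rw [← ent_pt, ← ent_pt]; exact a23
  have c0 : inner ℂ (b 0) z ≠ 0 := by
    intro h
    apply hQ3a
    rw [ent_pt, h, zero_mul]
  have c2 : inner ℂ (b 2) z ≠ 0 := by
    intro h
    apply hQ3a
    rw [ent_pt, h, map_zero (starRingEnd ℂ), mul_zero]
  have n0 : ‖inner ℂ (b 0) z'‖ = ‖inner ℂ (b 0) z‖ := by
    have h1 := congrArg Prod.snd hpr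
    rw [prj_pt, prj_pt] at h1
    have h3 : ‖inner ℂ (b 0) z‖ ^ 2 = ‖inner ℂ (b 0) z'‖ ^ 2 := h1
    exact ((sq_eq_sq₀ (norm_nonneg _) (norm_nonneg _)).mp h3).symm
  have hc : ‖inner ℂ (b 0) z' / inner ℂ (b 0) z‖ = 1 := by
    rw [norm_div, n0, div_self (norm_ne_zero_iff.mpr c0)]
  have d0 : inner ℂ (b 0) z' = inner ℂ (b 0) z' / inner ℂ (b 0) z * inner ℂ (b 0) z := by
    rw [div_mul_cancel₀ _ c0]
  have d1 := key3 hc c0 d0 b01
  have d2 := key3 hc c0 d0 b02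
  have d3 := key3 hc c2 d2 b23
  symm
  refine pt_eq_of_coord b hc ?_
  intro i
  fin_cases i
  · exact d0
  · exact d1
  · exact d2
  · exact d3

end Pool.Agent.H11.ST
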