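import Pool.Agent.H11.ST.Fib

/-! Rotating into the slice at an interior point. -/

set_option autoImplicit false

open scoped ContDiff Topology

namespace Pool.Agent.H11.ST

open Pool.Agent.H66.SyL

variable {b : Bas} {L : Set (Op 3)}

private theorem slr_arg (u : ℂ) :
    Complex.exp (((-Complex.arg u : ℝ) : ℂ) * Complex.I) * u = ((‖u‖ : ℝ) : ℂ) := by
  have h := Complex.norm_mul_exp_arg_mul_I u
  calc Complex.exp (((-Complex.arg u : ℝ) : ℂ) * Complex.I) * u
      = Complex.exp (((-Complex.arg u : ℝ) : ℂ) * Complex.I) *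
        ((‖u‖ : ℂ) * Complex.exp ((Complex.arg u : ℂ) * Complex.I)) := by rw [h]
    _ = (‖u‖ : ℂ) * (Complex.exp (((-Complex.arg u : ℝ) : ℂ) * Complex.I) *
        Complex.exp ((Complex.arg u : ℂ) * Complex.I)) := by ring
    _ = ((‖u‖ : ℝ) : ℂ) := by
        rw [← Complex.exp_add]
        have : ((-Complex.arg u : ℝ) : ℂ) * Complex.I + (Complex.arg u : ℂ) * Complex.I = 0 := by
          push_cast
          ring
        rw [this, Complex.exp_zero, mul_one]

private theorem slr_self {P : Op 3} {i j : Fin (3 + 1)} (h : ent b P i j ≠ 0) :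
    0 < (ent b P i j * (starRingEnd ℂ) (ent b P i j)).re := by
  rw [Complex.mul_conj, Complex.ofReal_re]
  exact Complex.normSq_pos.2 h

private theorem slr_tend {u : Op 3 → ℂ} (hc : Continuous u) {R : Op 3} (hre : 0 < (u R).re)
    (him : (u R).im = 0) : Filter.Tendsto (fun Q => -(Complex.arg (u Q)) / 2) (𝓝 R) (𝓝 0) := by
  have huR : Complex.arg (u R) = 0 := Complex.arg_eq_zero_iff.2 ⟨hre.le, him⟩
  have hcont : ContinuousAt Complex.arg (u R) := Complex.continuousAt_arg (Or.inl hre)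
  have h3 : Filter.Tendsto (fun Q => Complex.arg (u Q)) (𝓝 R) (𝓝 (Complex.arg (u R))) :=
    hcont.tendsto.comp (hc.tendsto R)
  have h4 := (h3.neg).div_const 2
  rw [huR, neg_zero, zero_div] at h4
  exact h4

/-- Proof: g Q = ent Q 0 1 * conj (ent P 0 1) is a positive real at R (W : Re g > 0),
α = - arg (g Q) / 2 is continuous and 0 at R, ent_tor; β with 2 3; tor α β Q tends to R. -/
theorem sl_rot (hT : Toric b L) {P : Op 3} (hP : P ∈ L) (h0 : ent b P 0 0 ≠ 0)
    (h2 : ent b P 2 2 ≠ 0) : ∃ W ∈ 𝓝 P, ∀ R ∈ L ∩ W, slI b P R = 0 → ∀ V ∈ 𝓝 R,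
      ∀ᶠ Q in 𝓝[L] R, ∃ α β : ℝ, tor b α β Q ∈ V ∧ slI b P (tor b α β Q) = 0 := by
  obtain ⟨n1, n2, n3, n4, _, _⟩ := hT.norms hP
  have e1 : ent b P 0 1 ≠ 0 := by
    rw [← norm_ne_zero_iff, n3, ← n1, norm_ne_zero_iff]
    exact h0
  have e2 : ent b P 2 3 ≠ 0 := by
    rw [← norm_ne_zero_iff, n4, ← n2, norm_ne_zero_iff]
    exact h2
  set u : Op 3 → ℂ := fun Q => ent b Q 0 1 * (starRingEnd ℂ) (ent b P 0 1) with hu
  set v : Op 3 → ℂ := fun Q => ent b Q 2 3 * (starRingEnd ℂ) (ent b P 2 3) with hv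
  have hcu : Continuous u := (continuous_ent b 0 1).mul continuous_const
  have hcv : Continuous v := (continuous_ent b 2 3).mul continuous_const
  have hPu : 0 < (u P).re := slr_self e1
  have hPv : 0 < (v P).re := slr_self e2
  refine ⟨{Q | 0 < (u Q).re} ∩ {Q | 0 < (v Q).re}, Filter.inter_mem
    ((isOpen_lt continuous_const (Complex.continuous_re.comp hcu)).mem_nhds hPu)
    ((isOpen_lt continuous_const (Complex.continuous_re.comp hcv)).mem_nhds hPv), ?_⟩
  rintro R ⟨hR, hRu, hRv⟩ hsl V hV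
  have h1 : (u R).im = 0 := congrArg Prod.fst hsl
  have h3 : (v R).im = 0 := congrArg Prod.snd hsl
  have ha := slr_tend hcu (show 0 < (u R).re from hRu) h1
  have hb := slr_tend hcv (show 0 < (v R).re from hRv) h3
  set alp : Op 3 → ℝ := fun Q => -(Complex.arg (u Q)) / 2 with halp
  set bet : Op 3 → ℝ := fun Q => -(Complex.arg (v Q)) / 2 with hbet
  have key : ∀ Q, slI b P (tor b (alp Q) (bet Q) Q) = 0 := by
    intro Q
    have w0 : wt (alp Q) (bet Q) 0 - wt (alp Q) (bet Q) 1 = -Complex.arg (u Q) := by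
      show alp Q - -alp Q = _
      simp only [halp]
      ring
    have w1 : wt (alp Q) (bet Q) 2 - wt (alp Q) (bet Q) 3 = -Complex.arg (v Q) := by
      show bet Q - -bet Q = _
      simp only [hbet]
      ring
    unfold slI
    rw [ent_tor, ent_tor, w0, w1, mul_assoc, mul_assoc]
    have h5 : Complex.exp (((-Complex.arg (u Q) : ℝ) : ℂ) * Complex.I) *
        (ent b Q 0 1 * (starRingEnd ℂ) (ent b P 0 1)) = ((‖u Q‖ : ℝ) : ℂ) := slr_arg (u Q)
    have h6 : Complex.exp (((-Complex.arg (v Q) : ℝ) : ℂ) * Complex.I) *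
        (ent b Q 2 3 * (starRingEnd ℂ) (ent b P 2 3)) = ((‖v Q‖ : ℝ) : ℂ) := slr_arg (v Q)
    rw [h5, h6, Complex.ofReal_im, Complex.ofReal_im]
    rfl
  have ht : Filter.Tendsto (fun Q => tor b (alp Q) (bet Q) Q) (𝓝 R) (𝓝 R) := by
    have h6 : Filter.Tendsto (fun Q : Op 3 => ((alp Q, bet Q, Q) : ℝ × ℝ × Op 3)) (𝓝 R)
        (𝓝 (0, 0, R)) := ha.prodMk_nhds (hb.prodMk_nhds Filter.tendsto_id)
    have h7 := ((continuous_tor b).tendsto ((0, 0, R) : ℝ × ℝ × Op 3)).comp h6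
    have h8 : tor b ((0, 0, R) : ℝ × ℝ × Op 3).1 ((0, 0, R) : ℝ × ℝ × Op 3).2.1
        ((0, 0, R) : ℝ × ℝ × Op 3).2.2 = R := tor_zero b R
    rw [h8] at h7
    exact h7
  have main : ∀ᶠ Q in 𝓝 R, tor b (alp Q) (bet Q) Q ∈ V := ht.eventually_mem hV
  exact (main.filter_mono nhdsWithin_le_nhds).mono fun Q hQ => ⟨alp Q, bet Q, hQ, key Q⟩

end Pool.Agent.H11.ST
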