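import Pool.Agent.H11.ST.Fib
import Pool.Agent.H66.SyL.MomA

/-! The slice functions are a submersion on L at interior points. -/

set_option autoImplicit false

open scoped ContDiff Topology

namespace Pool.Agent.H11.ST

open Pool.Agent.H66.SyL

variable {b : Bas} {L : Set (Op 3)}

private theorem wt_smul (s α β : ℝ) : wt (s * α) (s * β) = s • wt α β := by
  funext k
  fin_cases k <;> simp [wt]

private theorem tor_smul (b : Bas) (s α β : ℝ) (P : Op 3) :
    tor b (s * α) (s * β) P = act b (s • wt α β) P := by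
  rw [tor, wt_smul]

/-- the slice functions along a torus orbit -/
private theorem slI_tor (b : Bas) (α β : ℝ) (P : Op 3) :
    slI b P (tor b α β P) =
      (Real.sin (2 * α) * ‖ent b P 0 1‖ ^ 2, Real.sin (2 * β) * ‖ent b P 2 3‖ ^ 2) := by
  have key : ∀ (c : ℂ) (x : ℝ), (Complex.exp ((x : ℂ) * Complex.I) * c * (starRingEnd ℂ) c).im =
      Real.sin x * ‖c‖ ^ 2 := by
    intro c x
    rw [mul_assoc, Complex.mul_conj, Complex.normSq_eq_norm_sq, Complex.im_mul_ofReal,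
      Complex.exp_ofReal_mul_I_im]
  unfold slI
  rw [ent_tor, ent_tor]
  have h1 : wt α β 0 - wt α β 1 = 2 * α := by
    show α - -α = 2 * α
    ring
  have h2 : wt α β 2 - wt α β 3 = 2 * β := by
    show β - -β = 2 * β
    ring
  rw [h1, h2, key, key]

private theorem step (hT : Toric b L) (C : LChart L) {P : Op 3} (hP : P ∈ L ∩ C.U) (α β : ℝ) :
    ∃ y : R 3, fderiv ℝ (fun x => slI b P (C.p x)) (C.r P) y =
      (2 * α * ‖ent b P 0 1‖ ^ 2, 2 * β * ‖ent b P 2 3‖ ^ 2) := by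
  have h0 : act b ((0 : ℝ) • wt α β) P = P := by
    rw [zero_smul, act_zero]
  have hmem : ∀ s : ℝ, act b (s • wt α β) P ∈ L := by
    intro s
    rw [← tor_smul]
    exact hT.inv _ _ P hP.1
  have hX := hasDerivAt_act b (wt α β) P 0
  obtain ⟨y, _, hy2, _⟩ := curve_deriv C (Filter.Eventually.of_forall hmem)
    (by show act b ((0 : ℝ) • wt α β) P ∈ C.U
        rw [h0]; exact hP.2) hX
  refine ⟨y, ?_⟩
  have hball : C.r P ∈ Metric.ball C.x0 C.δ := C.r_mem _ hP
  have hp : DifferentiableAt ℝ C.p (C.r P) :=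
    (C.smooth_p.contDiffAt (Metric.isOpen_ball.mem_nhds hball)).differentiableAt (by norm_num)
  have hF : DifferentiableAt ℝ (slI b P) (C.p (C.r P)) :=
    ((contDiff_slI b P).differentiable (by norm_num)) _
  have hF0 : HasFDerivAt (slI b P) (fderiv ℝ (slI b P) (C.p (C.r P)))
      (act b ((0 : ℝ) • wt α β) P) := by
    rw [h0, C.p_r P hP]
    rw [C.p_r P hP] at hF
    exact hF.hasFDerivAt
  have hcomp := hF0.comp_hasDerivAt (0 : ℝ) hX
  have hsin : HasDerivAt (fun s : ℝ =>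
      (Real.sin (2 * (s * α)) * ‖ent b P 0 1‖ ^ 2, Real.sin (2 * (s * β)) * ‖ent b P 2 3‖ ^ 2))
      (2 * α * ‖ent b P 0 1‖ ^ 2, 2 * β * ‖ent b P 2 3‖ ^ 2) 0 := by
    have hs : ∀ a c : ℝ, HasDerivAt (fun s : ℝ => Real.sin (2 * (s * a)) * c) (2 * a * c) 0 := by
      intro a c
      have h1 : HasDerivAt (fun s : ℝ => 2 * (s * a)) (2 * (1 * a)) 0 :=
        ((hasDerivAt_id (0 : ℝ)).mul_const a).const_mul 2
      have h2 := (h1.sin).mul_const c
      have h3 : Real.cos (2 * ((0 : ℝ) * a)) * (2 * (1 * a)) * c = 2 * a * c := by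
        rw [zero_mul, mul_zero, Real.cos_zero]
        ring
      rw [← h3]
      exact h2
    exact (hs α _).prodMk (hs β _)
  have hfun : (slI b P ∘ fun t : ℝ => act b (t • wt α β) P) = fun s : ℝ =>
      (Real.sin (2 * (s * α)) * ‖ent b P 0 1‖ ^ 2,
        Real.sin (2 * (s * β)) * ‖ent b P 2 3‖ ^ 2) := by
    funext s
    show slI b P (act b (s • wt α β) P) = _
    rw [← tor_smul, slI_tor]
  rw [hfun] at hcomp
  have huniq := hcomp.unique hsin
  have hfd : fderiv ℝ (fun x => slI b P (C.p x)) (C.r P) =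
      (fderiv ℝ (slI b P) (C.p (C.r P))).comp (fderiv ℝ C.p (C.r P)) :=
    fderiv_comp (C.r P) hF hp
  rw [hfd, ContinuousLinearMap.comp_apply, ← huniq, hy2, h0]

/-- Proof: the curves t -> tor t 0 P and t -> tor 0 t P lie in L, curve_deriv gives y1, y2 with
Dp y1, Dp y2 their velocities; slI (tor t 0 P) = (sin (2 t) |ent 0 1|^2, 0),
slI (tor 0 t P) = (0, sin (2 t) |ent 2 3|^2) by ent_tor; the entries are nonzero by norms. -/
theorem sub_i (hT : Toric b L) (C : LChart L) {P : Op 3} (hP : P ∈ L ∩ C.U)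
    (h0 : ent b P 0 0 ≠ 0) (h2 : ent b P 2 2 ≠ 0) :
    Function.Surjective (fderiv ℝ (fun x => slI b P (C.p x)) (C.r P)) := by
  obtain ⟨n1, n2, n3, n4, _, _⟩ := hT.norms hP.1
  have e1 : ‖ent b P 0 1‖ ≠ 0 := by
    rw [n3, ← n1]
    exact norm_ne_zero_iff.2 h0
  have e2 : ‖ent b P 2 3‖ ≠ 0 := by
    rw [n4, ← n2]
    exact norm_ne_zero_iff.2 h2
  rintro ⟨u, v⟩
  obtain ⟨y, hy⟩ := step hT C hP (u / (2 * ‖ent b P 0 1‖ ^ 2)) (v / (2 * ‖ent b P 2 3‖ ^ 2))
  refine ⟨y, ?_⟩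
  rw [hy]
  refine Prod.ext ?_ ?_
  · show 2 * (u / (2 * ‖ent b P 0 1‖ ^ 2)) * ‖ent b P 0 1‖ ^ 2 = u
    field_simp
  · show 2 * (v / (2 * ‖ent b P 2 3‖ ^ 2)) * ‖ent b P 2 3‖ ^ 2 = v
    field_simp

end Pool.Agent.H11.ST
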