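import Pool.Agent.H11.ST.OpP
import Pool.Agent.H11.ST.ArcA
import Pool.Agent.H11.ST.ImpI
import Pool.Agent.H11.ST.SubI
import Pool.Agent.H11.ST.SlI
import Pool.Agent.H11.ST.SlR

/-! The reduced curve is an arc near an interior point. -/

set_option autoImplicit false

open scoped ContDiff Topology
open Topology

namespace Pool.Agent.H11.ST

open Pool.Agent.H66.SyL

variable {b : Bas} {L : Set (Op 3)}

private theorem slI_self (P : Op 3) : slI b P P = 0 := by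
  unfold slI
  rw [Complex.mul_conj, Complex.mul_conj]
  rfl

/-- Proof: chart C (exists_lchart), W from sl_inj and sl_rot, (ε, σ, κ, O) from imp_i with sub_i for
f = slI b P. c t = prj (σ t). Injective by sl_inj. Open: R = σ t, J nbhd of t: V = nbhd of R in O where
κ in J on L; sl_rot: for Q in L near R, tor α β Q in L cap V is in the slice, equal to σ (κ ..); open_prj.
Then arc_of. -/
theorem loc_i (hL : IsLagrangian L) (hc : IsCompact L) (hT : Toric b L) {P : Op 3} (hP : P ∈ L)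
    (h0 : ent b P 0 0 ≠ 0) (h2 : ent b P 2 2 ≠ 0) :
    ArcAt (⟨prj b P, Set.mem_image_of_mem _ hP⟩ : prj b '' L) := by
  obtain ⟨C, hPC⟩ := exists_lchart hL hP
  obtain ⟨W1, hW1, hinj⟩ := sl_inj hT hP h0 h2
  obtain ⟨W2, hW2, hrot⟩ := sl_rot hT hP h0 h2
  obtain ⟨ε, σ, κ, O, hε, hO, hPO, hOW, hσ, hκ, hσ0, h3, h4⟩ :=
    imp_i C ⟨hP, hPC⟩ (slI b P) (contDiff_slI b P) (slI_self P) (sub_i hT C ⟨hP, hPC⟩ h0 h2)
      (Filter.inter_mem hW1 hW2)
  have hmem : prj b (σ 0) ∈ prj b '' L := by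
    rw [hσ0]
    exact Set.mem_image_of_mem _ hP
  have key := arc_of (prj b '' L) (c := fun t => prj b (σ t)) hε
    ((continuous_prj b).comp_continuousOn hσ)
    (by
      intro s hs t ht hst
      obtain ⟨s1, s2, s3⟩ := h3 s hs
      obtain ⟨t1, t2, t3⟩ := h3 t ht
      have h5 : σ s = σ t := hinj _ ⟨s1.1, (hOW s1.2).1⟩ _ ⟨t1.1, (hOW t1.2).1⟩ s2 t2 hst
      rw [← s3, ← t3, h5])
    (by
      intro t ht
      exact Set.mem_image_of_mem _ (h3 t ht).1.1)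
    (by
      intro t ht J hJ
      obtain ⟨t1, t2, t3⟩ := h3 t ht
      have h5 : κ ⁻¹' J ∈ 𝓝[L ∩ O] (σ t) := by
        refine (hκ (σ t) t1).preimage_mem_nhdsWithin ?_
        rw [t3]
        exact hJ
      obtain ⟨V1, hV1, hV2⟩ := mem_nhdsWithin_iff_exists_mem_nhds_inter.1 h5
      have hV : V1 ∩ O ∈ 𝓝 (σ t) := Filter.inter_mem hV1 (hO.mem_nhds t1.2)
      have h6 := hrot (σ t) ⟨t1.1, (hOW t1.2).2⟩ t2 (V1 ∩ O) hV
      have h7 := hT.open_prj hc t1.1 h6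
      filter_upwards [h7] with w hw
      obtain ⟨Q, ⟨hQL, α, β, hQ1, hQ2⟩, hQw⟩ := hw
      have hQ3 : tor b α β Q ∈ L := hT.inv α β Q hQL
      obtain ⟨h8, h9⟩ := h4 _ ⟨hQ3, hQ1.2⟩ hQ2
      refine ⟨κ (tor b α β Q), ⟨hV2 ⟨hQ1.1, hQ3, hQ1.2⟩, h8⟩, ?_⟩
      show prj b (σ (κ (tor b α β Q))) = w
      rw [h9, prj_tor, hQw])
    hmem
  have e : (⟨prj b (σ 0), hmem⟩ : prj b '' L) = ⟨prj b P, Set.mem_image_of_mem _ hP⟩ :=
    Subtype.ext (congrArg (prj b) hσ0)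
  rw [← e]
  exact key

end Pool.Agent.H11.ST
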