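import Pool.Agent.H11.ST.Fib

/-! Rotating into the half slice at a pole. -/

set_option autoImplicit false

open scoped ContDiff Topology

namespace Pool.Agent.H11.ST

open Pool.Agent.H66.SyL

variable {b : Bas} {L : Set (Op 3)}

private theorem exp_arg (x : ℂ) : Complex.exp (((-Complex.arg x : ℝ) : ℂ) * Complex.I) * x = ((‖x‖ : ℝ) : ℂ) := by
  have h := Complex.norm_mul_exp_arg_mul_I x
  calc Complex.exp (((-Complex.arg x : ℝ) : ℂ) * Complex.I) * x
      = Complex.exp (((-Complex.arg x : ℝ) : ℂ) * Complex.I) *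
        ((‖x‖ : ℂ) * Complex.exp ((Complex.arg x : ℂ) * Complex.I)) := by rw [h]
    _ = (‖x‖ : ℂ) * (Complex.exp (((-Complex.arg x : ℝ) : ℂ) * Complex.I) *
        Complex.exp ((Complex.arg x : ℂ) * Complex.I)) := by ring
    _ = ((‖x‖ : ℝ) : ℂ) := by
        rw [← Complex.exp_add]
        have : ((-Complex.arg x : ℝ) : ℂ) * Complex.I + (Complex.arg x : ℂ) * Complex.I = 0 := by
          push_cast
          ring
        rw [this, Complex.exp_zero, mul_one]

/-- a point with `z_0 = 0` is fixed by the rotations with `β = 0` -/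
private theorem fix_pole (hT : Toric b L) {R : Op 3} (hR : R ∈ L) (h0 : (prj b R).2 = 0) (α : ℝ) :
    tor b α 0 R = R := by
  obtain ⟨z, hz, rfl⟩ := hT.unit R hR
  have h1 : inner ℂ (b 0) z = 0 := by
    rw [prj_pt] at h0
    have h2 : ‖inner ℂ (b 0) z‖ ^ 2 = 0 := h0
    exact norm_eq_zero.1 (pow_eq_zero_iff (two_ne_zero) |>.1 h2)
  have h2 : inner ℂ (b 1) z = 0 := by
    have := hT.eq01 z hz hR
    rw [h1, norm_zero] at this
    exact norm_eq_zero.1 this.symm
  refine eq_of_ent b fun i j => ?_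
  rw [ent_tor]
  have hz0 : ∀ i : Fin (3 + 1), (i = 0 ∨ i = 1) → inner ℂ (b i) z = 0 := by
    rintro i (rfl | rfl)
    · exact h1
    · exact h2
  have hw : ∀ i : Fin (3 + 1), ¬ (i = 0 ∨ i = 1) → wt α 0 i = 0 := by
    intro i hi
    fin_cases i
    · exact absurd (Or.inl rfl) hi
    · exact absurd (Or.inr rfl) hi
    · simp [wt]
    · simp [wt]
  by_cases hi : i = 0 ∨ i = 1
  · rw [ent_pt, hz0 i hi]
    simp
  · by_cases hj : j = 0 ∨ j = 1
    · rw [ent_pt, hz0 j hj]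
      simp
    · rw [hw i hi, hw j hj]
      simp

private theorem tube_gen {X Y : Type*} [TopologicalSpace X] [TopologicalSpace Y] (F : X × ℝ → Y) (hF : Continuous F)
    (x : X) (V : Set Y) (K : Set ℝ) (hK : IsCompact K) (h : ∀ a ∈ K, V ∈ 𝓝 (F (x, a))) :
    ∀ᶠ y in 𝓝 x, ∀ a ∈ K, F (y, a) ∈ V :=
  hK.eventually_forall_of_forall_eventually fun a ha => hF.continuousAt.preimage_mem_nhds (h a ha)

private theorem tube_c1 : Continuous fun z : (ℝ × Op 3) × ℝ => ((z.2, z.1.1, z.1.2) : ℝ × ℝ × Op 3) :=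
  continuous_snd.prodMk ((continuous_fst.comp continuous_fst).prodMk (continuous_snd.comp continuous_fst))

private theorem tube_c2 (b : Bas) : Continuous ((fun q : ℝ × ℝ × Op 3 => tor b q.1 q.2.1 q.2.2) ∘
    (fun z : (ℝ × Op 3) × ℝ => ((z.2, z.1.1, z.1.2) : ℝ × ℝ × Op 3))) := by
  exact Continuous.comp (continuous_tor b) tube_c1

private theorem tube_lim (hT : Toric b L) {R : Op 3} (hR : R ∈ L) (hr : (prj b R).2 = 0) {V : Set (Op 3)}
    (hV : V ∈ 𝓝 R) :
    ∀ᶠ x : ℝ × Op 3 in 𝓝 ((0 : ℝ), R), ∀ a ∈ Set.Icc (-8 : ℝ) 8, tor b a x.1 x.2 ∈ V := by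
  have h1 := tube_gen _ (tube_c2 b) ((0 : ℝ), R) V (Set.Icc (-8 : ℝ) 8) isCompact_Icc (fun a _ => by
    have h := fix_pole hT hR hr a
    have h2 : ((fun q : ℝ × ℝ × Op 3 => tor b q.1 q.2.1 q.2.2) ∘
      (fun z : (ℝ × Op 3) × ℝ => ((z.2, z.1.1, z.1.2) : ℝ × ℝ × Op 3))) (((0 : ℝ), R), a) = R := h
    rw [h2]
    exact hV)
  exact h1

/-- Proof: ent_tor: ent (tor α β Q) 0 2 = exp (i (α - β)) ent Q 0 2, ent (tor α β Q) 2 3 = exp (2 i β) ent Q 2 3.
β = - arg (ent Q 2 3 * conj (ent P 2 3)) / 2 (W: its real part is positive), α = β - arg (ent Q 0 2).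
If s > 0 both tend to 0. If s = 0 then R = P (z_0 = z_1 = 0, the phase of z_2 conj z_3 agrees) and
tor α 0 P = P for all α, α in the compact set [-4, 4] (tube lemma or act is an isometry). -/
theorem slp_rot (hT : Toric b L) {P : Op 3} (hP : P ∈ L) (h0 : ent b P 0 0 = 0) :
    ∃ W ∈ 𝓝 P, ∀ R ∈ L ∩ W, ∀ s : ℝ, 0 ≤ s → slP b P R = ((s : ℂ), 0) → ∀ V ∈ 𝓝 R,
      ∀ᶠ Q in 𝓝[L] R, ∃ α β : ℝ, tor b α β Q ∈ V ∧
        slP b P (tor b α β Q) = (((‖ent b Q 0 2‖ : ℝ) : ℂ), 0) := by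
  set u : Op 3 → ℂ := fun Q => ent b Q 2 3 * (starRingEnd ℂ) (ent b P 2 3) with hu
  have hc : Continuous u := (continuous_ent b 2 3).mul continuous_const
  have hPP : 0 < (u P).re := by
    obtain ⟨n1, _, _, n4, _, _⟩ := hT.norms hP
    rw [h0, norm_zero] at n1
    rw [← n1] at n4
    have h1 : u P = ((‖ent b P 2 3‖ ^ 2 : ℝ) : ℂ) := by
      simp only [hu]
      rw [Complex.mul_conj, Complex.normSq_eq_norm_sq]
    rw [h1, Complex.ofReal_re, n4]
    norm_num
  refine ⟨{Q | 0 < (u Q).re}, (isOpen_lt continuous_const (Complex.continuous_re.comp hc)).mem_nhds hPP, ?_⟩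
  rintro R ⟨hR, hRW⟩ s hs hsl V hV
  have hRW' : 0 < (u R).re := hRW
  have h1 : ent b R 0 2 = (s : ℂ) := congrArg Prod.fst hsl
  have h2 : (u R).im = 0 := congrArg Prod.snd hsl
  have huR : Complex.arg (u R) = 0 := Complex.arg_eq_zero_iff.2 ⟨hRW'.le, h2⟩
  have hcont : ContinuousAt Complex.arg (u R) := Complex.continuousAt_arg (Or.inl hRW')
  set bet : Op 3 → ℝ := fun Q => -(Complex.arg (u Q)) / 2 with hbet
  have hb : Filter.Tendsto bet (𝓝 R) (𝓝 0) := by
    have h3 : Filter.Tendsto (fun Q => Complex.arg (u Q)) (𝓝 R) (𝓝 (Complex.arg (u R))) :=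
      hcont.tendsto.comp (hc.tendsto R)
    have h4 := (h3.neg).div_const 2
    rw [huR, neg_zero, zero_div] at h4
    exact h4
  set alp : Op 3 → ℝ := fun Q => bet Q - Complex.arg (ent b Q 0 2) with halp
  have key : ∀ Q, slP b P (tor b (alp Q) (bet Q) Q) = (((‖ent b Q 0 2‖ : ℝ) : ℂ), 0) := by
    intro Q
    have w0 : wt (alp Q) (bet Q) 0 - wt (alp Q) (bet Q) 2 = -Complex.arg (ent b Q 0 2) := by
      simp only [wt, halp]
      simp
    have w1 : wt (alp Q) (bet Q) 2 - wt (alp Q) (bet Q) 3 = -Complex.arg (u Q) := by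
      simp only [wt, hbet]
      simp
    unfold slP
    rw [ent_tor, ent_tor, w0, w1, exp_arg, mul_assoc]
    have h5 : Complex.exp (((-Complex.arg (u Q) : ℝ) : ℂ) * Complex.I) *
        (ent b Q 2 3 * (starRingEnd ℂ) (ent b P 2 3)) = ((‖u Q‖ : ℝ) : ℂ) := exp_arg (u Q)
    rw [h5, Complex.ofReal_im]
  have main : ∀ᶠ Q in 𝓝 R, tor b (alp Q) (bet Q) Q ∈ V := by
    rcases hs.lt_or_eq with hpos | hzero
    · have h3 : Filter.Tendsto (fun Q => Complex.arg (ent b Q 0 2)) (𝓝 R) (𝓝 0) := by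
        have h4 : ContinuousAt Complex.arg (ent b R 0 2) := by
          rw [h1]
          exact Complex.continuousAt_arg (Or.inl (by rw [Complex.ofReal_re]; exact hpos))
        have h5 : Filter.Tendsto (fun Q => Complex.arg (ent b Q 0 2)) (𝓝 R) (𝓝 (Complex.arg (ent b R 0 2))) :=
          h4.tendsto.comp ((continuous_ent b 0 2).tendsto R)
        rw [h1, Complex.arg_ofReal_of_nonneg hs] at h5
        exact h5
      have ha : Filter.Tendsto alp (𝓝 R) (𝓝 0) := by
        have := hb.sub h3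
        rw [sub_zero] at this
        exact this
      have ht : Filter.Tendsto (fun Q => tor b (alp Q) (bet Q) Q) (𝓝 R) (𝓝 R) := by
        have h6 : Filter.Tendsto (fun Q : Op 3 => ((alp Q, bet Q, Q) : ℝ × ℝ × Op 3)) (𝓝 R) (𝓝 (0, 0, R)) :=
          ha.prodMk_nhds (hb.prodMk_nhds Filter.tendsto_id)
        have h7 := ((continuous_tor b).tendsto ((0, 0, R) : ℝ × ℝ × Op 3)).comp h6
        have h8 : tor b ((0, 0, R) : ℝ × ℝ × Op 3).1 ((0, 0, R) : ℝ × ℝ × Op 3).2.1 ((0, 0, R) : ℝ × ℝ × Op 3).2.2 = R :=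
          tor_zero b R
        rw [h8] at h7
        exact h7
      exact ht.eventually_mem hV
    · have hr : (prj b R).2 = 0 := by
        obtain ⟨n1, n2, _, n4, n5, _⟩ := hT.norms hR
        rw [h1, ← hzero, Complex.ofReal_zero, norm_zero] at n5
        have h9 : ent b R 2 3 ≠ 0 := by
          intro h
          simp only [hu, h, zero_mul, Complex.zero_re] at hRW'
          exact lt_irrefl _ hRW'
        have h10 : 1 / 2 - (prj b R).2 ≠ 0 := by
          rw [← n4]
          exact norm_ne_zero_iff.2 h9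
        have h11 : (prj b R).2 * (1 / 2 - (prj b R).2) = 0 := by
          rw [← n5]
          norm_num
        exact (mul_eq_zero.1 h11).resolve_right h10
      have htube := tube_lim hT hR hr hV
      have h12 : Filter.Tendsto (fun Q : Op 3 => ((bet Q, Q) : ℝ × Op 3)) (𝓝 R) (𝓝 ((0 : ℝ), R)) :=
        hb.prodMk_nhds Filter.tendsto_id
      filter_upwards [h12.eventually htube] with Q hQ
      refine hQ (alp Q) ?_
      have e1 := Complex.abs_arg_le_pi (u Q)
      have e2 := Complex.abs_arg_le_pi (ent b Q 0 2)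
      have e3 := Real.pi_lt_d2
      rw [abs_le] at e1 e2
      simp only [halp, hbet, Set.mem_Icc]
      constructor <;> linarith [e1.1, e1.2, e2.1, e2.2]
  exact (main.filter_mono nhdsWithin_le_nhds).mono fun Q hQ => ⟨alp Q, bet Q, hQ, key Q⟩

end Pool.Agent.H11.ST
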