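import Pool.Agent.H11.ST.Fib
import Pool.Agent.H66.SyL.Comp

/-! The pole coordinates are local coordinates on L. -/

set_option autoImplicit false

open scoped ContDiff Topology

namespace Pool.Agent.H11.ST

open Pool.Agent.H66.SyL

variable {b : Bas} {L : Set (Op 3)}

private theorem hasDerivAt_coord {γ : ℝ → E 3} {Y : E 3} (h : HasDerivAt γ Y 0) (i : Fin (3 + 1)) :
    HasDerivAt (fun t => inner ℂ (b i) (γ t)) (inner ℂ (b i) Y) 0 := by
  have h1 := (((innerSL ℂ (b i)).restrictScalars ℝ).hasFDerivAt (x := γ 0)).comp_hasDerivAt 0 h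
  exact h1

private theorem hasDerivAt_conj {f : ℝ → ℂ} {f' : ℂ} (h : HasDerivAt f f' 0) :
    HasDerivAt (fun t => (starRingEnd ℂ) (f t)) ((starRingEnd ℂ) f') 0 := by
  have h1 := ((Complex.conjCLE : ℂ ≃L[ℝ] ℂ).toContinuousLinearMap.hasFDerivAt
    (x := f 0)).comp_hasDerivAt 0 h
  exact h1

/-- a vanishing derivative is inherited by a function of the same modulus -/
private theorem deriv_zero_of_norm {f g : ℝ → ℂ} {g' : ℂ} (hf : HasDerivAt f 0 0)
    (hg : HasDerivAt g g' 0) (f0 : f 0 = 0) (g0 : g 0 = 0)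
    (h : ∀ᶠ t in 𝓝 (0 : ℝ), ‖f t‖ = ‖g t‖) : g' = 0 := by
  have h1 : HasDerivAt g 0 0 := by
    rw [hasDerivAt_iff_isLittleO] at hf ⊢
    simp only [f0, g0, sub_zero, smul_zero] at hf ⊢
    have h2 : (fun t => ‖g t‖) =o[𝓝 (0 : ℝ)] fun t : ℝ => t := by
      refine (hf.norm_left).congr' ?_ (Filter.EventuallyEq.refl _ _)
      exact h
    exact h2.of_norm_left
  exact hg.unique h1

private theorem inner_sum_coord (z y : E 3) :
    inner ℂ z y = ∑ i, (starRingEnd ℂ) (inner ℂ (b i) z) * inner ℂ (b i) y := by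
  rw [← b.sum_inner_mul_inner z y]
  refine Finset.sum_congr rfl fun i _ => ?_
  rw [inner_conj_symm]

private theorem alg_last {z2 z3 Y2 Y3 : ℂ} (a2 : z2 ≠ 0) (a3 : z3 ≠ 0)
    (nn : Complex.normSq z2 = Complex.normSq z3)
    (g2 : Complex.imCLM ((Y2 * (starRingEnd ℂ) z3 + z2 * (starRingEnd ℂ) Y3) *
      (starRingEnd ℂ) (z2 * (starRingEnd ℂ) z3)) = 0)
    (g3 : Y2 * (starRingEnd ℂ) z2 + z2 * (starRingEnd ℂ) Y2 =
      Y3 * (starRingEnd ℂ) z3 + z3 * (starRingEnd ℂ) Y3)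
    (g4 : (starRingEnd ℂ) z2 * Y2 + (starRingEnd ℂ) z3 * Y3 = 0) : Y2 = 0 ∧ Y3 = 0 := by
  have hN : 0 < Complex.normSq z3 := Complex.normSq_pos.2 a3
  have e1 : (Y2 * (starRingEnd ℂ) z3 + z2 * (starRingEnd ℂ) Y3) *
      (starRingEnd ℂ) (z2 * (starRingEnd ℂ) z3) =
      ((Complex.normSq z3 : ℝ) : ℂ) * ((starRingEnd ℂ) z2 * Y2 +
        (starRingEnd ℂ) ((starRingEnd ℂ) z3 * Y3)) := by
    have h1 : z2 * (starRingEnd ℂ) z2 = ((Complex.normSq z3 : ℝ) : ℂ) := by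
      rw [Complex.mul_conj, nn]
    have h2 : z3 * (starRingEnd ℂ) z3 = ((Complex.normSq z3 : ℝ) : ℂ) := by
      rw [Complex.mul_conj]
    simp only [map_mul, Complex.conj_conj]
    linear_combination ((starRingEnd ℂ) z2 * Y2) * h2 + (z3 * (starRingEnd ℂ) Y3) * h1
  rw [e1] at g2
  have g2' : ((starRingEnd ℂ) z2 * Y2).im = ((starRingEnd ℂ) z3 * Y3).im := by
    have h1 : Complex.normSq z3 * (((starRingEnd ℂ) z2 * Y2).im -
        ((starRingEnd ℂ) z3 * Y3).im) = 0 := by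
      have h2 := g2
      rw [Complex.imCLM_apply, Complex.im_ofReal_mul, Complex.add_im, Complex.conj_im] at h2
      rw [← h2]
      ring
    rcases mul_eq_zero.1 h1 with h | h
    · exact absurd h hN.ne'
    · linarith
  have g3' : ((starRingEnd ℂ) z2 * Y2).re = ((starRingEnd ℂ) z3 * Y3).re := by
    have h1 := congrArg Complex.re g3
    simp only [Complex.add_re, Complex.mul_re, Complex.conj_re, Complex.conj_im] at h1 ⊢
    linarith
  have hA : (starRingEnd ℂ) z2 * Y2 = (starRingEnd ℂ) z3 * Y3 := Complex.ext g3' g2'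
  have hB : (starRingEnd ℂ) z3 * Y3 = 0 := by
    rw [hA] at g4
    have : (2 : ℂ) * ((starRingEnd ℂ) z3 * Y3) = 0 := by rw [two_mul]; exact g4
    exact (mul_eq_zero.1 this).resolve_left two_ne_zero
  refine ⟨?_, ?_⟩
  · rw [hB] at hA
    exact (mul_eq_zero.1 hA).resolve_left (fun h => a2 ((map_eq_zero _).1 h))
  · exact (mul_eq_zero.1 hB).resolve_left (fun h => a3 ((map_eq_zero _).1 h))

/-- the derivative of the pole coordinates is injective -/
private theorem inj_p (hT : Toric b L) (C : LChart L) {P : Op 3} (hP : P ∈ L ∩ C.U)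
    (h0 : ent b P 0 0 = 0) (v : R 3)
    (hv : fderiv ℝ (fun x => slP b P (C.p x)) (C.r P) v = 0) : v = 0 := by
  set x0 := C.r P with hx0
  have hb : x0 ∈ Metric.ball C.x0 C.δ := C.r_mem P hP
  have hball : Metric.ball C.x0 C.δ ∈ 𝓝 x0 := Metric.isOpen_ball.mem_nhds hb
  have hpP : C.p x0 = P := C.p_r P hP
  -- differentiability
  have hzd : HasFDerivAt C.z (fderiv ℝ C.z x0) x0 :=
    ((C.smooth_z.contDiffAt hball).differentiableAt one_ne_zero).hasFDerivAt
  have hpd : DifferentiableAt ℝ C.p x0 :=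
    (C.smooth_p.contDiffAt hball).differentiableAt one_ne_zero
  have hFd : HasFDerivAt (fun x => slP b P (C.p x))
      (fderiv ℝ (fun x => slP b P (C.p x)) x0) x0 := by
    have h1 : DifferentiableAt ℝ (slP b P) (C.p x0) :=
      ((contDiff_slP b P).contDiffAt).differentiableAt one_ne_zero
    exact (DifferentiableAt.comp x0 h1 hpd).hasFDerivAt
  -- the curve
  set γ : ℝ → R 3 := fun t => x0 + t • v with hγ
  have hγ0 : γ 0 = x0 := by simp [hγ]
  have hγd : HasDerivAt γ v 0 := by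
    have h1 := ((hasDerivAt_id (0 : ℝ)).smul_const v).const_add x0
    simpa [hγ] using h1
  have hγt : ∀ᶠ t in 𝓝 (0 : ℝ), γ t ∈ Metric.ball C.x0 C.δ := by
    refine hγd.continuousAt.eventually ?_
    rw [hγ0]
    exact hball
  set Y : E 3 := fderiv ℝ C.z x0 v with hY
  have hzc : HasDerivAt (fun t => C.z (γ t)) Y 0 := by
    have h1 : HasFDerivAt C.z (fderiv ℝ C.z x0) (γ 0) := by rw [hγ0]; exact hzd
    exact h1.comp_hasDerivAt 0 hγd
  have hFc : HasDerivAt (fun t => slP b P (C.p (γ t))) (0 : ℂ × ℝ) 0 := by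
    have h1 : HasFDerivAt (fun x => slP b P (C.p x))
      (fderiv ℝ (fun x => slP b P (C.p x)) x0) (γ 0) := by rw [hγ0]; exact hFd
    have h2 := h1.comp_hasDerivAt 0 hγd
    rw [hv] at h2
    exact h2
  have hc := fun i => hasDerivAt_coord (b := b) hzc i
  -- values at x0
  have hz0 : ‖C.z x0‖ = 1 := C.norm_z x0 hb
  have hzP : pt (C.z x0) = P := by rw [C.pt_z x0 hb, hpP]
  have hzL : pt (C.z x0) ∈ L := by rw [hzP]; exact hP.1
  have a0 : inner ℂ (b 0) (C.z x0) = 0 := by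
    rw [← hzP, ent_pt, Complex.mul_conj, Complex.ofReal_eq_zero] at h0
    exact Complex.normSq_eq_zero.1 h0
  have n01 := hT.eq01 _ hz0 hzL
  have n23 := hT.eq23 _ hz0 hzL
  have a1 : inner ℂ (b 1) (C.z x0) = 0 := by
    rw [a0, norm_zero] at n01
    exact norm_eq_zero.1 n01.symm
  have hs := sum_sq b hz0
  rw [a0, a1, n23, norm_zero] at hs
  have n3 : ‖inner ℂ (b 3) (C.z x0)‖ ≠ 0 := by
    intro h
    rw [h] at hs
    norm_num at hs
  have a3 : inner ℂ (b 3) (C.z x0) ≠ 0 := norm_ne_zero_iff.1 n3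
  have a2 : inner ℂ (b 2) (C.z x0) ≠ 0 := by
    rw [← norm_ne_zero_iff, n23]
    exact n3
  -- the points of the curve
  have hpt : ∀ᶠ t in 𝓝 (0 : ℝ), pt (C.z (γ t)) = C.p (γ t) ∧ ‖C.z (γ t)‖ = 1 ∧
      pt (C.z (γ t)) ∈ L := by
    filter_upwards [hγt] with t ht
    refine ⟨C.pt_z _ ht, C.norm_z _ ht, ?_⟩
    rw [C.pt_z _ ht]
    exact (C.p_mem _ ht).1
  -- first coordinate
  have e1 : HasDerivAt (fun t => inner ℂ (b 0) (C.z (γ t)) *
      (starRingEnd ℂ) (inner ℂ (b 2) (C.z (γ t)))) 0 0 := by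
    have h1 : HasDerivAt (⇑(ContinuousLinearMap.fst ℝ ℂ ℝ) ∘ fun t => slP b P (C.p (γ t)))
        ((ContinuousLinearMap.fst ℝ ℂ ℝ) 0) 0 :=
      (ContinuousLinearMap.fst ℝ ℂ ℝ).hasFDerivAt.comp_hasDerivAt 0 hFc
    rw [map_zero] at h1
    refine h1.congr_of_eventuallyEq ?_
    filter_upwards [hpt] with t ht
    show _ = ent b (C.p (γ t)) 0 2
    rw [← ht.1, ent_pt]
  have e2 : HasDerivAt (fun t => (inner ℂ (b 2) (C.z (γ t)) *
      (starRingEnd ℂ) (inner ℂ (b 3) (C.z (γ t))) * (starRingEnd ℂ) (ent b P 2 3)).im) 0 0 := by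
    have h1 : HasDerivAt (⇑(ContinuousLinearMap.snd ℝ ℂ ℝ) ∘ fun t => slP b P (C.p (γ t)))
        ((ContinuousLinearMap.snd ℝ ℂ ℝ) 0) 0 :=
      (ContinuousLinearMap.snd ℝ ℂ ℝ).hasFDerivAt.comp_hasDerivAt 0 hFc
    rw [map_zero] at h1
    refine h1.congr_of_eventuallyEq ?_
    filter_upwards [hpt] with t ht
    show _ = (ent b (C.p (γ t)) 2 3 * (starRingEnd ℂ) (ent b P 2 3)).im
    rw [← ht.1, ent_pt]
  have f1 := (hc 0).mul (hasDerivAt_conj (hc 2))
  have f2 := (((hc 2).mul (hasDerivAt_conj (hc 3))).mul_const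
    ((starRingEnd ℂ) (ent b P 2 3)))
  have f2' := (Complex.imCLM.hasFDerivAt
    (x := inner ℂ (b 2) (C.z (γ 0)) * (starRingEnd ℂ) (inner ℂ (b 3) (C.z (γ 0))) *
      (starRingEnd ℂ) (ent b P 2 3))).comp_hasDerivAt 0 f2
  have g1 := f1.unique e1
  have g2 := f2'.unique e2
  rw [hγ0, a0, zero_mul, add_zero] at g1
  have y0 : inner ℂ (b 0) Y = 0 := by
    rcases mul_eq_zero.1 g1 with h | h
    · exact h
    · exact absurd ((map_eq_zero _).1 h) a2
  -- Y_1 = 0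
  have y1 : inner ℂ (b 1) Y = 0 := by
    have h1 := hc 0
    rw [y0] at h1
    refine deriv_zero_of_norm h1 (hc 1) ?_ ?_ ?_
    · show inner ℂ (b 0) (C.z (γ 0)) = 0
      rw [hγ0, a0]
    · show inner ℂ (b 1) (C.z (γ 0)) = 0
      rw [hγ0, a1]
    · filter_upwards [hpt] with t ht
      exact hT.eq01 _ ht.2.1 ht.2.2
  -- |z_2|^2 = |z_3|^2
  have g3 : inner ℂ (b 2) Y * (starRingEnd ℂ) (inner ℂ (b 2) (C.z x0)) +
      inner ℂ (b 2) (C.z x0) * (starRingEnd ℂ) (inner ℂ (b 2) Y) =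
      inner ℂ (b 3) Y * (starRingEnd ℂ) (inner ℂ (b 3) (C.z x0)) +
      inner ℂ (b 3) (C.z x0) * (starRingEnd ℂ) (inner ℂ (b 3) Y) := by
    have h2 := (hc 2).mul (hasDerivAt_conj (hc 2))
    have h3 := (hc 3).mul (hasDerivAt_conj (hc 3))
    have h4 := h3.congr_of_eventuallyEq (f₁ := fun t => inner ℂ (b 2) (C.z (γ t)) *
      (starRingEnd ℂ) (inner ℂ (b 2) (C.z (γ t)))) (by
        filter_upwards [hpt] with t ht
        show _ = inner ℂ (b 3) (C.z (γ t)) * (starRingEnd ℂ) (inner ℂ (b 3) (C.z (γ t)))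
        rw [Complex.mul_conj, Complex.mul_conj, Complex.normSq_eq_norm_sq,
          Complex.normSq_eq_norm_sq, hT.eq23 _ ht.2.1 ht.2.2])
    have h5 := h2.unique h4
    rw [hγ0] at h5
    exact h5
  have g4 : (starRingEnd ℂ) (inner ℂ (b 2) (C.z x0)) * inner ℂ (b 2) Y +
      (starRingEnd ℂ) (inner ℂ (b 3) (C.z x0)) * inner ℂ (b 3) Y = 0 := by
    have h1 := C.leg x0 hb v
    rw [inner_sum_coord (b := b), Fin.sum_univ_four] at h1
    rw [← hY, y0, y1] at h1
    simpa using h1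
  have nn : Complex.normSq (inner ℂ (b 2) (C.z x0)) = Complex.normSq (inner ℂ (b 3) (C.z x0)) := by
    rw [Complex.normSq_eq_norm_sq, Complex.normSq_eq_norm_sq, n23]
  rw [← hzP, ent_pt, hγ0] at g2
  obtain ⟨y2, y3⟩ := alg_last a2 a3 nn g2 g3 g4
  have hY0 : Y = 0 := by
    have h5 := inner_sum_coord (b := b) Y Y
    rw [Fin.sum_univ_four, y0, y1, y2, y3] at h5
    have h6 : inner ℂ Y Y = (0 : ℂ) := by
      rw [h5]
      simp
    exact inner_self_eq_zero.1 h6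
  exact C.imm x0 hb (by rw [← hY, hY0, map_zero])

/-- Proof: injectivity (the dimensions are equal). z = C.z x0, Y = Dz v, coordinates z_i, Y_i in b.
z_0 = z_1 = 0, |z_2| = |z_3| nonzero. ent (pt z) 0 2 = z_0 conj z_2 has derivative Y_0 conj z_2, so
Y_0 = 0; |z_0 x| = |z_1 x| near x0 and both vanish at x0, so |Y_0| = |Y_1|, Y_1 = 0. Derivative of
|z_2|^2 - |z_3|^2 : Re (conj z_2 Y_2) = Re (conj z_3 Y_3). The second coordinate:
Im (conj z_2 Y_2) = Im (conj z_3 Y_3). C.leg: conj z_2 Y_2 + conj z_3 Y_3 = 0. So Y = 0, v = 0 by C.imm. -/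
theorem sub_p (hT : Toric b L) (C : LChart L) {P : Op 3} (hP : P ∈ L ∩ C.U)
    (h0 : ent b P 0 0 = 0) :
    Function.Bijective (fderiv ℝ (fun x => slP b P (C.p x)) (C.r P)) := by
  set A := fderiv ℝ (fun x => slP b P (C.p x)) (C.r P) with hA
  have hinj : Function.Injective (A : R 3 →ₗ[ℝ] ℂ × ℝ) := by
    rw [← LinearMap.ker_eq_bot, LinearMap.ker_eq_bot']
    intro v hv
    exact inj_p hT C hP h0 v hv
  have hdim : Module.finrank ℝ (R 3) = Module.finrank ℝ (ℂ × ℝ) := by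
    rw [Module.finrank_prod, Complex.finrank_real_complex, Module.finrank_self]
    simp
  have hsurj : Function.Surjective (A : R 3 →ₗ[ℝ] ℂ × ℝ) :=
    (LinearMap.injective_iff_surjective_of_finrank_eq_finrank hdim).1 hinj
  exact ⟨hinj, hsurj⟩

end Pool.Agent.H11.ST
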