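import Pool.Agent.H11.ST.OpP
import Pool.Agent.H11.ST.ArcA
import Pool.Agent.H11.ST.ImpP
import Pool.Agent.H11.ST.SubP
import Pool.Agent.H11.ST.SlP

/-! The reduced curve is a half open arc near the pole z_0 = z_1 = 0. -/

set_option autoImplicit false

open scoped ContDiff Topology
open Topology

namespace Pool.Agent.H11.ST

open Pool.Agent.H66.SyL

variable {b : Bas} {L : Set (Op 3)}

private theorem slP_self (hT : Toric b L) {P : Op 3} (hP : P ∈ L) (h0 : ent b P 0 0 = 0) :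
    slP b P P = 0 := by
  obtain ⟨n1, _, _, _, n5, _⟩ := hT.norms hP
  rw [h0, norm_zero] at n1
  rw [← n1, zero_mul] at n5
  have h1 : ent b P 0 2 = 0 := norm_eq_zero.1 (pow_eq_zero_iff two_ne_zero |>.1 n5)
  unfold slP
  rw [Complex.mul_conj, h1]
  rfl

private theorem mem_ball_of {s δ : ℝ} (hs : s ∈ Set.Ico (0 : ℝ) δ) :
    (((s : ℂ), (0 : ℝ)) : ℂ × ℝ) ∈ Metric.ball 0 δ := by
  rw [mem_ball_zero_iff, Prod.norm_def, norm_zero, Complex.norm_real, Real.norm_eq_abs,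
    abs_of_nonneg hs.1]
  exact max_lt hs.2 (lt_of_le_of_lt hs.1 hs.2)

private theorem lt_of_mem_ball {s δ : ℝ} (hs : 0 ≤ s)
    (h : (((s : ℂ), (0 : ℝ)) : ℂ × ℝ) ∈ Metric.ball 0 δ) : s < δ := by
  rw [mem_ball_zero_iff, Prod.norm_def, norm_zero, Complex.norm_real, Real.norm_eq_abs,
    abs_of_nonneg hs] at h
  exact lt_of_le_of_lt (le_max_left _ _) h

/-- Proof: chart C, W from slp_rot, (δ, σ, O) from imp_p with sub_p for f = slP b P, f P = (0, 0).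
c s = prj (σ (s, 0)), 0 ≤ s < δ. Injective by norms (‖ent 0 2‖ = s, a function of prj). Open: R = σ (t, 0),
V = nbhd of R in O where ‖ent 0 2‖ in J; slp_rot gives tor α β Q in L cap V with
f = (‖ent Q 0 2‖, 0), so tor α β Q = σ (s', 0), s' in J. open_prj. Then end_of. -/
theorem loc_p (hL : IsLagrangian L) (hc : IsCompact L) (hT : Toric b L) {P : Op 3} (hP : P ∈ L)
    (h0 : ent b P 0 0 = 0) :
    EndAt (⟨prj b P, Set.mem_image_of_mem _ hP⟩ : prj b '' L) := by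
  obtain ⟨C, hPC⟩ := exists_lchart hL hP
  obtain ⟨W, hW, hrot⟩ := slp_rot hT hP h0
  obtain ⟨δ, σ, O, hδ, hO, hPO, hOW, hσ, h3, h4⟩ :=
    imp_p C ⟨hP, hPC⟩ (slP b P) (contDiff_slP b P) (sub_p hT C ⟨hP, hPC⟩ h0) hW
  have hself : slP b P P = 0 := slP_self hT hP h0
  rw [hself] at hσ h3
  have h4' : ∀ Q ∈ L ∩ O, slP b P Q ∈ Metric.ball (0 : ℂ × ℝ) δ ∧ σ (slP b P Q) = Q := by
    intro Q hQ
    have := h4 Q hQ
    rw [hself] at this
    exact this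
  have hball : ∀ s ∈ Set.Ico (0 : ℝ) δ, (((s : ℂ), (0 : ℝ)) : ℂ × ℝ) ∈ Metric.ball 0 δ :=
    fun s hs => mem_ball_of hs
  have hσ0 : σ (((0 : ℝ) : ℂ), (0 : ℝ)) = P := by
    have h5 := (h4' P ⟨hP, hPO⟩).2
    rw [hself] at h5
    have e : ((((0 : ℝ) : ℂ), (0 : ℝ)) : ℂ × ℝ) = 0 := by
      rw [Complex.ofReal_zero]
      rfl
    rw [e]
    exact h5
  have hmem : prj b (σ (((0 : ℝ) : ℂ), (0 : ℝ))) ∈ prj b '' L := by
    rw [hσ0]
    exact Set.mem_image_of_mem _ hP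
  have hcont : ContinuousOn (fun s : ℝ => σ ((s : ℂ), (0 : ℝ))) (Set.Ico 0 δ) := by
    have h5 : Continuous (fun s : ℝ => (((s : ℂ), (0 : ℝ)) : ℂ × ℝ)) :=
      Complex.continuous_ofReal.prodMk continuous_const
    exact hσ.comp h5.continuousOn hball
  have hent : ∀ s ∈ Set.Ico (0 : ℝ) δ, ent b (σ ((s : ℂ), (0 : ℝ))) 0 2 = (s : ℂ) := by
    intro s hs
    exact congrArg Prod.fst (h3 _ (hball s hs)).2
  have key := end_of (prj b '' L) (c := fun s => prj b (σ ((s : ℂ), (0 : ℝ)))) hδ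
    ((continuous_prj b).comp_continuousOn hcont)
    (by
      intro s hs t ht hst
      have s1 := (h3 _ (hball s hs)).1.1
      have t1 := (h3 _ (hball t ht)).1.1
      have s2 := (hT.norms s1).2.2.2.2.1
      have t2 := (hT.norms t1).2.2.2.2.1
      have e : prj b (σ ((s : ℂ), (0 : ℝ))) = prj b (σ ((t : ℂ), (0 : ℝ))) := hst
      rw [e, ← t2, hent s hs, hent t ht, Complex.norm_real, Complex.norm_real,
        Real.norm_eq_abs, Real.norm_eq_abs, sq_abs, sq_abs] at s2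
      exact (pow_left_inj₀ hs.1 ht.1 (two_ne_zero)).1 s2)
    (by
      intro t ht
      exact Set.mem_image_of_mem _ (h3 _ (hball t ht)).1.1)
    (by
      intro t ht J hJ
      obtain ⟨t1, t2⟩ := h3 _ (hball t ht)
      have h5 : {Q : Op 3 | ‖ent b Q 0 2‖ ∈ J} ∈ 𝓝 (σ ((t : ℂ), (0 : ℝ))) := by
        have h6 : ContinuousAt (fun Q : Op 3 => ‖ent b Q 0 2‖) (σ ((t : ℂ), (0 : ℝ))) :=
          (continuous_ent b 0 2).norm.continuousAt
        have h7 : J ∈ 𝓝 ((fun Q : Op 3 => ‖ent b Q 0 2‖) (σ ((t : ℂ), (0 : ℝ)))) := by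
          show J ∈ 𝓝 ‖ent b (σ ((t : ℂ), (0 : ℝ))) 0 2‖
          rw [hent t ht, Complex.norm_real, Real.norm_eq_abs, abs_of_nonneg ht.1]
          exact hJ
        exact h6 h7
      have hV : {Q : Op 3 | ‖ent b Q 0 2‖ ∈ J} ∩ O ∈ 𝓝 (σ ((t : ℂ), (0 : ℝ))) :=
        Filter.inter_mem h5 (hO.mem_nhds t1.2)
      have h6 := hrot (σ ((t : ℂ), (0 : ℝ))) ⟨t1.1, hOW t1.2⟩ t ht.1 t2 _ hV
      have h7 := hT.open_prj hc t1.1 h6
      filter_upwards [h7] with w hw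
      obtain ⟨Q, ⟨hQL, α, β, hQ1, hQ2⟩, hQw⟩ := hw
      have hQ3 : tor b α β Q ∈ L := hT.inv α β Q hQL
      obtain ⟨h8, h9⟩ := h4' _ ⟨hQ3, hQ1.2⟩
      rw [hQ2] at h8 h9
      have h10 : ‖ent b Q 0 2‖ ∈ J := by
        have h11 : ent b (tor b α β Q) 0 2 = ((‖ent b Q 0 2‖ : ℝ) : ℂ) := congrArg Prod.fst hQ2
        have h12 : ‖ent b (tor b α β Q) 0 2‖ ∈ J := hQ1.1
        rw [h11, Complex.norm_real, norm_norm] at h12
        exact h12
      refine ⟨‖ent b Q 0 2‖, ⟨h10, norm_nonneg _, lt_of_mem_ball (norm_nonneg _) h8⟩, ?_⟩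
      show prj b (σ (((‖ent b Q 0 2‖ : ℝ) : ℂ), (0 : ℝ))) = w
      rw [h9, prj_tor, hQw])
    hmem
  have e : (⟨prj b (σ (((0 : ℝ) : ℂ), (0 : ℝ))), hmem⟩ : prj b '' L) =
      ⟨prj b P, Set.mem_image_of_mem _ hP⟩ := Subtype.ext (congrArg (prj b) hσ0)
  rw [← e]
  exact key

end Pool.Agent.H11.ST
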