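import Pool.Agent.H11.ST.LocP

/-! The reduced curve is a half open arc near the pole z_2 = z_3 = 0. -/

set_option autoImplicit false

open scoped ContDiff Topology
open Topology

namespace Pool.Agent.H11.ST

open Pool.Agent.H66.SyL

variable {b : Bas} {L : Set (Op 3)}

private def sg : Fin (3 + 1) ≃ Fin (3 + 1) where
  toFun := ![2, 3, 0, 1]
  invFun := ![2, 3, 0, 1]
  left_inv := by decide
  right_inv := by decide

private noncomputable def bq (b : Bas) : Bas := b.reindex sg

private theorem bq_0 (b : Bas) : bq b 0 = b 2 := by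
  unfold bq; rw [OrthonormalBasis.reindex_apply]; rfl

private theorem bq_1 (b : Bas) : bq b 1 = b 3 := by
  unfold bq; rw [OrthonormalBasis.reindex_apply]; rfl

private theorem bq_2 (b : Bas) : bq b 2 = b 0 := by
  unfold bq; rw [OrthonormalBasis.reindex_apply]; rfl

private theorem bq_3 (b : Bas) : bq b 3 = b 1 := by
  unfold bq; rw [OrthonormalBasis.reindex_apply]; rfl

private theorem rot_bq (b : Bas) (θ θ' : Fin (3 + 1) → ℝ) (h0 : θ 0 = θ' 2) (h1 : θ 1 = θ' 3)
    (h2 : θ 2 = θ' 0) (h3 : θ 3 = θ' 1) : rot (bq b) θ = rot b θ' := by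
  unfold rot
  rw [Fin.sum_univ_four, Fin.sum_univ_four]
  rw [bq_0, bq_1, bq_2, bq_3, h0, h1, h2, h3]
  abel

private theorem tor_bq (b : Bas) (α β : ℝ) (P : Op 3) : tor (bq b) α β P = tor b β α P := by
  unfold tor act
  have e1 : rot (bq b) (wt α β) = rot b (wt β α) := by
    apply rot_bq <;> simp [wt]
  have e2 : rot (bq b) (-wt α β) = rot b (-wt β α) := by
    apply rot_bq <;> simp [wt]
  rw [e1, e2]

private theorem toric_bq (hT : Toric b L) : Toric (bq b) L where
  inv := fun α β P hP => by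
    rw [tor_bq]
    exact hT.inv β α P hP
  unit := hT.unit
  eq01 := fun z hz hL => by
    rw [bq_0, bq_1]
    exact hT.eq23 z hz hL
  eq23 := fun z hz hL => by
    rw [bq_2, bq_3]
    exact hT.eq01 z hz hL
  pole0 := by
    rw [bq_0]
    exact hT.pole1
  pole1 := by
    rw [bq_2]
    exact hT.pole0

private noncomputable def jj (q : ℂ × ℝ) : ℂ × ℝ := ((starRingEnd ℂ) q.1, 1 / 2 - q.2)

private theorem jj_jj (q : ℂ × ℝ) : jj (jj q) = q := by
  unfold jj
  ext <;> simp

private theorem continuous_jj : Continuous jj := by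
  unfold jj
  exact (Complex.continuous_conj.comp continuous_fst).prodMk (continuous_const.sub continuous_snd)

private theorem prj_bq (hT : Toric b L) {P : Op 3} (hP : P ∈ L) : prj (bq b) P = jj (prj b P) := by
  obtain ⟨z, hz, rfl⟩ := hT.unit P hP
  rw [prj_pt, prj_pt, bq_0, bq_1, bq_2, bq_3]
  have h1 := hT.eq01 z hz hP
  have h2 := hT.eq23 z hz hP
  have h3 := sum_sq b hz
  unfold jj
  refine Prod.ext ?_ ?_
  · simp only [map_mul, Complex.conj_conj]
    ring
  · simp only
    rw [← h1, ← h2] at h3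
    linarith

private theorem endAt_of_homeo {X Y : Type*} [TopologicalSpace X] [TopologicalSpace Y] (h : X ≃ₜ Y)
    {x : X} (hx : EndAt x) : EndAt (h x) := by
  intro U hU
  have hU' : h ⁻¹' U ∈ 𝓝 x := h.continuous.continuousAt hU
  obtain ⟨e, he, h0, hr⟩ := hx _ hU'
  refine ⟨h ∘ e, h.isOpenEmbedding.comp he, by simp [h0], ?_⟩
  rintro _ ⟨t, rfl⟩
  exact hr ⟨t, rfl⟩

private theorem jj_mem (hT : Toric b L) {q : ℂ × ℝ} (hq : q ∈ prj b '' L) :
    jj q ∈ prj (bq b) '' L := by
  obtain ⟨P, hP, rfl⟩ := hq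
  exact ⟨P, hP, prj_bq hT hP⟩

private theorem jj_mem' (hT : Toric b L) {q : ℂ × ℝ} (hq : q ∈ prj (bq b) '' L) :
    jj q ∈ prj b '' L := by
  obtain ⟨P, hP, rfl⟩ := hq
  rw [prj_bq hT hP, jj_jj]
  exact Set.mem_image_of_mem _ hP

/-- Proof: b' = b.reindex (the permutation exchanging 0, 2 and 1, 3): tor b' α β = tor b β α, Toric b' L,
prj b' P = j (prj b P) for P in L, j (F, ρ) = (conj F, 1/2 - ρ) a homeomorphism of C x R, so
prj b' '' L = j '' (prj b '' L) and loc_p for b' gives the claim. -/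
theorem loc_q (hL : IsLagrangian L) (hc : IsCompact L) (hT : Toric b L) {P : Op 3} (hP : P ∈ L)
    (h2 : ent b P 2 2 = 0) :
    EndAt (⟨prj b P, Set.mem_image_of_mem _ hP⟩ : prj b '' L) := by
  have h0 : ent (bq b) P 0 0 = 0 := by
    unfold ent at h2 ⊢
    rw [bq_0]
    exact h2
  have key := loc_p hL hc (toric_bq hT) hP h0
  let h : (prj (bq b) '' L : Set (ℂ × ℝ)) ≃ₜ (prj b '' L : Set (ℂ × ℝ)) :=
    { toFun := fun x => ⟨jj x.1, jj_mem' hT x.2⟩
      invFun := fun x => ⟨jj x.1, jj_mem hT x.2⟩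
      left_inv := fun x => Subtype.ext (jj_jj x.1)
      right_inv := fun x => Subtype.ext (jj_jj x.1)
      continuous_toFun := (continuous_jj.comp continuous_subtype_val).subtype_mk _
      continuous_invFun := (continuous_jj.comp continuous_subtype_val).subtype_mk _ }
  have := endAt_of_homeo h key
  have he : h ⟨prj (bq b) P, Set.mem_image_of_mem _ hP⟩ =
      (⟨prj b P, Set.mem_image_of_mem _ hP⟩ : prj b '' L) := by
    apply Subtype.ext
    change jj (prj (bq b) P) = prj b P
    rw [prj_bq hT hP, jj_jj]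
  rw [he] at this
  exact this

end Pool.Agent.H11.ST
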