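import Pool.Agent.H11.ST.Defs

/-! Phases along the reduced curve. -/

set_option autoImplicit false

open scoped Topology
open Topology

namespace Pool.Agent.H11.ST

/-- The phase of `F`. -/
private noncomputable def phs (F : ℝ → ℂ) (t : ℝ) : ℂ := if F t = 0 then 1 else F t / ((‖F t‖ : ℝ) : ℂ)

private theorem phs_norm (F : ℝ → ℂ) (t : ℝ) : ‖phs F t‖ = 1 := by
  unfold phs
  split_ifs with h
  · exact norm_one
  · rw [norm_div, Complex.norm_real, norm_norm]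
    exact div_self (norm_ne_zero_iff.2 h)

private theorem phs_mul (F : ℝ → ℂ) (t : ℝ) : F t = ((‖F t‖ : ℝ) : ℂ) * phs F t := by
  unfold phs
  split_ifs with h
  · rw [h, norm_zero]
    simp
  · have : ((‖F t‖ : ℝ) : ℂ) ≠ 0 := by
      rw [Ne, Complex.ofReal_eq_zero]
      exact norm_ne_zero_iff.2 h
    rw [mul_div_cancel₀ _ this]

private theorem phs_cont (F : ℝ → ℂ) (hF : ContinuousOn F (Set.Ioo 0 1)) (h0 : ∀ t ∈ Set.Ioo (0 : ℝ) 1, F t ≠ 0) :
    ContinuousOn (phs F) (Set.Ioo 0 1) := by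
  have h1 : ContinuousOn (fun t => F t / ((‖F t‖ : ℝ) : ℂ)) (Set.Ioo 0 1) := by
    refine hF.div (Complex.continuous_ofReal.comp_continuousOn hF.norm) ?_
    intro t ht
    rw [Ne, Complex.ofReal_eq_zero]
    exact norm_ne_zero_iff.2 (h0 t ht)
  refine h1.congr ?_
  intro t ht
  unfold phs
  rw [if_neg (h0 t ht)]

private theorem phs_conj (F : ℝ → ℂ) (t : ℝ) : phs F t * (starRingEnd ℂ) (phs F t) = 1 := by
  rw [Complex.mul_conj, Complex.normSq_eq_norm_sq, phs_norm]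
  simp

/-- Proof: ζ t = F t / |F t| if F t ≠ 0, else 1; A t = ζ (min t (1/2)), B t = conj (ζ (max t (1/2))) * ζ (1/2)
(F t ≠ 0 for 0 < t < 1; on [0, 1] outside both sides vanish; t may be clamped to [0, 1] first). -/
theorem exists_AB (F : ℝ → ℂ) (ρ : ℝ → ℝ) (hF : ContinuousOn F (Set.Icc 0 1))
    (hFρ : ∀ t ∈ Set.Icc (0 : ℝ) 1, ‖F t‖ = ρ t * (1 / 2 - ρ t)) (h0 : ρ 0 = 0) (h1 : ρ 1 = 1 / 2)
    (hi : ∀ t ∈ Set.Ioo (0 : ℝ) 1, 0 < ρ t ∧ ρ t < 1 / 2) :
    ∃ A B : ℝ → ℂ, (∀ t, ‖A t‖ = 1) ∧ (∀ t, ‖B t‖ = 1) ∧ ContinuousOn A (Set.Ioc 0 1) ∧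
      ContinuousOn B (Set.Ico 0 1) ∧
      ∀ t ∈ Set.Icc (0 : ℝ) 1, F t = ((ρ t * (1 / 2 - ρ t) : ℝ) : ℂ) * A t * (starRingEnd ℂ) (B t) := by
  have hne : ∀ t ∈ Set.Ioo (0 : ℝ) 1, F t ≠ 0 := by
    intro t ht
    have h2 := hFρ t ⟨ht.1.le, ht.2.le⟩
    have h3 := hi t ht
    rw [← norm_ne_zero_iff, h2]
    exact (mul_pos h3.1 (by linarith)).ne'
  have hc := phs_cont F (hF.mono Set.Ioo_subset_Icc_self) hne
  refine ⟨fun t => phs F (min t (1 / 2)), fun t => (starRingEnd ℂ) (phs F (max t (1 / 2))) * phs F (1 / 2),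
    fun t => phs_norm F _, ?_, ?_, ?_, ?_⟩
  · intro t
    show ‖(starRingEnd ℂ) (phs F (max t (1 / 2))) * phs F (1 / 2)‖ = 1
    rw [norm_mul, Complex.norm_conj, phs_norm, phs_norm, one_mul]
  · refine hc.comp (continuous_id.min continuous_const).continuousOn ?_
    intro t ht
    have h2 := ht.1
    show min t (1 / 2) ∈ Set.Ioo (0 : ℝ) 1
    refine ⟨lt_min h2 (by norm_num), lt_of_le_of_lt (min_le_right _ _) (by norm_num)⟩
  · have h2 : ContinuousOn (fun t : ℝ => phs F (max t (1 / 2))) (Set.Ico 0 1) := by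
      refine hc.comp (continuous_id.max continuous_const).continuousOn ?_
      intro t ht
      show max t (1 / 2) ∈ Set.Ioo (0 : ℝ) 1
      exact ⟨lt_of_lt_of_le (by norm_num) (le_max_right _ _), max_lt ht.2 (by norm_num)⟩
    exact (Complex.continuous_conj.comp_continuousOn h2).mul continuousOn_const
  · intro t ht
    rw [← hFρ t ht]
    show F t = ((‖F t‖ : ℝ) : ℂ) * phs F (min t (1 / 2)) *
      (starRingEnd ℂ) ((starRingEnd ℂ) (phs F (max t (1 / 2))) * phs F (1 / 2))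
    rw [map_mul, Complex.conj_conj]
    have h3 := phs_conj F (1 / 2)
    rcases le_total t (1 / 2) with h | h
    · rw [min_eq_left h, max_eq_right h, h3, mul_one]
      exact phs_mul F t
    · rw [min_eq_right h, max_eq_left h]
      calc F t = ((‖F t‖ : ℝ) : ℂ) * phs F t * 1 := by rw [mul_one]; exact phs_mul F t
        _ = ((‖F t‖ : ℝ) : ℂ) * phs F t * (phs F (1 / 2) * (starRingEnd ℂ) (phs F (1 / 2))) := by rw [h3]
        _ = _ := by ring

end Pool.Agent.H11.ST
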