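import Pool.Agent.H11.ST.Defs

/-! Continuity of vec4 on the unit sphere, its norms. -/

set_option autoImplicit false

open scoped Topology
open Topology

namespace Pool.Agent.H11.ST

private theorem contAux {X : Type} [TopologicalSpace X] {S : Set X} {w : X → ℂ}
    (hw : Continuous w) {r : X → ℝ} {a : X → ℂ} (ha : ∀ x, ‖a x‖ = 1) (hr : ContinuousOn r S)
    (h0 : ∀ x ∈ S, w x = 0 → r x = 0)
    (hac : ∀ x ∈ S, w x ≠ 0 → ContinuousWithinAt a S x) :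
    ContinuousOn (fun x => ((√(r x) : ℝ) : ℂ) * a x * (w x / (‖w x‖ : ℝ))) S := by
  intro x hx
  have hs : ContinuousWithinAt (fun y => √(r y)) S x := (hr x hx).sqrt
  by_cases h : w x = 0
  · have hval : ((√(r x) : ℝ) : ℂ) * a x * (w x / (‖w x‖ : ℝ)) = 0 := by
      rw [h, zero_div, mul_zero]
    unfold ContinuousWithinAt
    simp only [hval]
    apply squeeze_zero_norm (a := fun y => √(r y))
    · intro y
      rw [norm_mul, norm_mul, ha, mul_one, norm_div, Complex.norm_real, Complex.norm_real,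
        Real.norm_of_nonneg (Real.sqrt_nonneg _), norm_norm]
      exact mul_le_of_le_one_right (Real.sqrt_nonneg _) (div_self_le_one _)
    · have h2 : √(r x) = 0 := by rw [h0 x hx h, Real.sqrt_zero]
      have h3 : Filter.Tendsto (fun y => √(r y)) (𝓝[S] x) (𝓝 (√(r x))) := hs
      rwa [h2] at h3
  · refine ContinuousWithinAt.mul (ContinuousWithinAt.mul ?_ (hac x hx h)) ?_
    · exact Complex.continuous_ofReal.continuousAt.comp_continuousWithinAt hs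
    · refine ContinuousWithinAt.div hw.continuousWithinAt ?_ ?_
      · exact (Complex.continuous_ofReal.comp hw.norm).continuousWithinAt
      · simpa using h

private theorem sphere_sum {x : EuclideanSpace ℝ (Fin 4)}
    (hx : x ∈ Metric.sphere (0 : EuclideanSpace ℝ (Fin 4)) 1) :
    x 0 ^ 2 + x 1 ^ 2 + (x 2 ^ 2 + x 3 ^ 2) = 1 := by
  have h1 : ‖x‖ = 1 := by simpa using hx
  have h2 := EuclideanSpace.norm_sq_eq x
  rw [h1, Fin.sum_univ_four] at h2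
  simp only [Real.norm_eq_abs, sq_abs] at h2
  linarith

private theorem norm_mk_sq (a b : ℝ) : ‖(⟨a, b⟩ : ℂ)‖ ^ 2 = a ^ 2 + b ^ 2 := by
  rw [← Complex.normSq_eq_norm_sq, Complex.normSq_mk]
  ring

private theorem cont_mk (i j : Fin 4) :
    Continuous (fun x : EuclideanSpace ℝ (Fin 4) => (⟨x i, x j⟩ : ℂ)) := by
  have h : (fun x : EuclideanSpace ℝ (Fin 4) => (⟨x i, x j⟩ : ℂ))
      = fun x => ((x i : ℝ) : ℂ) + ((x j : ℝ) : ℂ) * Complex.I := by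
    funext x
    apply Complex.ext <;> simp
  rw [h]
  have hi : Continuous fun x : EuclideanSpace ℝ (Fin 4) => x i := by fun_prop
  have hj : Continuous fun x : EuclideanSpace ℝ (Fin 4) => x j := by fun_prop
  exact (Complex.continuous_ofReal.comp hi).add
    ((Complex.continuous_ofReal.comp hj).mul continuous_const)

/-- Proof: t = |u|^2 in [0, 1] is continuous. Coordinates 0, 1: at u ≠ 0 all factors are continuous
(A is continuous on (0, 1]); at u = 0 the norm is at most sqrt (ρ t), which tends to 0. Coordinates 2, 3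
in the same way: v = 0 iff t = 1. -/
theorem continuousOn_vec4 (A B : ℝ → ℂ) (ρ : ℝ → ℝ) (hA : ∀ t, ‖A t‖ = 1) (hB : ∀ t, ‖B t‖ = 1)
    (hAc : ContinuousOn A (Set.Ioc 0 1)) (hBc : ContinuousOn B (Set.Ico 0 1))
    (hρ : ContinuousOn ρ (Set.Icc 0 1)) (h0 : ρ 0 = 0) (h1 : ρ 1 = 1 / 2) :
    ContinuousOn (vec4 A B ρ) (Metric.sphere 0 1) := by
  set S : Set (EuclideanSpace ℝ (Fin 4)) := Metric.sphere 0 1 with hS
  let u : EuclideanSpace ℝ (Fin 4) → ℂ := fun x => ⟨x 0, x 1⟩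
  let v : EuclideanSpace ℝ (Fin 4) → ℂ := fun x => ⟨x 2, x 3⟩
  have hu : Continuous u := cont_mk 0 1
  have hv : Continuous v := cont_mk 2 3
  have ht : Continuous fun x => ‖u x‖ ^ 2 := hu.norm.pow 2
  have hsum : ∀ x ∈ S, ‖u x‖ ^ 2 + ‖v x‖ ^ 2 = 1 := by
    intro x hx
    have := sphere_sum hx
    simp only [u, v, norm_mk_sq]
    linarith
  have htI : ∀ x ∈ S, ‖u x‖ ^ 2 ∈ Set.Icc (0 : ℝ) 1 := by
    intro x hx
    have h2 := hsum x hx
    exact ⟨by positivity, by nlinarith [sq_nonneg ‖v x‖]⟩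
  have hr1 : ContinuousOn (fun x => ρ (‖u x‖ ^ 2)) S :=
    hρ.comp ht.continuousOn htI
  have hr2 : ContinuousOn (fun x => 1 / 2 - ρ (‖u x‖ ^ 2)) S := continuousOn_const.sub hr1
  have hz1 : ∀ x ∈ S, u x = 0 → ρ (‖u x‖ ^ 2) = 0 := by
    intro x _ h
    rw [h, norm_zero, zero_pow two_ne_zero, h0]
  have hz2 : ∀ x ∈ S, v x = 0 → 1 / 2 - ρ (‖u x‖ ^ 2) = 0 := by
    intro x hx h
    have h2 := hsum x hx
    rw [h, norm_zero, zero_pow two_ne_zero, add_zero] at h2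
    rw [h2, h1, sub_self]
  have hA' : ∀ x ∈ S, u x ≠ 0 → ContinuousWithinAt (fun x => A (‖u x‖ ^ 2)) S x := by
    intro x hx h
    have hmem : S ∩ {y | u y ≠ 0} ∈ 𝓝[S] x :=
      Filter.inter_mem self_mem_nhdsWithin
        (mem_nhdsWithin_of_mem_nhds ((isOpen_ne_fun hu continuous_const).mem_nhds h))
    have hmaps : Set.MapsTo (fun y => ‖u y‖ ^ 2) (S ∩ {y | u y ≠ 0}) (Set.Ioc 0 1) := by
      intro y hy
      have h3 : 0 < ‖u y‖ := norm_pos_iff.2 hy.2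
      exact ⟨by positivity, (htI y hy.1).2⟩
    have h4 : ContinuousOn (fun x => A (‖u x‖ ^ 2)) (S ∩ {y | u y ≠ 0}) :=
      hAc.comp ht.continuousOn hmaps
    exact (h4 x ⟨hx, h⟩).mono_of_mem_nhdsWithin hmem
  have hB' : ∀ x ∈ S, v x ≠ 0 → ContinuousWithinAt (fun x => B (‖u x‖ ^ 2)) S x := by
    intro x hx h
    have hmem : S ∩ {y | v y ≠ 0} ∈ 𝓝[S] x :=
      Filter.inter_mem self_mem_nhdsWithin
        (mem_nhdsWithin_of_mem_nhds ((isOpen_ne_fun hv continuous_const).mem_nhds h))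
    have hmaps : Set.MapsTo (fun y => ‖u y‖ ^ 2) (S ∩ {y | v y ≠ 0}) (Set.Ico 0 1) := by
      intro y hy
      have h3 : 0 < ‖v y‖ := norm_pos_iff.2 hy.2
      have h5 : 0 < ‖v y‖ ^ 2 := by positivity
      exact ⟨(htI y hy.1).1, by linarith [hsum y hy.1]⟩
    have h4 : ContinuousOn (fun x => B (‖u x‖ ^ 2)) (S ∩ {y | v y ≠ 0}) :=
      hBc.comp ht.continuousOn hmaps
    exact (h4 x ⟨hx, h⟩).mono_of_mem_nhdsWithin hmem
  have hcu : Continuous fun x => (starRingEnd ℂ) (u x) := Complex.continuous_conj.comp hu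
  have hcv : Continuous fun x => (starRingEnd ℂ) (v x) := Complex.continuous_conj.comp hv
  have c0 := contAux (S := S) hu (a := fun x => A (‖u x‖ ^ 2)) (fun x => hA _) hr1 hz1 hA'
  have c1 := contAux (S := S) hcu (a := fun _ => (1 : ℂ)) (fun x => norm_one) hr1
    (fun x hx h => hz1 x hx (by simpa using h)) (fun x _ _ => continuousWithinAt_const)
  have c2 := contAux (S := S) hv (a := fun x => B (‖u x‖ ^ 2)) (fun x => hB _) hr2 hz2 hB'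
  have c3 := contAux (S := S) hcv (a := fun _ => (1 : ℂ)) (fun x => norm_one) hr2
    (fun x hx h => hz2 x hx (by simpa using h)) (fun x _ _ => continuousWithinAt_const)
  rw [continuousOn_pi]
  intro i
  fin_cases i
  · exact c0
  · refine c1.congr fun x _ => ?_
    simp only [mul_one, Complex.norm_conj]
    rfl
  · exact c2
  · refine c3.congr fun x _ => ?_
    simp only [mul_one, Complex.norm_conj]
    rfl

private theorem norm_coord_sq {r : ℝ} {a w : ℂ} (ha : ‖a‖ = 1) (hr : 0 ≤ r)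
    (h0 : w = 0 → r = 0) :
    ‖((√r : ℝ) : ℂ) * a * (w / (‖w‖ : ℝ))‖ ^ 2 = r := by
  rw [norm_mul, norm_mul, ha, mul_one, norm_div, Complex.norm_real, Complex.norm_real,
    Real.norm_of_nonneg (Real.sqrt_nonneg _), norm_norm, mul_pow, Real.sq_sqrt hr]
  by_cases h : w = 0
  · rw [h0 h, zero_mul]
  · rw [div_self (norm_ne_zero_iff.2 h), one_pow, mul_one]

/-- |u|^2 + |v|^2 = 1 and the moduli of the coordinates of vec4 on the unit sphere -/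
theorem norms_vec4 (A B : ℝ → ℂ) (ρ : ℝ → ℝ) (hA : ∀ t, ‖A t‖ = 1) (hB : ∀ t, ‖B t‖ = 1)
    (h0 : ρ 0 = 0) (h1 : ρ 1 = 1 / 2) (hi : ∀ t ∈ Set.Icc (0 : ℝ) 1, 0 ≤ ρ t ∧ ρ t ≤ 1 / 2)
    {x : EuclideanSpace ℝ (Fin 4)} (hx : x ∈ Metric.sphere (0 : EuclideanSpace ℝ (Fin 4)) 1) :
    x 0 ^ 2 + x 1 ^ 2 ∈ Set.Icc (0 : ℝ) 1 ∧
    ‖vec4 A B ρ x 0‖ ^ 2 = ρ (x 0 ^ 2 + x 1 ^ 2) ∧
    ‖vec4 A B ρ x 1‖ ^ 2 = ρ (x 0 ^ 2 + x 1 ^ 2) ∧
    ‖vec4 A B ρ x 2‖ ^ 2 = 1 / 2 - ρ (x 0 ^ 2 + x 1 ^ 2) ∧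
    ‖vec4 A B ρ x 3‖ ^ 2 = 1 / 2 - ρ (x 0 ^ 2 + x 1 ^ 2) ∧
    vec4 A B ρ x 0 * (starRingEnd ℂ) (vec4 A B ρ x 2) *
      (vec4 A B ρ x 1 * (starRingEnd ℂ) (vec4 A B ρ x 3)) =
      ((ρ (x 0 ^ 2 + x 1 ^ 2) * (1 / 2 - ρ (x 0 ^ 2 + x 1 ^ 2)) : ℝ) : ℂ) *
        A (x 0 ^ 2 + x 1 ^ 2) * (starRingEnd ℂ) (B (x 0 ^ 2 + x 1 ^ 2)) := by
  have hs := sphere_sum hx
  have hI : x 0 ^ 2 + x 1 ^ 2 ∈ Set.Icc (0 : ℝ) 1 :=
    ⟨by positivity, by nlinarith [sq_nonneg (x 2), sq_nonneg (x 3)]⟩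
  set u : ℂ := ⟨x 0, x 1⟩ with hu
  set v : ℂ := ⟨x 2, x 3⟩ with hv
  have hut : ‖u‖ ^ 2 = x 0 ^ 2 + x 1 ^ 2 := norm_mk_sq _ _
  have hvt : ‖v‖ ^ 2 = x 2 ^ 2 + x 3 ^ 2 := norm_mk_sq _ _
  set t : ℝ := x 0 ^ 2 + x 1 ^ 2 with ht
  obtain ⟨hρ0, hρ1⟩ := hi t hI
  have hz1 : u = 0 → ρ t = 0 := by
    intro h
    rw [← hut, h, norm_zero, zero_pow two_ne_zero, h0]
  have hz2 : v = 0 → 1 / 2 - ρ t = 0 := by
    intro h
    have h2 : x 2 ^ 2 + x 3 ^ 2 = 0 := by rw [← hvt, h, norm_zero, zero_pow two_ne_zero]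
    have h3 : t = 1 := by rw [h2, add_zero] at hs; exact hs
    rw [h3, h1, sub_self]
  have e0 : vec4 A B ρ x 0 = ((√(ρ t) : ℝ) : ℂ) * A t * (u / (‖u‖ : ℝ)) := by
    rw [← hut]; rfl
  have e1 : vec4 A B ρ x 1 = ((√(ρ t) : ℝ) : ℂ) * ((starRingEnd ℂ) u / (‖u‖ : ℝ)) := by
    rw [← hut]; rfl
  have e2 : vec4 A B ρ x 2 = ((√(1 / 2 - ρ t) : ℝ) : ℂ) * B t * (v / (‖v‖ : ℝ)) := by
    rw [← hut]; rfl
  have e3 : vec4 A B ρ x 3 = ((√(1 / 2 - ρ t) : ℝ) : ℂ) * ((starRingEnd ℂ) v / (‖v‖ : ℝ)) := by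
    rw [← hut]; rfl
  have hcu : ‖(starRingEnd ℂ) u‖ = ‖u‖ := Complex.norm_conj u
  have hcv : ‖(starRingEnd ℂ) v‖ = ‖v‖ := Complex.norm_conj v
  have hn2 : 0 ≤ 1 / 2 - ρ t := by linarith
  refine ⟨hI, ?_, ?_, ?_, ?_, ?_⟩
  · rw [e0]
    exact norm_coord_sq (hA t) hρ0 hz1
  · have := norm_coord_sq (r := ρ t) (a := 1) (w := (starRingEnd ℂ) u) norm_one hρ0
      (fun h => hz1 (by simpa using h))
    rw [mul_one, hcu] at this
    rw [e1, this]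
  · rw [e2]
    exact norm_coord_sq (hB t) hn2 hz2
  · have := norm_coord_sq (r := 1 / 2 - ρ t) (a := 1) (w := (starRingEnd ℂ) v) norm_one hn2
      (fun h => hz2 (by simpa using h))
    rw [mul_one, hcv] at this
    rw [e3, this]
  · rw [e0, e1, e2, e3]
    simp only [map_mul, map_div₀, Complex.conj_ofReal, Complex.conj_conj]
    have q1 : ((√(ρ t) : ℝ) : ℂ) * ((√(ρ t) : ℝ) : ℂ) = (ρ t : ℝ) := by
      rw [← Complex.ofReal_mul, Real.mul_self_sqrt hρ0]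
    have q2 : ((√(1 / 2 - ρ t) : ℝ) : ℂ) * ((√(1 / 2 - ρ t) : ℝ) : ℂ)
        = ((1 / 2 - ρ t : ℝ) : ℂ) := by
      rw [← Complex.ofReal_mul, Real.mul_self_sqrt hn2]
    have q3 : ((ρ t : ℝ) : ℂ) * (u / (‖u‖ : ℝ) * ((starRingEnd ℂ) u / (‖u‖ : ℝ)))
        = ((ρ t : ℝ) : ℂ) := by
      by_cases h : u = 0
      · rw [hz1 h, Complex.ofReal_zero, zero_mul]
      · have hne : ((‖u‖ : ℝ) : ℂ) ≠ 0 := by
          simpa using h
        have h5 : u * (starRingEnd ℂ) u = ((‖u‖ : ℝ) : ℂ) * ((‖u‖ : ℝ) : ℂ) := by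
          rw [Complex.mul_conj, Complex.normSq_eq_norm_sq, sq, Complex.ofReal_mul]
        rw [div_mul_div_comm, h5, div_self (mul_ne_zero hne hne), mul_one]
    have q4 : ((1 / 2 - ρ t : ℝ) : ℂ) * ((starRingEnd ℂ) v / (‖v‖ : ℝ) * (v / (‖v‖ : ℝ)))
        = ((1 / 2 - ρ t : ℝ) : ℂ) := by
      by_cases h : v = 0
      · rw [hz2 h, Complex.ofReal_zero, zero_mul]
      · have hne : ((‖v‖ : ℝ) : ℂ) ≠ 0 := by
          simpa using h
        have h5 : (starRingEnd ℂ) v * v = ((‖v‖ : ℝ) : ℂ) * ((‖v‖ : ℝ) : ℂ) := by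
          rw [mul_comm, Complex.mul_conj, Complex.normSq_eq_norm_sq, sq, Complex.ofReal_mul]
        rw [div_mul_div_comm, h5, div_self (mul_ne_zero hne hne), mul_one]
    rw [Complex.ofReal_mul]
    calc _ = ((((√(ρ t) : ℝ) : ℂ) * ((√(ρ t) : ℝ) : ℂ)) *
          (u / (‖u‖ : ℝ) * ((starRingEnd ℂ) u / (‖u‖ : ℝ)))) *
          ((((√(1 / 2 - ρ t) : ℝ) : ℂ) * ((√(1 / 2 - ρ t) : ℝ) : ℂ)) *
          ((starRingEnd ℂ) v / (‖v‖ : ℝ) * (v / (‖v‖ : ℝ)))) * A t * (starRingEnd ℂ) (B t) := by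
            ring
      _ = _ := by rw [q1, q2, q3, q4]

end Pool.Agent.H11.ST
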