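import Pool.Agent.H11.ST.Defs

/-! Phases of vec4: rotations and fibres. -/

set_option autoImplicit false

open scoped Topology
open Topology

namespace Pool.Agent.H11.ST

private theorem mk_neg (a b : ℝ) : (⟨-a, -b⟩ : ℂ) = -⟨a, b⟩ := by
  apply Complex.ext <;> simp

theorem vec4_neg (A B : ℝ → ℂ) (ρ : ℝ → ℝ) (x : EuclideanSpace ℝ (Fin 4)) (i : Fin (3 + 1)) :
    vec4 A B ρ (-x) i = - vec4 A B ρ x i := by
  have e0 : (-x) 0 = -(x 0) := rfl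
  have e1 : (-x) 1 = -(x 1) := rfl
  have e2 : (-x) 2 = -(x 2) := rfl
  have e3 : (-x) 3 = -(x 3) := rfl
  unfold vec4
  simp only [e0, e1, e2, e3, mk_neg, norm_neg, map_neg]
  fin_cases i <;> simp <;> ring

private theorem norm_sq4 (x : EuclideanSpace ℝ (Fin 4)) :
    ‖x‖ ^ 2 = ‖(⟨x 0, x 1⟩ : ℂ)‖ ^ 2 + ‖(⟨x 2, x 3⟩ : ℂ)‖ ^ 2 := by
  rw [EuclideanSpace.norm_sq_eq, Fin.sum_univ_four, ← Complex.normSq_eq_norm_sq, ← Complex.normSq_eq_norm_sq,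
    Complex.normSq_mk, Complex.normSq_mk]
  simp only [Real.norm_eq_abs, sq_abs]
  ring

/-- x' = (exp (i α) u, exp (i β) v) -/
theorem vec4_rot (A B : ℝ → ℂ) (ρ : ℝ → ℝ) (x : EuclideanSpace ℝ (Fin 4)) (α β : ℝ) :
    ∃ x' : EuclideanSpace ℝ (Fin 4), ‖x'‖ = ‖x‖ ∧ ∀ i : Fin (3 + 1),
      vec4 A B ρ x' i = Complex.exp ((wt α β i : ℂ) * Complex.I) * vec4 A B ρ x i := by
  set u : ℂ := ⟨x 0, x 1⟩ with hu
  set v : ℂ := ⟨x 2, x 3⟩ with hv
  set a : ℂ := Complex.exp ((α : ℂ) * Complex.I) with ha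
  set b : ℂ := Complex.exp ((β : ℂ) * Complex.I) with hb
  have na : ‖a‖ = 1 := Complex.norm_exp_ofReal_mul_I α
  have nb : ‖b‖ = 1 := Complex.norm_exp_ofReal_mul_I β
  have ca : (starRingEnd ℂ) a = Complex.exp (((-α : ℝ) : ℂ) * Complex.I) := by
    rw [ha, ← Complex.exp_conj]
    simp
  have cb : (starRingEnd ℂ) b = Complex.exp (((-β : ℝ) : ℂ) * Complex.I) := by
    rw [hb, ← Complex.exp_conj]
    simp
  refine ⟨!₂[(a * u).re, (a * u).im, (b * v).re, (b * v).im], ?_, ?_⟩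
  · have h : ‖(!₂[(a * u).re, (a * u).im, (b * v).re, (b * v).im] : EuclideanSpace ℝ (Fin 4))‖ ^ 2 = ‖x‖ ^ 2 := by
      rw [norm_sq4, norm_sq4 x]
      have e1 : (⟨(!₂[(a * u).re, (a * u).im, (b * v).re, (b * v).im] : EuclideanSpace ℝ (Fin 4)) 0,
          (!₂[(a * u).re, (a * u).im, (b * v).re, (b * v).im] : EuclideanSpace ℝ (Fin 4)) 1⟩ : ℂ) = a * u := rfl
      have e2 : (⟨(!₂[(a * u).re, (a * u).im, (b * v).re, (b * v).im] : EuclideanSpace ℝ (Fin 4)) 2,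
          (!₂[(a * u).re, (a * u).im, (b * v).re, (b * v).im] : EuclideanSpace ℝ (Fin 4)) 3⟩ : ℂ) = b * v := rfl
      rw [e1, e2, norm_mul, norm_mul, na, nb, one_mul, one_mul]
    exact (pow_left_inj₀ (norm_nonneg _) (norm_nonneg _) two_ne_zero).1 h
  · intro i
    have e1 : (⟨(!₂[(a * u).re, (a * u).im, (b * v).re, (b * v).im] : EuclideanSpace ℝ (Fin 4)) 0,
        (!₂[(a * u).re, (a * u).im, (b * v).re, (b * v).im] : EuclideanSpace ℝ (Fin 4)) 1⟩ : ℂ) = a * u := rfl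
    have e2 : (⟨(!₂[(a * u).re, (a * u).im, (b * v).re, (b * v).im] : EuclideanSpace ℝ (Fin 4)) 2,
        (!₂[(a * u).re, (a * u).im, (b * v).re, (b * v).im] : EuclideanSpace ℝ (Fin 4)) 3⟩ : ℂ) = b * v := rfl
    unfold vec4
    simp only [e1, e2]
    rw [← hu, ← hv]
    simp only [norm_mul, na, nb, one_mul, map_mul, ca, cb, wt]
    fin_cases i <;> simp [ha, hb] <;> ring

private theorem sign_of {u u' l : ℂ} (hu : u ≠ 0) (h1 : u' = l * u)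
    (h2 : (starRingEnd ℂ) u' = l * (starRingEnd ℂ) u) (hn : ‖u'‖ = ‖u‖) : l = 1 ∨ l = -1 := by
  have h3 : u' * (starRingEnd ℂ) u' = l ^ 2 * (u * (starRingEnd ℂ) u) := by
    rw [h2]
    nth_rewrite 1 [h1]
    ring
  rw [Complex.mul_conj, Complex.mul_conj, Complex.normSq_eq_norm_sq, Complex.normSq_eq_norm_sq, hn] at h3
  have h4 : ((‖u‖ ^ 2 : ℝ) : ℂ) ≠ 0 := by
    have : ‖u‖ ^ 2 ≠ 0 := pow_ne_zero 2 (norm_ne_zero_iff.2 hu)
    exact_mod_cast this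
  have h5 : l ^ 2 = 1 := by
    apply mul_right_cancel₀ h4
    rw [← h3, one_mul]
  exact mul_self_eq_one_iff.1 (by rw [← sq]; exact h5)

private theorem cancel_of {c w w' l : ℂ} {r : ℝ} (hc : c ≠ 0) (hr : r ≠ 0)
    (h : c * (w' / (r : ℂ)) = l * (c * (w / (r : ℂ)))) : w' = l * w := by
  have hr' : (r : ℂ) ≠ 0 := by exact_mod_cast hr
  field_simp at h
  exact h

private theorem conclude {x y : EuclideanSpace ℝ (Fin 4)} {l : ℂ}
    (h1 : (⟨y 0, y 1⟩ : ℂ) = l * ⟨x 0, x 1⟩) (h2 : (⟨y 2, y 3⟩ : ℂ) = l * ⟨x 2, x 3⟩)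
    (hl : l = 1 ∨ l = -1) : x = y ∨ x = -y := by
  rcases hl with rfl | rfl
  · left
    rw [one_mul] at h1 h2
    have a0 := congrArg Complex.re h1
    have a1 := congrArg Complex.im h1
    have a2 := congrArg Complex.re h2
    have a3 := congrArg Complex.im h2
    simp only at a0 a1 a2 a3
    ext i
    fin_cases i
    · exact a0.symm
    · exact a1.symm
    · exact a2.symm
    · exact a3.symm
  · right
    rw [neg_one_mul, ← mk_neg] at h1 h2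
    have a0 := congrArg Complex.re h1
    have a1 := congrArg Complex.im h1
    have a2 := congrArg Complex.re h2
    have a3 := congrArg Complex.im h2
    simp only at a0 a1 a2 a3
    ext i
    fin_cases i
    · change x 0 = -(y 0); linarith
    · change x 1 = -(y 1); linarith
    · change x 2 = -(y 2); linarith
    · change x 3 = -(y 3); linarith

/-- Proof: λ u/|u| = u'/|u'| and λ conj u / |u| = conj u' / |u'| if u ≠ 0 (ρ > 0), so λ = 1 or -1, same for v. -/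
theorem vec4_fib (A B : ℝ → ℂ) (ρ : ℝ → ℝ) (hA : ∀ t, ‖A t‖ = 1) (hB : ∀ t, ‖B t‖ = 1)
    (h0 : ρ 0 = 0) (h1 : ρ 1 = 1 / 2) (hi : ∀ t ∈ Set.Ioo (0 : ℝ) 1, 0 < ρ t ∧ ρ t < 1 / 2)
    {x y : EuclideanSpace ℝ (Fin 4)} (hx : ‖x‖ = 1) (hy : ‖y‖ = 1)
    (ht : x 0 ^ 2 + x 1 ^ 2 = y 0 ^ 2 + y 1 ^ 2) {l : ℂ}
    (h : ∀ i : Fin (3 + 1), vec4 A B ρ y i = l * vec4 A B ρ x i) : x = y ∨ x = -y := by
  have nx := norm_sq4 x
  have ny := norm_sq4 y
  rw [hx] at nx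
  rw [hy] at ny
  have tu : ‖(⟨y 0, y 1⟩ : ℂ)‖ ^ 2 = ‖(⟨x 0, x 1⟩ : ℂ)‖ ^ 2 := by
    rw [← Complex.normSq_eq_norm_sq, ← Complex.normSq_eq_norm_sq, Complex.normSq_mk, Complex.normSq_mk]
    linarith
  have k0 := h 0
  have k1 := h 1
  have k2 := h 2
  have k3 := h 3
  unfold vec4 at k0 k1 k2 k3
  simp only at k0 k1 k2 k3
  have hc := @conclude x y l
  revert hc k0 k1 k2 k3 nx ny tu
  generalize (⟨x 0, x 1⟩ : ℂ) = u
  generalize (⟨x 2, x 3⟩ : ℂ) = v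
  generalize (⟨y 0, y 1⟩ : ℂ) = u'
  generalize (⟨y 2, y 3⟩ : ℂ) = v'
  intro nx ny tu k0 k1 k2 k3 hc
  have tv : ‖v'‖ ^ 2 = ‖v‖ ^ 2 := by linarith
  have nu : ‖u'‖ = ‖u‖ := (pow_left_inj₀ (norm_nonneg _) (norm_nonneg _) two_ne_zero).1 tu
  have nv : ‖v'‖ = ‖v‖ := (pow_left_inj₀ (norm_nonneg _) (norm_nonneg _) two_ne_zero).1 tv
  rw [tu, nu] at k0 k1
  rw [tu, nv] at k2 k3
  have hA0 : A (‖u‖ ^ 2) ≠ 0 := by
    intro h
    have := hA (‖u‖ ^ 2)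
    rw [h, norm_zero] at this
    exact zero_ne_one this
  have hB0 : B (‖u‖ ^ 2) ≠ 0 := by
    intro h
    have := hB (‖u‖ ^ 2)
    rw [h, norm_zero] at this
    exact zero_ne_one this
  simp only [Matrix.cons_val_zero, Matrix.cons_val_one, Matrix.cons_val] at k0 k1 k2 k3
  have first : u ≠ 0 → 0 < ρ (‖u‖ ^ 2) → u' = l * u ∧ (starRingEnd ℂ) u' = l * (starRingEnd ℂ) u := by
    intro hu hρ
    have hs : ((√(ρ (‖u‖ ^ 2)) : ℝ) : ℂ) ≠ 0 := by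
      have : √(ρ (‖u‖ ^ 2)) ≠ 0 := (Real.sqrt_pos.2 hρ).ne'
      exact_mod_cast this
    exact ⟨cancel_of (mul_ne_zero hs hA0) (norm_ne_zero_iff.2 hu) k0,
      cancel_of hs (norm_ne_zero_iff.2 hu) k1⟩
  have second : v ≠ 0 → ρ (‖u‖ ^ 2) < 1 / 2 → v' = l * v ∧ (starRingEnd ℂ) v' = l * (starRingEnd ℂ) v := by
    intro hv hρ
    have hs : ((√(1 / 2 - ρ (‖u‖ ^ 2)) : ℝ) : ℂ) ≠ 0 := by
      have : √(1 / 2 - ρ (‖u‖ ^ 2)) ≠ 0 := (Real.sqrt_pos.2 (sub_pos.2 hρ)).ne'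
      exact_mod_cast this
    exact ⟨cancel_of (mul_ne_zero hs hB0) (norm_ne_zero_iff.2 hv) k2,
      cancel_of hs (norm_ne_zero_iff.2 hv) k3⟩
  by_cases hu : u = 0
  · have hu' : u' = 0 := by
      rw [hu, norm_zero] at nu
      exact norm_eq_zero.1 nu
    have hv : v ≠ 0 := by
      rintro rfl
      rw [hu, norm_zero] at nx
      norm_num at nx
    have hs := second hv (by rw [hu, norm_zero]; norm_num [h0])
    exact hc (by rw [hu', hu, mul_zero]) hs.1 (sign_of hv hs.1 hs.2 nv)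
  · by_cases hv : v = 0
    · have hv' : v' = 0 := by
        rw [hv, norm_zero] at nv
        exact norm_eq_zero.1 nv
      have hu1 : ‖u‖ ^ 2 = 1 := by
        rw [hv, norm_zero] at nx
        linarith
      have hs := first hu (by rw [hu1, h1]; norm_num)
      exact hc hs.1 (by rw [hv', hv, mul_zero]) (sign_of hu hs.1 hs.2 nu)
    · have pu : 0 < ‖u‖ ^ 2 := by positivity
      have pv : 0 < ‖v‖ ^ 2 := by positivity
      have hio := hi (‖u‖ ^ 2) ⟨pu, by linarith⟩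
      have hs := first hu hio.1
      have hs2 := second hv hio.2
      exact hc hs.1 hs2.1 (sign_of hu hs.1 hs.2 nu)

end Pool.Agent.H11.ST
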