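import Pool.Agent.H11.ST.Fib
import Pool.Agent.H11.ST.PsiA
import Pool.Agent.H11.ST.PsiC
import Pool.Agent.H11.ST.PsiF

/-! The map from the 3-sphere to L. -/

set_option autoImplicit false

open scoped Topology
open Topology

namespace Pool.Agent.H11.ST

open Pool.Agent.H66.SyL

variable {b : Bas} {L : Set (Op 3)}

/-- the vector with given coordinates -/
private noncomputable def vec (b : Bas) (f : Fin (3 + 1) → ℂ) : E 3 := ∑ i, f i • b i

private theorem inner_vec (f : Fin (3 + 1) → ℂ) (i : Fin (3 + 1)) :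
    inner ℂ (b i) (vec b f) = f i := by
  unfold vec
  exact b.orthonormal.inner_right_fintype f i

private theorem norm_vec (f : Fin (3 + 1) → ℂ) :
    ‖vec b f‖ ^ 2 = ‖f 0‖ ^ 2 + ‖f 1‖ ^ 2 + ‖f 2‖ ^ 2 + ‖f 3‖ ^ 2 := by
  rw [← b.sum_sq_norm_inner_right (vec b f)]
  simp only [inner_vec]
  exact Fin.sum_univ_four _

private theorem continuous_pt' : Continuous fun z : E 3 => pt z := by
  have h1 : Continuous fun z : E 3 => ContinuousLinearMap.smulRightL ℂ (E 3) (E 3) (innerSL ℂ z) :=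
    (ContinuousLinearMap.smulRightL ℂ (E 3) (E 3)).continuous.comp (innerSL ℂ).continuous
  exact h1.clm_apply continuous_id

private theorem continuous_vec : Continuous fun f : Fin (3 + 1) → ℂ => vec b f := by
  unfold vec
  fun_prop

/-- Proof: (F t, ρ t) = h (t clamped to [0, 1]); 0 < ρ t < 1/2 for 0 < t < 1 because h is injective and a point of
K with second coordinate 0 or 1/2 is (0, 0) or (0, 1/2) (norm_fst). A, B from exists_AB. Psi x = pt (z x),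
z x = sum (vec4 x i) b i; unit, in L by norms_vec4 and Toric.sat. Surjective: Q in L, t = h^(-1) (prj Q),
x0 = (√t, 0, √(1-t), 0), Toric.fib and vec4_rot. Fibres: prj gives t, exists_phase, vec4_fib. -/
theorem exists_psi (hT : Toric b L) (h : Set.Icc (0 : ℝ) 1 ≃ₜ (prj b '' L))
    (h0 : ((h 0 : prj b '' L) : ℂ × ℝ) = (0, 0)) (h1 : ((h 1 : prj b '' L) : ℂ × ℝ) = (0, 1 / 2)) :
    ∃ Ψ : Metric.sphere (0 : EuclideanSpace ℝ (Fin 4)) 1 → L, Continuous Ψ ∧
      Function.Surjective Ψ ∧ ∀ x y, Ψ x = Ψ y ↔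
        ((x : EuclideanSpace ℝ (Fin 4)) = y ∨ (x : EuclideanSpace ℝ (Fin 4)) = -y) := by
  obtain ⟨H, hH⟩ : ∃ H : ℝ → ℂ × ℝ, H = fun t => ((h (Set.projIcc 0 1 zero_le_one t) : prj b '' L) : ℂ × ℝ) :=
    ⟨_, rfl⟩
  have Hc : Continuous H := by
    rw [hH]
    exact continuous_subtype_val.comp (h.continuous.comp continuous_projIcc)
  have Hmem : ∀ t, H t ∈ prj b '' L := by
    intro t; rw [hH]; exact (h _).2
  have H0 : H 0 = (0, 0) := by
    rw [hH]
    show ((h (Set.projIcc 0 1 zero_le_one 0) : prj b '' L) : ℂ × ℝ) = (0, 0)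
    rw [Set.projIcc_left]
    exact h0
  have H1 : H 1 = (0, 1 / 2) := by
    rw [hH]
    show ((h (Set.projIcc 0 1 zero_le_one 1) : prj b '' L) : ℂ × ℝ) = (0, 1 / 2)
    rw [Set.projIcc_right]
    exact h1
  have Hinj : ∀ t ∈ Set.Icc (0 : ℝ) 1, ∀ s ∈ Set.Icc (0 : ℝ) 1, H t = H s → t = s := by
    intro t ht s hs he
    rw [hH] at he
    have h2 := h.injective (Subtype.ext he)
    rw [Set.projIcc_of_mem _ ht, Set.projIcc_of_mem _ hs] at h2
    exact congrArg Subtype.val h2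
  have Hsurj : ∀ w ∈ prj b '' L, ∃ t ∈ Set.Icc (0 : ℝ) 1, H t = w := by
    intro w hw
    refine ⟨(h.symm ⟨w, hw⟩ : Set.Icc (0 : ℝ) 1), (h.symm ⟨w, hw⟩).2, ?_⟩
    rw [hH]
    show ((h (Set.projIcc 0 1 zero_le_one ((h.symm ⟨w, hw⟩ : Set.Icc (0 : ℝ) 1) : ℝ)) : prj b '' L) : ℂ × ℝ) = w
    rw [Set.projIcc_val, h.apply_symm_apply]
  have hn : ∀ t, ‖(H t).1‖ = (H t).2 * (1 / 2 - (H t).2) ∧ 0 ≤ (H t).2 ∧ (H t).2 ≤ 1 / 2 :=
    fun t => hT.norm_fst (Hmem t)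
  have hi : ∀ t ∈ Set.Ioo (0 : ℝ) 1, 0 < (H t).2 ∧ (H t).2 < 1 / 2 := by
    intro t ht
    obtain ⟨n1, n2, n3⟩ := hn t
    have ht' : t ∈ Set.Icc (0 : ℝ) 1 := ⟨ht.1.le, ht.2.le⟩
    constructor
    · refine lt_of_le_of_ne n2 fun he => ?_
      rw [← he, zero_mul] at n1
      have h3 : H t = H 0 := by
        rw [H0]
        exact Prod.ext (norm_eq_zero.1 n1) he.symm
      have := Hinj t ht' 0 ⟨le_rfl, zero_le_one⟩ h3
      exact ht.1.ne' this
    · refine lt_of_le_of_ne n3 fun he => ?_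
      rw [he, sub_self, mul_zero] at n1
      have h3 : H t = H 1 := by
        rw [H1]
        exact Prod.ext (norm_eq_zero.1 n1) he
      have := Hinj t ht' 1 ⟨zero_le_one, le_rfl⟩ h3
      exact ht.2.ne this
  have hρ0 : (fun t => (H t).2) 0 = 0 := by
    show (H 0).2 = 0
    rw [H0]
  have hρ1 : (fun t => (H t).2) 1 = 1 / 2 := by
    show (H 1).2 = 1 / 2
    rw [H1]
  obtain ⟨A, B, hA, hB, hAc, hBc, hF⟩ := exists_AB (fun t => (H t).1) (fun t => (H t).2)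
    (continuous_fst.comp Hc).continuousOn (fun t _ => (hn t).1) hρ0 hρ1 hi
  obtain ⟨ρ, hρ⟩ : ∃ ρ : ℝ → ℝ, ρ = fun t => (H t).2 := ⟨_, rfl⟩
  rw [← hρ] at hρ0 hρ1
  have hρc : Continuous ρ := by rw [hρ]; exact continuous_snd.comp Hc
  have hi' : ∀ t ∈ Set.Ioo (0 : ℝ) 1, 0 < ρ t ∧ ρ t < 1 / 2 := by rw [hρ]; exact hi
  have hi2 : ∀ t ∈ Set.Icc (0 : ℝ) 1, 0 ≤ ρ t ∧ ρ t ≤ 1 / 2 := by
    intro t _; rw [hρ]; exact (hn t).2
  -- the vector
  have key : ∀ x : EuclideanSpace ℝ (Fin 4), x ∈ Metric.sphere (0 : EuclideanSpace ℝ (Fin 4)) 1 →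
      x 0 ^ 2 + x 1 ^ 2 ∈ Set.Icc (0 : ℝ) 1 ∧ ‖vec b (vec4 A B ρ x)‖ = 1 ∧
        prj b (pt (vec b (vec4 A B ρ x))) = H (x 0 ^ 2 + x 1 ^ 2) ∧
        pt (vec b (vec4 A B ρ x)) ∈ L := by
    intro x hx
    obtain ⟨i0, i1, i2, i3, i4, i5⟩ := norms_vec4 A B ρ hA hB hρ0 hρ1 hi2 hx
    have hz : ‖vec b (vec4 A B ρ x)‖ = 1 := by
      have h2 : ‖vec b (vec4 A B ρ x)‖ ^ 2 = 1 := by
        rw [norm_vec, i1, i2, i3, i4]; ring
      have h3 : ‖vec b (vec4 A B ρ x)‖ ^ 2 = 1 ^ 2 := by rw [h2, one_pow]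
      exact (pow_left_inj₀ (norm_nonneg _) zero_le_one two_ne_zero).1 h3
    have hp : prj b (pt (vec b (vec4 A B ρ x))) = H (x 0 ^ 2 + x 1 ^ 2) := by
      rw [prj_pt, inner_vec, inner_vec, inner_vec, inner_vec, i5, i1]
      refine Prod.ext ?_ ?_
      · have h2 := hF _ i0
        rw [hρ]
        exact h2.symm
      · rw [hρ]
    refine ⟨i0, hz, hp, hT.sat hz ?_ ?_ ?_⟩
    · rw [inner_vec, inner_vec]
      exact (pow_left_inj₀ (norm_nonneg _) (norm_nonneg _) two_ne_zero).1 (by rw [i1, i2])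
    · rw [inner_vec, inner_vec]
      exact (pow_left_inj₀ (norm_nonneg _) (norm_nonneg _) two_ne_zero).1 (by rw [i3, i4])
    · rw [hp]; exact Hmem _
  refine ⟨fun x => ⟨pt (vec b (vec4 A B ρ x)), (key x x.2).2.2.2⟩, ?_, ?_, ?_⟩
  · refine Continuous.subtype_mk ?_ _
    have c1 := continuousOn_vec4 A B ρ hA hB hAc hBc hρc.continuousOn hρ0 hρ1
    exact continuous_pt'.comp (continuous_vec.comp (continuousOn_iff_continuous_domRestrict.1 c1))
  · rintro ⟨Q, hQ⟩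
    obtain ⟨t, ht, hw⟩ := Hsurj (prj b Q) ⟨Q, hQ, rfl⟩
    obtain ⟨x0, hx0⟩ : ∃ x0 : EuclideanSpace ℝ (Fin 4), x0 = !₂[√t, 0, √(1 - t), 0] := ⟨_, rfl⟩
    have s1 : √t ^ 2 = t := Real.sq_sqrt ht.1
    have s2 : √(1 - t) ^ 2 = 1 - t := Real.sq_sqrt (by linarith [ht.2])
    have e0 : x0 0 = √t := by rw [hx0]; rfl
    have e1 : x0 1 = 0 := by rw [hx0]; rfl
    have e2 : x0 2 = √(1 - t) := by rw [hx0]; rfl
    have e3 : x0 3 = 0 := by rw [hx0]; rfl
    have n0 : ‖x0‖ = 1 := by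
      have h2 : ‖x0‖ ^ 2 = 1 ^ 2 := by
        rw [EuclideanSpace.norm_sq_eq, Fin.sum_univ_four, e0, e1, e2, e3]
        simp only [Real.norm_eq_abs, sq_abs]
        rw [s1, s2]; ring
      exact (pow_left_inj₀ (norm_nonneg _) zero_le_one two_ne_zero).1 h2
    have m0 : x0 ∈ Metric.sphere (0 : EuclideanSpace ℝ (Fin 4)) 1 := by simpa using n0
    obtain ⟨_, _, k3, k4⟩ := key x0 m0
    have k5 : prj b (pt (vec b (vec4 A B ρ x0))) = prj b Q := by
      rw [k3, e0, e1, s1, ← hw]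
      congr 1
      ring
    obtain ⟨α, β, hab⟩ := hT.fib k4 hQ k5
    obtain ⟨x', hn', hx'⟩ := vec4_rot A B ρ x0 α β
    have m' : x' ∈ Metric.sphere (0 : EuclideanSpace ℝ (Fin 4)) 1 := by
      rw [n0] at hn'
      simpa using hn'
    refine ⟨⟨x', m'⟩, Subtype.ext ?_⟩
    show pt (vec b (vec4 A B ρ x')) = Q
    rw [← hab, tor_pt]
    refine pt_eq_of_coord b (c := 1) norm_one fun i => ?_
    rw [inner_vec, coord_rot, inner_vec, one_mul]
    exact hx' i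
  · rintro ⟨x, hx⟩ ⟨y, hy⟩
    have nx : ‖x‖ = 1 := by simpa using hx
    have ny : ‖y‖ = 1 := by simpa using hy
    constructor
    · intro he
      have he' : pt (vec b (vec4 A B ρ x)) = pt (vec b (vec4 A B ρ y)) := congrArg Subtype.val he
      obtain ⟨x1, x2, x3, _⟩ := key x hx
      obtain ⟨y1, y2, y3, _⟩ := key y hy
      have ht : x 0 ^ 2 + x 1 ^ 2 = y 0 ^ 2 + y 1 ^ 2 :=
        Hinj _ x1 _ y1 (by rw [← x3, ← y3, he'])
      obtain ⟨_, hl⟩ := exists_phase x2 y2 he'.symm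
      refine vec4_fib A B ρ hA hB hρ0 hρ1 hi' nx ny ht (l := inner ℂ (vec b (vec4 A B ρ x)) (vec b (vec4 A B ρ y))) ?_
      intro i
      have h2 := congrArg (fun z => inner ℂ (b i) z) hl
      simp only [inner_smul_right, inner_vec] at h2
      exact h2
    · intro he
      refine Subtype.ext ?_
      show pt (vec b (vec4 A B ρ x)) = pt (vec b (vec4 A B ρ y))
      rcases he with he | he
      · have he' : x = y := he
        rw [he']
      · have he' : x = -y := he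
        refine pt_eq_of_coord b (c := -1) (by rw [norm_neg, norm_one]) fun i => ?_
        rw [inner_vec, inner_vec, he', vec4_neg]
        ring

end Pool.Agent.H11.ST
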