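import Pool.Agent.H11.ST.RedA
import Pool.Agent.H66.SyL.Tori

/-! Two independent symmetries: L is toric. -/

set_option autoImplicit false

open scoped ContDiff Topology

namespace Pool.Agent.H11.ST

open Pool.Agent.H66.SyL

private theorem mean_wt (α β : ℝ) : mean (n := 3) (wt α β) = 0 := by
  have h : ∑ k : Fin (3 + 1), wt α β k = 0 := by
    have h2 : ∑ k : Fin 4, wt α β k = wt α β 0 + wt α β 1 + wt α β 2 + wt α β 3 :=
      Fin.sum_univ_four _
    rw [show (∑ k : Fin (3 + 1), wt α β k) = ∑ k : Fin 4, wt α β k from rfl, h2]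
    simp [wt]
  rw [mean, h, zero_div]

/-- Proof: S = {w : Sym b L w} satisfies the hypotheses of tori_algebra (sym_add, sym_const, dichotomy); the first
alternative contradicts the independence of 1, w, w'. So S = {w : w i + w j = w k + w l}; permute the
basis (exists_perm, sym_reindex) to get i, j, k, l = 0, 1, 2, 3. Then wt α β is a symmetry (inv, t = 1),
mom_mean for (1, -1, 0, 0) and (0, 0, 1, -1) gives eq01, eq23 (the mean is 0), semi_zero for
f z = (b 0, z), d = 1, w = (1, -1, 0, 0), e = 1 gives pole0, f z = (b 2, z) and (0, 0, 1, -1) pole1. -/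
theorem exists_toric {L : Set (Op 3)} (hL : IsLagrangian L) (hc : IsCompact L) (hconn : IsConnected L)
    (h1 : H1Zero L) (b : Bas) {w w' : Fin (3 + 1) → ℝ} (hw : Sym b L w) (hw' : Sym b L w')
    (hli : LinearIndependent ℝ ![(fun _ => (1 : ℝ)), w, w']) : ∃ b' : Bas, Toric b' L := by
  have hadd : ∀ u ∈ {u : Fin 4 → ℝ | Sym b L u}, ∀ v ∈ {u : Fin 4 → ℝ | Sym b L u},
      ∀ s t : ℝ, s • u + t • v ∈ {u : Fin 4 → ℝ | Sym b L u} :=
    fun u hu v hv s t => sym_add b hu hv s t
  have hone : ∀ c : ℝ, (fun _ => c) ∈ {u : Fin 4 → ℝ | Sym b L u} := fun c => sym_const b c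
  rcases tori_algebra {u : Fin 4 → ℝ | Sym b L u} hadd hone (by
    intro u hu
    rcases dichotomy b hL hc hconn h1 hu with h | ⟨i, j, hij, h2, h3, h4, -⟩ | h
    · exact Or.inl h
    · exact Or.inr (Or.inl ⟨i, j, hij, h2, h3, h4⟩)
    · exact Or.inr (Or.inr h)) with ⟨w0, hw0⟩ | ⟨i, j, k, l, hnd, hiff⟩
  · exfalso
    obtain ⟨s, t, hst⟩ := hw0 w hw
    obtain ⟨s', t', hst'⟩ := hw0 w' hw'
    have hind := Fintype.linearIndependent_iff.mp hli
    have hA := hind ![t * s' - t' * s, t', -t] (by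
      simp only [Fin.sum_univ_three, Matrix.cons_val_zero, Matrix.cons_val_one, Matrix.cons_val]
      rw [hst, hst']
      funext m
      simp only [Pi.add_apply, Pi.smul_apply, smul_eq_mul, Pi.zero_apply]
      ring)
    have ht' : t' = 0 := by simpa using hA 1
    have ht : t = 0 := by simpa using hA 2
    have hB := hind ![-s, 1, 0] (by
      simp only [Fin.sum_univ_three, Matrix.cons_val_zero, Matrix.cons_val_one, Matrix.cons_val]
      rw [hst, ht]
      funext m
      simp only [Pi.add_apply, Pi.smul_apply, smul_eq_mul, Pi.zero_apply]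
      ring)
    have h10 : (1 : ℝ) = 0 := by simpa using hB 1
    exact one_ne_zero h10
  · obtain ⟨σ, hσi, hσj, hσk, hσl⟩ := exists_perm hnd
    have hsym : ∀ v : Fin (3 + 1) → ℝ, v 0 + v 1 = v 2 + v 3 → Sym (b.reindex σ) L v := by
      intro v hv
      rw [sym_reindex]
      refine (hiff (fun m => v (σ m))).mpr ?_
      simp only [hσi, hσj, hσk, hσl]
      exact hv
    have hwt : ∀ α β : ℝ, Sym (b.reindex σ) L (wt α β) := by
      intro α β
      refine hsym _ ?_
      simp [wt]
    have hnorm : ∀ (α β : ℝ) (z : E 3), ‖z‖ = 1 → pt z ∈ L →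
        α * ‖inner ℂ ((b.reindex σ) 0) z‖ ^ 2 - α * ‖inner ℂ ((b.reindex σ) 1) z‖ ^ 2 +
        β * ‖inner ℂ ((b.reindex σ) 2) z‖ ^ 2 - β * ‖inner ℂ ((b.reindex σ) 3) z‖ ^ 2 = 0 := by
      intro α β z hz hzL
      have h := mom_mean (b.reindex σ) hL hc hconn h1 (hwt α β) hz hzL
      rw [mean_wt, Fin.sum_univ_four] at h
      simp only [wt, Matrix.cons_val_zero, Matrix.cons_val_one, Matrix.cons_val] at h
      linarith
    refine ⟨b.reindex σ, ?_, ?_, ?_, ?_, ?_, ?_⟩
    · intro α β P hP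
      have h := hwt α β 1 P hP
      rwa [one_smul] at h
    · intro P hP
      exact (hL P hP).1
    · intro z hz hzL
      have h := hnorm 1 0 z hz hzL
      have h2 : ‖inner ℂ ((b.reindex σ) 0) z‖ ^ 2 = ‖inner ℂ ((b.reindex σ) 1) z‖ ^ 2 := by linarith
      exact (sq_eq_sq₀ (norm_nonneg _) (norm_nonneg _)).mp h2
    · intro z hz hzL
      have h := hnorm 0 1 z hz hzL
      have h2 : ‖inner ℂ ((b.reindex σ) 2) z‖ ^ 2 = ‖inner ℂ ((b.reindex σ) 3) z‖ ^ 2 := by linarith
      exact (sq_eq_sq₀ (norm_nonneg _) (norm_nonneg _)).mp h2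
    · refine semi_zero (b.reindex σ) hL hc hconn h1 (hwt 1 0)
        (fun z => inner ℂ ((b.reindex σ) 0) z) (by fun_prop) 1 1 ?_ ?_ ?_
      · intro c z _
        rw [inner_smul_right, zpow_one]
      · intro t z
        rw [coord_rot]
        simp [wt]
      · rw [mean_wt]
        simp
    · refine semi_zero (b.reindex σ) hL hc hconn h1 (hwt 0 1)
        (fun z => inner ℂ ((b.reindex σ) 2) z) (by fun_prop) 1 1 ?_ ?_ ?_
      · intro c z _
        rw [inner_smul_right, zpow_one]
      · intro t z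
        rw [coord_rot]
        simp [wt]
      · rw [mean_wt]
        simp

end Pool.Agent.H11.ST
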