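import Pool.Agent.H11.ST.LocI
import Pool.Agent.H11.ST.LocP
import Pool.Agent.H11.ST.LocQ
import Pool.Agent.H11.ST.Cut
import Pool.Agent.H11.ST.Gm
import Pool.Agent.H11.ST.Inj
import Pool.Agent.H11.ST.Psi
import Pool.Agent.H11.ST.Rho
import Pool.Agent.H11.ST.Red

/-! Toric Lagrangian rational homology 3-spheres in CP^3 are homeomorphic to RP^3. -/

set_option autoImplicit false

open scoped ContDiff Topology
open Topology

namespace Pool.Agent.H11.ST

open Pool.Agent.H66.SyL

theorem toric_main {L : Set (Op 3)} (hL : IsLagrangian L) (hc : IsCompact L) (hconn : IsConnected L)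
    (h1 : H1Zero L) {b : Bas} (hT : Toric b L) : Nonempty (L ≃ₜ RP3) := by
  haveI : CompactSpace (prj b '' L) := isCompact_iff_compactSpace.mp (hc.image (continuous_prj b))
  haveI : ConnectedSpace (prj b '' L) :=
    isConnected_iff_connectedSpace.mp (hconn.image _ (continuous_prj b).continuousOn)
  set p : (prj b '' L) := ⟨((0 : ℂ), (0 : ℝ)), hT.mem_zero⟩ with hp
  set q : (prj b '' L) := ⟨((0 : ℂ), (1 / 2 : ℝ)), hT.mem_half⟩ with hq
  have hpq : p ≠ q := by
    intro h
    have h2 := congrArg (fun x : (prj b '' L) => (x : ℂ × ℝ).2) h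
    simp only [hp, hq] at h2
    norm_num at h2
  have hI : ∀ x : (prj b '' L), x ≠ p → x ≠ q → ArcAt x := by
    rintro ⟨w, P, hP, rfl⟩ hxp hxq
    have hn := hT.norms hP
    have hw := hT.norm_fst (Set.mem_image_of_mem (prj b) hP)
    refine loc_i hL hc hT hP ?_ ?_
    · intro h0
      apply hxp
      have h2 : (prj b P).2 = 0 := by rw [← hn.1, h0, norm_zero]
      have h1' : (prj b P).1 = 0 := by
        rw [← norm_eq_zero, hw.1, h2, zero_mul]
      exact Subtype.ext (Prod.ext h1' h2)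
    · intro h0
      apply hxq
      have h3 : 1 / 2 - (prj b P).2 = 0 := by rw [← hn.2.1, h0, norm_zero]
      have h2 : (prj b P).2 = 1 / 2 := by linarith
      have h1' : (prj b P).1 = 0 := by
        rw [← norm_eq_zero, hw.1, h3, mul_zero]
      exact Subtype.ext (Prod.ext h1' h2)
  have hEp : EndAt p := by
    obtain ⟨P, hP, hPp⟩ := hT.mem_zero
    have h0 : ent b P 0 0 = 0 := by
      rw [← norm_eq_zero, (hT.norms hP).1, hPp]
    have h := loc_p hL hc hT hP h0
    have he : (⟨prj b P, Set.mem_image_of_mem _ hP⟩ : (prj b '' L)) = p := Subtype.ext hPp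
    rwa [he] at h
  have hEq : EndAt q := by
    obtain ⟨P, hP, hPp⟩ := hT.mem_half
    have h0 : ent b P 2 2 = 0 := by
      rw [← norm_eq_zero, (hT.norms hP).2.1, hPp]
      norm_num
    have h := loc_q hL hc hT hP h0
    have he : (⟨prj b P, Set.mem_image_of_mem _ hP⟩ : (prj b '' L)) = q := Subtype.ext hPp
    rwa [he] at h
  have hcut : ∀ x : (prj b '' L), x ≠ p → x ≠ q → ¬ IsPreconnected ({x}ᶜ : Set (prj b '' L)) := by
    intro x hxp hxq
    obtain ⟨e, he, he0, -⟩ := hI x hxp hxq Set.univ Filter.univ_mem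
    rw [← he0]
    exact cut_pt hc hT h1 e he
  obtain ⟨g, hg, hgp, hpos, hlt, hinj, hop⟩ := exists_gm hpq hI hEp hEq hcut
  obtain ⟨h, hh0, hh1⟩ := homeo_of_gm hpq g hg hgp hpos hlt hinj hop
  obtain ⟨Ψ, hΨ, hΨs, hΨf⟩ := exists_psi hT h (by rw [hh0]) (by rw [hh1])
  obtain ⟨r, hr, hrs, hrf⟩ := exists_rho
  exact homeo_of_maps Ψ r hΨ hr hΨs hrs fun x y => (hΨf x y).trans (hrf x y).symm

theorem main {L : Set (Op 3)} (hL : IsLagrangian L) (hc : IsCompact L) (hconn : IsConnected L)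
    (h1 : H1Zero L) (b : Bas) {w w' : Fin (3 + 1) → ℝ} (hw : Sym b L w) (hw' : Sym b L w')
    (hli : LinearIndependent ℝ ![(fun _ => (1 : ℝ)), w, w']) : Nonempty (L ≃ₜ RP3) := by
  obtain ⟨b', hT⟩ := exists_toric hL hc hconn h1 b hw hw' hli
  exact toric_main hL hc hconn h1 hT

end Pool.Agent.H11.ST
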