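import Pool.Agent.H11.ST.Fib

/-! The reduced map L to prj(L) is open. -/

set_option autoImplicit false

open scoped ContDiff Topology

namespace Pool.Agent.H11.ST

open Pool.Agent.H66.SyL

variable {b : Bas} {L : Set (Op 3)}

private theorem cont_tor (b : Bas) (α β : ℝ) : Continuous fun Q : Op 3 => tor b α β Q := by
  have h0 : Continuous fun Q : Op 3 => ((α, β, Q) : ℝ × ℝ × Op 3) := by fun_prop
  have h1 := Continuous.comp (continuous_tor b) h0
  exact h1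

private theorem closed_avoid (b : Bas) {U : Set (Op 3)} (hU : IsOpen U) :
    IsClosed (⋂ α : ℝ, ⋂ β : ℝ, (fun Q : Op 3 => tor b α β Q) ⁻¹' Uᶜ) := by
  apply isClosed_iInter
  intro α
  apply isClosed_iInter
  intro β
  exact IsClosed.preimage (cont_tor b α β) hU.isClosed_compl

/-- Proof: O contains L cap U, U open. C = {Q in L : all tor α β Q not in U} is compact, so prj(C) is
closed, and prj P is not in prj(C) (fib). For w = prj Q near prj P, Q is not in C. -/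
theorem Toric.open_prj (hT : Toric b L) (hc : IsCompact L) {P : Op 3} (hP : P ∈ L)
    {O : Set (Op 3)} (hO : O ∈ 𝓝[L] P) :
    ∀ᶠ w in 𝓝[prj b '' L] (prj b P), ∃ Q ∈ L ∩ O, prj b Q = w := by
  obtain ⟨U, hU, hPU, hUO⟩ := mem_nhdsWithin.mp hO
  obtain ⟨D, hD, hDcl⟩ : ∃ D : Set (Op 3), (∀ Q, Q ∈ D ↔ ∀ α β : ℝ, tor b α β Q ∉ U) ∧
      IsClosed D := by
    refine ⟨_, ?_, closed_avoid b hU⟩
    intro Q
    simp only [Set.mem_iInter, Set.mem_preimage, Set.mem_compl_iff]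
  have hCc : IsCompact (L ∩ D) := hc.inter_right hDcl
  have hcl2 : IsClosed (prj b '' (L ∩ D)) := (hCc.image (continuous_prj b)).isClosed
  have hPn : prj b P ∉ prj b '' (L ∩ D) := by
    rintro ⟨Q, hQ, hQP⟩
    obtain ⟨α, β, h⟩ := hT.fib hQ.1 hP hQP
    have h2 := (hD Q).mp hQ.2 α β
    rw [h] at h2
    exact h2 hPU
  have h2 : (prj b '' (L ∩ D))ᶜ ∈ 𝓝 (prj b P) := hcl2.isOpen_compl.mem_nhds hPn
  filter_upwards [mem_nhdsWithin_of_mem_nhds h2, self_mem_nhdsWithin] with w hw hwL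
  obtain ⟨Q, hQ, rfl⟩ := hwL
  by_contra hcon
  apply hw
  refine ⟨Q, ⟨hQ, (hD Q).mpr fun α β hα => hcon ?_⟩, rfl⟩
  exact ⟨tor b α β Q, ⟨hT.inv α β Q hQ, hUO ⟨hα, hT.inv α β Q hQ⟩⟩, prj_tor b α β Q⟩

end Pool.Agent.H11.ST
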