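import Pool.Agent.H11.ST.Defs

/-! Sides of cut points on a curve. -/

set_option autoImplicit false

open scoped Topology NNReal
open Topology

namespace Pool.Agent.H11.ST

variable {X : Type*} [TopologicalSpace X] [T2Space X] [ConnectedSpace X]

theorem exists_side {p x : X} (hx : x ≠ p) (h : ¬ IsPreconnected ({x}ᶜ : Set X)) :
    ∃ A, IsSide p x A := by
  have hxo : IsOpen ({x}ᶜ : Set X) := isOpen_compl_singleton
  unfold IsPreconnected at h
  push Not at h
  obtain ⟨u, v, hu, hv, huv, hun, hvn, hemp⟩ := h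
  have key : ∀ u v : Set X, IsOpen u → IsOpen v → ({x}ᶜ : Set X) ⊆ u ∪ v →
      ({x}ᶜ ∩ v).Nonempty → {x}ᶜ ∩ (u ∩ v) = ∅ → p ∈ u → ∃ A, IsSide p x A := by
    intro u v hu hv huv hvn hemp hp
    have h1 : (({x}ᶜ ∩ u) ∪ {x})ᶜ = {x}ᶜ ∩ v := by
      ext y
      constructor
      · intro hy
        have hyx : y ∈ ({x}ᶜ : Set X) := fun h => hy (Or.inr h)
        refine ⟨hyx, ?_⟩
        rcases huv hyx with h | h
        · exact absurd (Or.inl ⟨hyx, h⟩) hy
        · exact h
      · rintro ⟨hyx, hyv⟩ (⟨_, hyu⟩ | h)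
        · have : y ∈ ({x}ᶜ ∩ (u ∩ v) : Set X) := ⟨hyx, hyu, hyv⟩
          rw [hemp] at this
          exact this
        · exact hyx h
    refine ⟨{x}ᶜ ∩ u, hxo.inter hu, ?_, ⟨fun h => hx h.symm, hp⟩, fun h => h.1 rfl, ?_⟩
    · rw [h1]
      exact hxo.inter hv
    · rw [h1]
      exact hvn
  have hpx : p ∈ ({x}ᶜ : Set X) := fun h => hx h.symm
  rcases huv hpx with hp | hp
  · exact key u v hu hv huv hvn hemp hp
  · refine key v u hv hu ?_ hun ?_ hp
    · rw [Set.union_comm]
      exact huv
    · rw [Set.inter_comm v u]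
      exact hemp

/-- the two halves of an arc through x lie on different sides. Proof: each half is connected, so contained in
A or in B = (A ∪ {x})ᶜ; if both are in A then B is open and closed (A ∪ {x} = A ∪ range c), if both are in
B then A is open and closed. -/
theorem side_local {p x : X} {A : Set X} (hA : IsSide p x A) {c : ℝ → X} (hc : IsOpenEmbedding c)
    {s : ℝ} (hs : c s = x) :
    (c '' Set.Iio s ⊆ A ∧ c '' Set.Ioi s ⊆ (A ∪ {x})ᶜ) ∨
    (c '' Set.Ioi s ⊆ A ∧ c '' Set.Iio s ⊆ (A ∪ {x})ᶜ) := by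
  obtain ⟨hAo, hBo, hpA, hxA, hBn⟩ := hA
  have hinj := hc.injective
  have hdisj : Disjoint A (A ∪ {x})ᶜ := by
    rw [Set.disjoint_compl_right_iff_subset]
    exact Set.subset_union_left
  have hhalf : ∀ I : Set ℝ, IsPreconnected I → s ∉ I →
      c '' I ⊆ A ∨ c '' I ⊆ (A ∪ {x})ᶜ := by
    intro I hI hsI
    have h1 : IsPreconnected (c '' I) := hI.image c hc.continuous.continuousOn
    apply h1.subset_or_subset hAo hBo hdisj
    rintro _ ⟨t, ht, rfl⟩
    by_cases h : c t ∈ A
    · exact Or.inl h
    · refine Or.inr ?_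
      rintro (h2 | h2)
      · exact h h2
      · have h3 : c t = c s := by rw [hs]; exact h2
        exact hsI (hinj h3 ▸ ht)
  have hrange : ∀ y ∈ Set.range c, y ∈ c '' Set.Iio s ∨ y = x ∨ y ∈ c '' Set.Ioi s := by
    rintro _ ⟨t, rfl⟩
    rcases lt_trichotomy t s with h | h | h
    · exact Or.inl ⟨t, h, rfl⟩
    · exact Or.inr (Or.inl (by rw [h, hs]))
    · exact Or.inr (Or.inr ⟨t, h, rfl⟩)
  have hxr : x ∈ Set.range c := ⟨s, hs⟩
  rcases hhalf (Set.Iio s) isPreconnected_Iio (lt_irrefl s) with h1 | h1 <;>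
    rcases hhalf (Set.Ioi s) isPreconnected_Ioi (lt_irrefl s) with h2 | h2
  · exfalso
    have h3 : A ∪ {x} = A ∪ Set.range c := by
      apply Set.Subset.antisymm
      · rintro y (hy | hy)
        · exact Or.inl hy
        · right
          rw [Set.mem_singleton_iff.mp hy]
          exact hxr
      · rintro y (hy | hy)
        · exact Or.inl hy
        · rcases hrange y hy with h | h | h
          · exact Or.inl (h1 h)
          · exact Or.inr h
          · exact Or.inl (h2 h)
    have h4 : IsOpen (A ∪ {x}) := by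
      rw [h3]
      exact hAo.union hc.isOpen_range
    have h5 : IsClopen (A ∪ {x}) := ⟨by rw [← isOpen_compl_iff]; exact hBo, h4⟩
    have h6 : A ∪ {x} = Set.univ := h5.eq_univ ⟨x, Or.inr rfl⟩
    rw [h6, Set.compl_univ] at hBn
    exact Set.not_nonempty_empty hBn
  · exact Or.inl ⟨h1, h2⟩
  · exact Or.inr ⟨h2, h1⟩
  · exfalso
    have h3 : Aᶜ = (A ∪ {x})ᶜ ∪ Set.range c := by
      apply Set.Subset.antisymm
      · intro y hy
        by_cases h : y = x
        · right
          rw [h]
          exact hxr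
        · left
          rintro (h' | h')
          · exact hy h'
          · exact h h'
      · rintro y (hy | hy)
        · exact fun h => hy (Or.inl h)
        · rcases hrange y hy with h | h | h
          · exact fun h' => h1 h (Or.inl h')
          · rw [h]
            exact hxA
          · exact fun h' => h2 h (Or.inl h')
    have h4 : IsOpen Aᶜ := by
      rw [h3]
      exact hBo.union hc.isOpen_range
    have h5 : IsClopen A := ⟨by rw [← isOpen_compl_iff]; exact h4, hAo⟩
    have h6 : A = Set.univ := h5.eq_univ ⟨p, hpA⟩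
    exact hxA (h6 ▸ Set.mem_univ x)

end Pool.Agent.H11.ST
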