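import Pool.Agent.H11.ST.SideA

/-! Sides are unique. -/

set_option autoImplicit false

open scoped Topology NNReal
open Topology

namespace Pool.Agent.H11.ST

variable {X : Type*} [TopologicalSpace X] [T2Space X] [ConnectedSpace X]

omit [T2Space X] in
private theorem side_helper {x : X} {U V W : Set X} (hU : IsOpen U) (hV : IsOpen V)
    (hW : IsOpen W) (hxU : x ∉ U) (hcov : ∀ y, y ∉ U → y ≠ x → y ∈ V ∪ W)
    (hdis : ∀ y ∈ U, y ∉ V ∪ W) {c : ℝ → X} (hc : IsOpenEmbedding c) {s : ℝ} (hs : c s = x)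
    (hl : ∀ t, t < s → c t ∉ U) (hr : ∀ t, s < t → c t ∉ U) : U = ∅ := by
  have hcl : IsOpen (Uᶜ) := by
    have heq : Uᶜ = (V ∪ W) ∪ Set.range c := by
      ext y
      constructor
      · intro hy
        by_cases hyx : y = x
        · right
          exact ⟨s, hs.trans hyx.symm⟩
        · left
          exact hcov y hy hyx
      · rintro (hy | ⟨t, rfl⟩)
        · intro hyU
          exact hdis y hyU hy
        · rcases lt_trichotomy t s with ht | ht | ht
          · exact hl t ht
          · rw [ht, hs]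
            exact hxU
          · exact hr t ht
    rw [heq]
    exact (hV.union hW).union hc.isOpen_range
  have hclopen : IsClopen U := ⟨isOpen_compl_iff.mp hcl, hU⟩
  rcases isClopen_iff.mp hclopen with h | h
  · exact h
  · exact absurd (h ▸ Set.mem_univ x) hxU

private theorem side_same {p x : X} {A A' : Set X} (hA : IsSide p x A) (hA' : IsSide p x A')
    {c : ℝ → X} (hc : IsOpenEmbedding c) {s : ℝ} (hs : c s = x)
    (h : ∀ t, t ≠ s → (c t ∈ A ↔ c t ∈ A')) : A ⊆ A' := by
  obtain ⟨hAo, hBo, hpA, hxA, hBn⟩ := hA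
  obtain ⟨hAo', hBo', hpA', hxA', hBn'⟩ := hA'
  have key : A ∩ (A' ∪ {x})ᶜ = ∅ := by
    refine side_helper (x := x) (hAo.inter hBo') hBo hAo' (fun hx => hxA hx.1) ?_ ?_ hc hs ?_ ?_
    · intro y hy hyx
      by_cases hyA' : y ∈ A'
      · exact Or.inr hyA'
      · left
        rintro (hyA | hyx')
        · apply hy
          refine ⟨hyA, ?_⟩
          rintro (h1 | h1)
          · exact hyA' h1
          · exact hyx h1
        · exact hyx hyx'
    · rintro y ⟨hyA, hyB⟩ (h1 | h1)
      · exact h1 (Or.inl hyA)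
      · exact hyB (Or.inl h1)
    · intro t ht hct
      exact hct.2 (Or.inl ((h t (ne_of_lt ht)).mp hct.1))
    · intro t ht hct
      exact hct.2 (Or.inl ((h t (ne_of_gt ht)).mp hct.1))
  intro y hy
  by_contra hyA'
  have : y ∈ A ∩ (A' ∪ {x})ᶜ := by
    refine ⟨hy, ?_⟩
    rintro (h1 | h1)
    · exact hyA' h1
    · exact hxA (h1 ▸ hy)
  rw [key] at this
  exact this

private theorem side_opp {p x : X} {A A' : Set X} (hA : IsSide p x A) (hA' : IsSide p x A')
    {c : ℝ → X} (hc : IsOpenEmbedding c) {s : ℝ} (hs : c s = x)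
    (h : ∀ t, t ≠ s → ¬ (c t ∈ A ∧ c t ∈ A')) : False := by
  obtain ⟨hAo, hBo, hpA, hxA, hBn⟩ := hA
  obtain ⟨hAo', hBo', hpA', hxA', hBn'⟩ := hA'
  have key : A ∩ A' = ∅ := by
    refine side_helper (x := x) (hAo.inter hAo') hBo hBo' (fun hx => hxA hx.1) ?_ ?_ hc hs ?_ ?_
    · intro y hy hyx
      by_cases hyA : y ∈ A
      · right
        rintro (h1 | h1)
        · exact hy ⟨hyA, h1⟩
        · exact hyx h1
      · left
        rintro (h1 | h1)
        · exact hyA h1
        · exact hyx h1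
    · rintro y ⟨hyA, hyA'⟩ (h1 | h1)
      · exact h1 (Or.inl hyA)
      · exact h1 (Or.inl hyA')
    · intro t ht hct
      exact h t (ne_of_lt ht) hct
    · intro t ht hct
      exact h t (ne_of_gt ht) hct
  have : p ∈ A ∩ A' := ⟨hpA, hpA'⟩
  rw [key] at this
  exact this

/-- Proof (side_local): if A contains the left half and A' the right half, A ∩ A' is open and closed
(its complement is B ∪ B' ∪ range c), contains p, not x. If both contain the left half, A ∩ B' with
B' = (A' ∪ {x})ᶜ is open and closed (complement B ∪ A' ∪ range c) and does not contain p, so it is empty;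
same for A' ∩ B. -/
theorem side_unique {p x : X} {A A' : Set X} (hA : IsSide p x A) (hA' : IsSide p x A') {c : ℝ → X}
    (hc : IsOpenEmbedding c) {s : ℝ} (hs : c s = x) : A = A' := by
  have hl : ∀ {S : Set X}, c '' Set.Iio s ⊆ S → ∀ t, t < s → c t ∈ S :=
    fun h t ht => h ⟨t, ht, rfl⟩
  have hr : ∀ {S : Set X}, c '' Set.Ioi s ⊆ S → ∀ t, s < t → c t ∈ S :=
    fun h t ht => h ⟨t, ht, rfl⟩
  have no : ∀ {S : Set X} {y : X}, y ∈ (S ∪ {x})ᶜ → y ∉ S := fun h h1 => h (Or.inl h1)
  rcases side_local hA hc hs with ⟨h1, h2⟩ | ⟨h1, h2⟩ <;>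
  rcases side_local hA' hc hs with ⟨h3, h4⟩ | ⟨h3, h4⟩
  · have h : ∀ t, t ≠ s → (c t ∈ A ↔ c t ∈ A') := by
      intro t ht
      rcases lt_or_gt_of_ne ht with h' | h'
      · exact ⟨fun _ => hl h3 t h', fun _ => hl h1 t h'⟩
      · exact ⟨fun h5 => absurd h5 (no (hr h2 t h')), fun h5 => absurd h5 (no (hr h4 t h'))⟩
    exact Set.Subset.antisymm (side_same hA hA' hc hs h)
      (side_same hA' hA hc hs (fun t ht => (h t ht).symm))
  · exfalso
    refine side_opp hA hA' hc hs ?_
    rintro t ht ⟨h5, h6⟩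
    rcases lt_or_gt_of_ne ht with h' | h'
    · exact no (hl h4 t h') h6
    · exact no (hr h2 t h') h5
  · exfalso
    refine side_opp hA hA' hc hs ?_
    rintro t ht ⟨h5, h6⟩
    rcases lt_or_gt_of_ne ht with h' | h'
    · exact no (hl h2 t h') h5
    · exact no (hr h4 t h') h6
  · have h : ∀ t, t ≠ s → (c t ∈ A ↔ c t ∈ A') := by
      intro t ht
      rcases lt_or_gt_of_ne ht with h' | h'
      · exact ⟨fun h5 => absurd h5 (no (hl h2 t h')), fun h5 => absurd h5 (no (hl h4 t h'))⟩
      · exact ⟨fun _ => hr h3 t h', fun _ => hr h1 t h'⟩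
    exact Set.Subset.antisymm (side_same hA hA' hc hs h)
      (side_same hA' hA hc hs (fun t ht => (h t ht).symm))

end Pool.Agent.H11.ST
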